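import Pool.Agent.Lib.MP_b9c6dd_an.X.A.CohOps

/-!
# The algebra `AT` and its automorphism `alp`
-/

set_option autoImplicit false

open scoped BoundedContinuousFunction InnerProductSpace

namespace Pool.Agent.B9x.A

variable {T : Tower} (R : Rep T)

/-- The `*`-algebra of coherent sequences. -/
noncomputable def A0 : StarSubalgebra ℂ R.S where
  carrier := {c | ∃ i0 w d, c ∈ Coh R i0 w d}
  mul_mem' := by
    rintro a b ⟨i, w, d, h⟩ ⟨i', w', d', h'⟩
    exact ⟨_, _, _, coh_mul (coh_mono (le_max_left i i') (le_max_left w w') (le_max_left d d') h)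
      (coh_mono (le_max_right i i') (le_max_right w w') (le_max_right d d') h')⟩
  add_mem' := by
    rintro a b ⟨i, w, d, h⟩ ⟨i', w', d', h'⟩
    exact ⟨_, _, _, coh_add (coh_mono (le_max_left i i') (le_max_left w w') (le_max_left d d') h)
      (coh_mono (le_max_right i i') (le_max_right w w') (le_max_right d d') h')⟩
  algebraMap_mem' r := ⟨0, 0, 0, coh_algebraMap r⟩
  star_mem' := by
    rintro a ⟨i, w, d, h⟩
    exact ⟨i, w, d, coh_star h⟩

theorem mem_A0 {c : R.S} : c ∈ A0 R ↔ ∃ i0 w d, c ∈ Coh R i0 w d := Iff.rfl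

/-- The C*-algebra of the counterexample. -/
abbrev AT : Type := ↥((A0 R).topologicalClosure)

noncomputable instance instAT : CStarAlgebra (AT R) :=
  StarSubalgebra.cstarAlgebra _ (h_closed := (A0 R).isClosed_topologicalClosure)

theorem mem_AT_iff {c : R.S} : c ∈ (A0 R).topologicalClosure ↔ c ∈ closure {c | c ∈ A0 R} := Iff.rfl

theorem shc_mem {k : ℤ} (hk : |k| ≤ 1) {c : R.S} (hc : c ∈ (A0 R).topologicalClosure) :
    shc R k c ∈ (A0 R).topologicalClosure := by
  have h1 : Continuous (shc R k) := BoundedContinuousFunction.continuous_compContinuous _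
  have h2 : Set.MapsTo (shc R k) {c | c ∈ A0 R} {c | c ∈ A0 R} := by
    rintro a ⟨i, w, d, h⟩
    exact ⟨i, w + 1, d, coh_shift k hk h⟩
  exact h2.closure h1 hc

/-- The automorphism: `(alp c) x = c (x - 1)`. -/
noncomputable def alp : AT R ≃⋆ₐ[ℂ] AT R where
  toFun c := ⟨shc R 1 c.1, shc_mem R (by norm_num) c.2⟩
  invFun c := ⟨shc R (-1) c.1, shc_mem R (by norm_num) c.2⟩
  left_inv c := by
    apply Subtype.ext
    ext x : 1
    simp [shc_apply]
  right_inv c := by
    apply Subtype.ext
    ext x : 1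
    simp [shc_apply]
  map_mul' a b := rfl
  map_add' a b := rfl
  map_star' a := rfl
  map_smul' r a := rfl

theorem alp_apply (c : AT R) (x : ℤ) : (alp R c).1 x = c.1 (x - 1) := rfl

theorem alp_symm_apply (c : AT R) (x : ℤ) : ((alp R)⁻¹ c).1 x = c.1 (x + 1) := by
  change c.1 (x - (-1)) = c.1 (x + 1)
  rw [sub_neg_eq_add]

theorem alp_zpow_apply (s : ℤ) (c : AT R) (x : ℤ) : ((alp R ^ s) c).1 x = c.1 (x - s) := by
  induction s using Int.induction_on generalizing c x with
  | zero =>
    rw [zpow_zero, sub_zero]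
    rfl
  | succ n ih =>
    have h1 : (alp R ^ ((n : ℤ) + 1)) c = (alp R ^ (n : ℤ)) (alp R c) := by
      rw [zpow_add_one]
      rfl
    rw [h1, ih, alp_apply]
    congr 1
    ring
  | pred n ih =>
    have h1 : (alp R ^ (-(n : ℤ) - 1)) c = (alp R ^ (-(n : ℤ))) ((alp R)⁻¹ c) := by
      rw [zpow_sub_one]
      rfl
    rw [h1, ih, alp_symm_apply]
    congr 1
    ring

end Pool.Agent.B9x.A
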