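import Pool.Agent.Lib.MP_b9c6dd_an.X.A.Alg

/-!
# Job A3 (ApproxInv): coherent sequences are limits of invertible ones

Let `c ∈ Coh R i0 w d`, `‖c‖ ≤ 1`, `0 < η ≤ 1`, `i1 ≥ i0` with `1 / (i1 + 1) ≤ η`. For `j : ℤ` let `ii j` be the least `i ≥ i1` with `j ∈ UU i w`
(`exists_UU`, `Nat.find`). If `rho m j' = rho m j` and `ii j ≤ m` then `ii j' = ii j` (`UU_rho`: the conditions `j ∈ UU i w` for `i ≤ ii j` depend
on `rho m j` only). For all `i` and `ρ : ℤ` choose `Fc i ρ : T.D (i + d)` such that: if `i0 ≤ i` and `ρ ∈ UU i w` then `Fc i ρ ∈ T.V (i+d)` codes `c` at `ρ` on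
level `i + d` (else `0`). For `i`, `ρ`, `b` choose `g i ρ b, h i ρ b : T.D (i + d + 1)` by `T.T2` for `F = Fc i ρ`, digit `b` and `η` (if `Fc i ρ ∈ V`,
`‖Fc i ρ‖ ≤ 1`; else `g = h = 1`).
With `m = ii j + d`, `ρ = rho m j`: `Fc (ii j) ρ` codes `c` at `j` on level `m` (`code_congr`, `rho_rho`, and `ρ ∈ UU (ii j) w` by `UU_rho`), so its norm is
`‖c j‖ ≤ 1` (`J_norm`). Put `G j = R.J (m + 1) j (g (ii j) (rho m j) (dgt m j))`, `G' j` the same with `h`. Then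
`‖c j - G j‖ ≤ 1 / (m + 1) + η ≤ 2 η` (`R.J1`), `G j * G' j = 1 = G' j * G j`, `‖G' j‖ ≤ 1 / η`, `‖G j‖ ≤ ‖c j‖ + 2 η`. `G` is in `Coh R i1 w (d + 1)`: for `i ≥ i1`,
`j ∈ UU i w`: `ii j ≤ i`; `g (ii j) (rho m j) (dgt m j) ∈ T.V (m + 1)` codes `G` at `j` on level `m + 1` (because `ii j'`, `rho m j'`, `dgt m j'` are the same for all `j'`
with `rho (m+1) j' = rho (m+1) j`), then `code_lift_le`. So `G` is a unit of `R.S` with inverse `G'`.
General `c`: scale (`c = ‖c‖ • c'`, if `c = 0` take `g` small scalar).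
`isUnit_AT`: an element of `AT R` which is a unit in `R.S` is a unit in `AT R` (closed star subalgebras are inverse closed: Mathlib
`StarSubalgebra.isUnit_coe_inv_mem` or similar in `Mathlib/Analysis/CStarAlgebra/Spectrum.lean`).
`dense_inv`: density.
-/

set_option autoImplicit false

open scoped BoundedContinuousFunction InnerProductSpace

namespace Pool.Agent.B9x.A

variable {T : Tower} {R : Rep T}

theorem approx_inv_one (c : R.S) {i0 w d : ℕ} (hc : c ∈ Coh R i0 w d) (h1 : ‖c‖ ≤ 1) (η : ℝ)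
    (hη : 0 < η) : ∃ G G' : R.S, G ∈ A0 R ∧ G * G' = 1 ∧ G' * G = 1 ∧ ‖c - G‖ ≤ 2 * η := by
  classical
  -- the starting level
  obtain ⟨i1, hi01, hi1⟩ : ∃ i1 : ℕ, i0 ≤ i1 ∧ 1 / ((i1 : ℝ) + 1) ≤ η := by
    obtain ⟨k, hk⟩ := exists_nat_one_div_lt hη
    refine ⟨max i0 k, le_max_left _ _, le_trans ?_ hk.le⟩
    have h2 : ((k : ℕ) : ℝ) ≤ ((max i0 k : ℕ) : ℝ) := by exact_mod_cast le_max_right i0 k
    gcongr
  -- the level of a coordinate
  have hex : ∀ j : ℤ, ∃ i : ℕ, i1 ≤ i ∧ j ∈ UU i (w : ℤ) := by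
    intro j
    obtain ⟨k, hk⟩ := exists_UU j (w : ℤ) (by positivity)
    exact ⟨max i1 k, le_max_left _ _, hk _ (le_max_right _ _)⟩
  obtain ⟨ii, hii⟩ : ∃ ii : ℤ → ℕ, ii = fun j => Nat.find (hex j) := ⟨_, rfl⟩
  have hii1 : ∀ j, i1 ≤ ii j := fun j => by rw [hii]; exact (Nat.find_spec (hex j)).1
  have hiiU : ∀ j, j ∈ UU (ii j) (w : ℤ) := fun j => by rw [hii]; exact (Nat.find_spec (hex j)).2
  have hiim : ∀ j i, i1 ≤ i → j ∈ UU i (w : ℤ) → ii j ≤ i := fun j i h h' => by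
    rw [hii]
    exact Nat.find_min' (hex j) ⟨h, h'⟩
  have hiic : ∀ (m : ℕ) (j j' : ℤ), rho m j' = rho m j → ii j ≤ m → ii j' = ii j := by
    intro m j j' hr hm
    have h2 : ii j' ≤ ii j := hiim j' _ (hii1 j) ((UU_rho m (ii j) w j j' hm hr).2 (hiiU j))
    have h3 : ii j ≤ ii j' := hiim j _ (hii1 j') ((UU_rho m (ii j') w j j' (h2.trans hm) hr).1 (hiiU j'))
    exact le_antisymm h2 h3
  -- the codes
  have hF : ∀ (i : ℕ) (ρ : ℤ), ∃ F : T.D (i + d), i0 ≤ i → ρ ∈ UU i (w : ℤ) → F ∈ T.V (i + d) ∧ Code R (i + d) c ρ F := by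
    intro i ρ
    by_cases h : i0 ≤ i ∧ ρ ∈ UU i (w : ℤ)
    · obtain ⟨F, hF1, hF2⟩ := hc i h.1 ρ h.2
      exact ⟨F, fun _ _ => ⟨hF1, hF2⟩⟩
    · exact ⟨0, fun h2 h3 => absurd ⟨h2, h3⟩ h⟩
  choose Fc hFc using hF
  have hT : ∀ (i : ℕ) (ρ : ℤ) (b : Fin 3), ∃ g h : T.D (i + d + 1), Fc i ρ ∈ T.V (i + d) → ‖Fc i ρ‖ ≤ 1 →
      g ∈ T.V (i + d + 1) ∧ g * h = 1 ∧ h * g = 1 ∧ ‖h‖ ≤ 1 / η ∧
        ‖T.io (i + d) b (Fc i ρ) - g‖ ≤ 1 / (((i + d : ℕ) : ℝ) + 1) + η := by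
    intro i ρ b
    by_cases h : Fc i ρ ∈ T.V (i + d) ∧ ‖Fc i ρ‖ ≤ 1
    · obtain ⟨g, hg, hh, h2, h3, h4, h5⟩ := T.T2 (i + d) (Fc i ρ) h.1 h.2 b η hη
      exact ⟨g, hh, fun _ _ => ⟨hg, h2, h3, h4, h5⟩⟩
    · exact ⟨1, 1, fun h2 h3 => absurd ⟨h2, h3⟩ h⟩
  choose g h hgh using hT
  -- the data at a coordinate
  have hdat : ∀ j : ℤ, Fc (ii j) (rho (ii j + d) j) ∈ T.V (ii j + d) ∧ Code R (ii j + d) c j (Fc (ii j) (rho (ii j + d) j)) ∧
      ‖Fc (ii j) (rho (ii j + d) j)‖ ≤ 1 := by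
    intro j
    have hU : rho (ii j + d) j ∈ UU (ii j) (w : ℤ) :=
      (UU_rho (ii j + d) (ii j) w j _ (Nat.le_add_right _ _) (rho_rho _ _)).2 (hiiU j)
    obtain ⟨h2, h3⟩ := hFc (ii j) (rho (ii j + d) j) (hi01.trans (hii1 j)) hU
    have h4 : Code R (ii j + d) c j (Fc (ii j) (rho (ii j + d) j)) := (code_congr (rho_rho _ _)).1 h3
    refine ⟨h2, h4, ?_⟩
    rw [← J_norm (R := R) (ii j + d) j, ← h4 j rfl]
    exact (c.norm_coe_le_norm j).trans h1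
  obtain ⟨GG, hGG⟩ : ∃ GG : ℕ → ℤ → (R.HH →L[ℂ] R.HH),
      GG = fun i j => R.J (i + d + 1) j (g i (rho (i + d) j) (dgt (i + d) j)) := ⟨_, rfl⟩
  obtain ⟨HG, hHG⟩ : ∃ HG : ℕ → ℤ → (R.HH →L[ℂ] R.HH),
      HG = fun i j => R.J (i + d + 1) j (h i (rho (i + d) j) (dgt (i + d) j)) := ⟨_, rfl⟩
  have hspec : ∀ j : ℤ, g (ii j) (rho (ii j + d) j) (dgt (ii j + d) j) ∈ T.V (ii j + d + 1) ∧
      GG (ii j) j * HG (ii j) j = 1 ∧ HG (ii j) j * GG (ii j) j = 1 ∧ ‖HG (ii j) j‖ ≤ 1 / η ∧ ‖c j - GG (ii j) j‖ ≤ 2 * η := by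
    intro j
    obtain ⟨h2, h3, h4⟩ := hdat j
    obtain ⟨h5, h6, h7, h8, h9⟩ := hgh (ii j) (rho (ii j + d) j) (dgt (ii j + d) j) h2 h4
    refine ⟨h5, ?_, ?_, ?_, ?_⟩
    · rw [hGG, hHG]
      show R.J _ _ _ * R.J _ _ _ = 1
      rw [← map_mul, h6, map_one]
    · rw [hGG, hHG]
      show R.J _ _ _ * R.J _ _ _ = 1
      rw [← map_mul, h7, map_one]
    · rw [hHG]
      show ‖R.J _ _ _‖ ≤ _
      rw [J_norm]
      exact h8
    · rw [hGG, h3 j rfl, R.J1]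
      show ‖R.J _ _ _ - R.J _ _ _‖ ≤ _
      rw [← map_sub, J_norm]
      refine h9.trans ?_
      have h10 : 1 / (((ii j + d : ℕ) : ℝ) + 1) ≤ 1 / ((i1 : ℝ) + 1) := by
        have h11 : ((i1 : ℕ) : ℝ) ≤ ((ii j + d : ℕ) : ℝ) := by exact_mod_cast (hii1 j).trans (Nat.le_add_right _ _)
        gcongr
      linarith
  have hGbd : ∀ j, ‖GG (ii j) j‖ ≤ 1 + 2 * η := by
    intro j
    have h2 := (hspec j).2.2.2.2
    have h3 := (c.norm_coe_le_norm j).trans h1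
    have h4 : ‖GG (ii j) j‖ ≤ ‖c j‖ + ‖c j - GG (ii j) j‖ := by
      have h5 := norm_sub_le (c j) (c j - GG (ii j) j)
      rwa [sub_sub_cancel] at h5
    linarith
  refine ⟨BoundedContinuousFunction.ofNormedAddCommGroup (fun j => GG (ii j) j) continuous_of_discreteTopology (1 + 2 * η) hGbd,
    BoundedContinuousFunction.ofNormedAddCommGroup (fun j => HG (ii j) j) continuous_of_discreteTopology (1 / η)
      (fun j => (hspec j).2.2.2.1), ?_, ?_, ?_, ?_⟩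
  · rw [mem_A0]
    refine ⟨i1, w, d + 1, ?_⟩
    intro i hi j hj
    have hle : ii j ≤ i := hiim j i hi hj
    have hcode : Code R (ii j + d + 1) (BoundedContinuousFunction.ofNormedAddCommGroup (fun j => GG (ii j) j)
        continuous_of_discreteTopology (1 + 2 * η) hGbd) j (g (ii j) (rho (ii j + d) j) (dgt (ii j + d) j)) := by
      intro j' hj'
      have h2 : rho (ii j + d) j' = rho (ii j + d) j := rho_desc (ii j + d + 1) (ii j + d) j j' (Nat.le_succ _) hj'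
      have h3 : dgt (ii j + d) j' = dgt (ii j + d) j := dgt_desc (ii j + d + 1) (ii j + d) j j' (Nat.lt_succ_self _) hj'
      have h4 : ii j' = ii j := hiic (ii j + d) j j' h2 (Nat.le_add_right _ _)
      show GG (ii j') j' = _
      rw [h4, hGG]
      show R.J _ _ (g (ii j) (rho (ii j + d) j') (dgt (ii j + d) j')) = _
      rw [h2, h3]
    exact code_lift_le (m' := i + (d + 1)) (by omega) (hspec j).1 hcode
  · ext1 j
    exact (hspec j).2.1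
  · ext1 j
    exact (hspec j).2.2.1
  · rw [BoundedContinuousFunction.norm_le (by positivity)]
    intro j
    exact (hspec j).2.2.2.2

end Pool.Agent.B9x.A
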