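import Mathlib

/-!
# Job A7 (CPB): a norm bound

In a C*-algebra, `d` selfadjoint and `∑ star (r q) * r q = 1` imply `‖∑ star (r q) * d * r q‖ ≤ ‖d‖`: with the order
(`CStarAlgebra.spectralOrder`, `CStarAlgebra.spectralOrderedRing`), `-‖d‖ ≤ d ≤ ‖d‖`, conjugate (`star_left_conjugate_le_conjugate`) and sum;
then `CStarAlgebra.norm_le_iff_le_algebraMap`-like lemmas for selfadjoint elements.
-/

set_option autoImplicit false

namespace Pool.Agent.B9x.A

theorem cp_bound {A : Type} [CStarAlgebra A] {n : ℕ} (r : Fin n → A) (d : A) (hd : star d = d)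
    (hr : ∑ q, star (r q) * r q = 1) : ‖∑ q, star (r q) * d * r q‖ ≤ ‖d‖ := by
  rcases subsingleton_or_nontrivial A with hA | hA
  · have h0 : ∑ q, star (r q) * d * r q = 0 := Subsingleton.elim _ _
    rw [h0, norm_zero]
    exact norm_nonneg d
  let _ : PartialOrder A := CStarAlgebra.spectralOrder A
  let _ : StarOrderedRing A := CStarAlgebra.spectralOrderedRing A
  have hsa : IsSelfAdjoint d := hd
  have hy : IsSelfAdjoint (∑ q, star (r q) * d * r q) := by
    rw [isSelfAdjoint_iff, star_sum]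
    refine Finset.sum_congr rfl fun q _ => ?_
    rw [star_mul, star_mul, star_star, hd, mul_assoc]
  have h1 : d ≤ algebraMap ℝ A ‖d‖ := IsSelfAdjoint.le_algebraMap_norm_self hsa
  have h2 : algebraMap ℝ A (-‖d‖) ≤ d := by
    rw [map_neg]
    exact IsSelfAdjoint.neg_algebraMap_norm_le_self hsa
  have key : ∀ c : ℝ, ∑ q, star (r q) * algebraMap ℝ A c * r q = algebraMap ℝ A c := by
    intro c
    have h3 : ∀ q, star (r q) * algebraMap ℝ A c * r q = algebraMap ℝ A c * (star (r q) * r q) := by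
      intro q
      rw [← Algebra.commutes c (star (r q)), mul_assoc]
    simp_rw [h3]
    rw [← Finset.mul_sum, hr, mul_one]
  have h4 : ∑ q, star (r q) * d * r q ≤ algebraMap ℝ A ‖d‖ := by
    rw [← key ‖d‖]
    exact Finset.sum_le_sum fun q _ => star_left_conjugate_le_conjugate h1 (r q)
  have h5 : algebraMap ℝ A (-‖d‖) ≤ ∑ q, star (r q) * d * r q := by
    rw [← key (-‖d‖)]
    exact Finset.sum_le_sum fun q _ => star_left_conjugate_le_conjugate h2 (r q)
  obtain ⟨⟨x, hx, hxn⟩, -⟩ := IsometricContinuousFunctionalCalculus.isGreatest_norm_spectrum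
    (𝕜 := ℝ) (∑ q, star (r q) * d * r q) hy
  rw [← hxn]
  have h6 := (le_algebraMap_iff_spectrum_le (ha := hy)).1 h4 x hx
  have h7 := (algebraMap_le_iff_le_spectrum (ha := hy)).1 h5 x hx
  simp only [Real.norm_eq_abs]
  exact abs_le.2 ⟨h7, h6⟩

end Pool.Agent.B9x.A
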