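import Pool.Agent.Lib.MP_b9c6dd_an.X.A.Tiles

/-!
# Job A2 (CohOps): coding and coherent sequences

`code_lift`: let `rho (m+1) j' = rho (m+1) j`; by `rho_desc`, `dgt_desc` : `rho m j' = rho m j`, `dgt m j' = dgt m j`, and `R.J1`.
`code_lift_le`: by induction on `m' ≥ m` (`T.io_mem`).
`code_congr`: coding at `j` and at `j'` is the same condition if `rho m j' = rho m j`.
`coh_mono`: `UU_le` and `code_lift_le`. `coh_mul`: `T.mul_mem`: `F`, `F'` code `c`, `c'` on level `i + d`, then `io (F * F')` codes `c * c'` on level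
`i + d + 1` (`code_lift`). `coh_shift` : `shift k` with `k = ± 1`: for `j ∈ UU i (w + 1)`, `j - k ∈ UU i w` (`UU_sub`); if `F` codes `c` at `j - k` on level `m = i + d` then
`F` codes `shc k c` at `j`: for `rho m j' = rho m j` also `t m (j' - k) = t m j'` (`j' ∈ UU i (w+1)` by `UU_rho`, then `UU_t`), so
`rho m (j' - k) = rho m j' - k = rho m j - k = rho m (j - k)` (`rho_add_of_t`) and `c (j' - k) = J m (j' - k) F = J m j' F` (`J2`).
-/

set_option autoImplicit false

open scoped BoundedContinuousFunction InnerProductSpace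

namespace Pool.Agent.B9x.A

variable {T : Tower} (R : Rep T)

/-- The shift by `k`. -/
noncomputable def shc (k : ℤ) (c : R.S) : R.S :=
  c.compContinuous ⟨fun x => x - k, continuous_of_discreteTopology⟩

theorem shc_apply (k : ℤ) (c : R.S) (x : ℤ) : shc R k c x = c (x - k) := rfl

variable {R}

theorem J_norm (i : ℕ) (j : ℤ) (F : T.D i) : ‖R.J i j F‖ = ‖F‖ :=
  NonUnitalStarAlgHom.norm_map (R.J i j) (R.J_inj i j) F

theorem code_lift {m : ℕ} {c : R.S} {j : ℤ} {F : T.D m} (h : Code R m c j F) :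
    Code R (m + 1) c j (T.io m (dgt m j) F) := by
  intro j' hj'
  have h1 := rho_desc (m + 1) m j j' (Nat.le_succ m) hj'
  have h2 := dgt_desc (m + 1) m j j' (Nat.lt_succ_self m) hj'
  rw [h j' h1, R.J1 m j' F, h2]

theorem code_lift_le {m m' : ℕ} (hm : m ≤ m') {c : R.S} {j : ℤ} {F : T.D m} (hF : F ∈ T.V m)
    (h : Code R m c j F) : ∃ F' ∈ T.V m', Code R m' c j F' := by
  induction m', hm using Nat.le_induction with
  | base => exact ⟨F, hF, h⟩
  | succ n hn ih =>
    obtain ⟨F', hF', hc⟩ := ih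
    exact ⟨T.io n (dgt n j) F', T.io_mem n _ F' hF', code_lift hc⟩

theorem code_congr {m : ℕ} {c : R.S} {j j' : ℤ} {F : T.D m} (hj : rho m j' = rho m j) :
    Code R m c j' F ↔ Code R m c j F := by
  constructor
  · intro h x hx
    exact h x (hx.trans hj.symm)
  · intro h x hx
    exact h x (hx.trans hj)

theorem coh_mono {i0 w d i0' w' d' : ℕ} (hi : i0 ≤ i0') (hw : w ≤ w') (hd : d ≤ d') :
    Coh R i0 w d ⊆ Coh R i0' w' d' := by
  intro c hc i hii j hj
  have hj' : j ∈ UU i w :=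
    UU_le i i w' w le_rfl (by positivity) (by exact_mod_cast hw) hj
  obtain ⟨F, hF, hcF⟩ := hc i (hi.trans hii) j hj'
  exact code_lift_le (Nat.add_le_add_left hd i) hF hcF

theorem coh_add {i0 w d : ℕ} {c c' : R.S} (h : c ∈ Coh R i0 w d) (h' : c' ∈ Coh R i0 w d) :
    c + c' ∈ Coh R i0 w d := by
  intro i hi j hj
  obtain ⟨F, hF, hcF⟩ := h i hi j hj
  obtain ⟨F', hF', hcF'⟩ := h' i hi j hj
  refine ⟨F + F', (T.V (i + d)).add_mem hF hF', ?_⟩
  intro x hx
  rw [map_add, ← hcF x hx, ← hcF' x hx]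
  rfl

theorem coh_mul {i0 w d : ℕ} {c c' : R.S} (h : c ∈ Coh R i0 w d) (h' : c' ∈ Coh R i0 w d) :
    c * c' ∈ Coh R i0 w (d + 1) := by
  intro i hi j hj
  obtain ⟨F, hF, hcF⟩ := h i hi j hj
  obtain ⟨F', hF', hcF'⟩ := h' i hi j hj
  have hcode : Code R (i + d) (c * c') j (F * F') := by
    intro x hx
    rw [map_mul, ← hcF x hx, ← hcF' x hx]
    rfl
  exact ⟨T.io (i + d) (dgt (i + d) j) (F * F'), T.mul_mem _ _ F hF F' hF', code_lift hcode⟩

theorem coh_star {i0 w d : ℕ} {c : R.S} (h : c ∈ Coh R i0 w d) : star c ∈ Coh R i0 w d := by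
  intro i hi j hj
  obtain ⟨F, hF, hcF⟩ := h i hi j hj
  refine ⟨star F, T.star_mem _ F hF, ?_⟩
  intro x hx
  rw [map_star, ← hcF x hx]
  rfl

theorem coh_algebraMap (r : ℂ) : algebraMap ℂ R.S r ∈ Coh R 0 0 0 := by
  intro i _ j _
  refine ⟨r • (1 : T.D (i + 0)), (T.V (i + 0)).smul_mem r (T.one_mem _), ?_⟩
  intro x _
  rw [map_smul, map_one]
  rw [Algebra.algebraMap_eq_smul_one]
  rfl

theorem coh_shift {i0 w d : ℕ} {c : R.S} (k : ℤ) (hk : |k| ≤ 1) (h : c ∈ Coh R i0 w d) :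
    shc R k c ∈ Coh R i0 (w + 1) d := by
  intro i hi j hj
  have hw0 : (0 : ℤ) ≤ (w : ℤ) := by positivity
  have hj0 : j ∈ UU i ((w : ℤ) + 1) := by exact_mod_cast hj
  have hk' : |-k| ≤ 1 := by rwa [abs_neg]
  have hk2 : |-k| ≤ (w : ℤ) + 1 := hk'.trans (by linarith)
  have hjk : j - k ∈ UU i (w : ℤ) := by
    have := UU_sub i w j (-k) hj0 hw0 hk'
    rwa [← sub_eq_add_neg] at this
  obtain ⟨F, hF, hcF⟩ := h i hi (j - k) hjk
  refine ⟨F, hF, ?_⟩
  intro x hx
  have him : i ≤ i + d := Nat.le_add_right i d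
  have hx0 : x ∈ UU i ((w : ℤ) + 1) := (UU_rho (i + d) i ((w : ℤ) + 1) j x him hx).mpr hj0
  have htx : t (i + d) (x - k) = t (i + d) x := by
    have := UU_t i (i + d) ((w : ℤ) + 1) x (-k) hx0 him hk2
    rwa [← sub_eq_add_neg] at this
  have htj : t (i + d) (j - k) = t (i + d) j := by
    have := UU_t i (i + d) ((w : ℤ) + 1) j (-k) hj0 him hk2
    rwa [← sub_eq_add_neg] at this
  have hrx : rho (i + d) (x - k) = rho (i + d) x - k := by
    have := rho_add_of_t (i + d) x (-k) (by rwa [← sub_eq_add_neg])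
    rwa [← sub_eq_add_neg, ← sub_eq_add_neg] at this
  have hrj : rho (i + d) (j - k) = rho (i + d) j - k := by
    have := rho_add_of_t (i + d) j (-k) (by rwa [← sub_eq_add_neg])
    rwa [← sub_eq_add_neg, ← sub_eq_add_neg] at this
  rw [shc_apply, hcF (x - k) (by rw [hrx, hrj, hx]), R.J2 (i + d) (x - k) x htx]

end Pool.Agent.B9x.A
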