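import Mathlib

/-!
# Job A9 (DSum): direct sums of representations

`A` a C*-algebra, `ev ω : A →⋆ₐ[ℂ] (H →L[ℂ] H)` for `ω : Ω`. On the Hilbert space `lp (fun _ : Ω => H) 2` put `(D a ξ) ω = ev ω a (ξ ω)`: `‖ev ω a‖ ≤ ‖a‖`
(`NonUnitalStarAlgHom.norm_apply_le`), so it is well defined with `‖D a ξ‖ ≤ ‖a‖ ‖ξ‖` (`Memℓp` by comparison,
`lp.norm_rpow_eq_tsum` or `lp.norm_sq_eq...`). `D` is a `*`-homomorphism: the adjoint by the inner product `lp.inner_eq_tsum`.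
-/

set_option autoImplicit false

open scoped InnerProductSpace ENNReal

namespace Pool.Agent.B9x.A

variable {A Ω H : Type} [CStarAlgebra A] [NormedAddCommGroup H] [InnerProductSpace ℂ H]
    [CompleteSpace H]

private theorem dsum_two : (0 : ℝ) < (2 : ℝ≥0∞).toReal := by norm_num

private theorem dsum_le (ev : Ω → A →⋆ₐ[ℂ] (H →L[ℂ] H)) (a : A) (ω : Ω) (v : H) :
    ‖ev ω a v‖ ≤ ‖a‖ * ‖v‖ :=
  ((ev ω a).le_opNorm v).trans (mul_le_mul_of_nonneg_right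
    (NonUnitalStarAlgHom.norm_apply_le (ev ω) a) (norm_nonneg v))

private theorem dsum_pow (ev : Ω → A →⋆ₐ[ℂ] (H →L[ℂ] H)) (a : A) (ω : Ω) (v : H) :
    ‖ev ω a v‖ ^ (2 : ℝ≥0∞).toReal ≤ ‖a‖ ^ (2 : ℝ≥0∞).toReal * ‖v‖ ^ (2 : ℝ≥0∞).toReal := by
  rw [← Real.mul_rpow (norm_nonneg _) (norm_nonneg _)]
  exact Real.rpow_le_rpow (norm_nonneg _) (dsum_le ev a ω v) dsum_two.le

private theorem dsum_sum (ξ : lp (fun _ : Ω => H) 2) :
    Summable fun ω => ‖ξ ω‖ ^ (2 : ℝ≥0∞).toReal :=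
  (lp.memℓp ξ).summable dsum_two

private theorem dsum_mem (ev : Ω → A →⋆ₐ[ℂ] (H →L[ℂ] H)) (a : A) (ξ : lp (fun _ : Ω => H) 2) :
    Memℓp (fun ω => ev ω a (ξ ω)) 2 := by
  refine memℓp_gen (Summable.of_nonneg_of_le (fun ω => Real.rpow_nonneg (norm_nonneg _) _)
    (fun ω => dsum_pow ev a ω (ξ ω)) ((dsum_sum ξ).mul_left _))

private theorem dsum_norm (ev : Ω → A →⋆ₐ[ℂ] (H →L[ℂ] H)) (a : A) (ξ : lp (fun _ : Ω => H) 2)
    (η : lp (fun _ : Ω => H) 2) (h : ∀ ω, η ω = ev ω a (ξ ω)) : ‖η‖ ≤ ‖a‖ * ‖ξ‖ := by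
  refine lp.norm_le_of_tsum_le dsum_two (by positivity) ?_
  rw [Real.mul_rpow (norm_nonneg _) (norm_nonneg _), lp.norm_rpow_eq_tsum dsum_two ξ, ← tsum_mul_left]
  refine (dsum_sum η).tsum_le_tsum (fun ω => ?_) ((dsum_sum ξ).mul_left _)
  rw [h ω]
  exact dsum_pow ev a ω (ξ ω)

private noncomputable def dsumL (ev : Ω → A →⋆ₐ[ℂ] (H →L[ℂ] H)) (a : A) :
    lp (fun _ : Ω => H) 2 →ₗ[ℂ] lp (fun _ : Ω => H) 2 where
  toFun ξ := ⟨fun ω => ev ω a (ξ ω), dsum_mem ev a ξ⟩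
  map_add' ξ η := by
    apply lp.ext
    funext ω
    show ev ω a ((ξ + η : lp (fun _ : Ω => H) 2) ω) = ev ω a (ξ ω) + ev ω a (η ω)
    rw [lp.coeFn_add, Pi.add_apply, map_add]
  map_smul' c ξ := by
    apply lp.ext
    funext ω
    show ev ω a ((c • ξ : lp (fun _ : Ω => H) 2) ω) = c • ev ω a (ξ ω)
    rw [lp.coeFn_smul, Pi.smul_apply, map_smul]

private noncomputable def dsumC (ev : Ω → A →⋆ₐ[ℂ] (H →L[ℂ] H)) (a : A) :
    lp (fun _ : Ω => H) 2 →L[ℂ] lp (fun _ : Ω => H) 2 :=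
  LinearMap.mkContinuous (dsumL ev a) ‖a‖ (fun ξ => dsum_norm ev a ξ _ (fun _ => rfl))

private theorem dsumC_apply (ev : Ω → A →⋆ₐ[ℂ] (H →L[ℂ] H)) (a : A) (ξ : lp (fun _ : Ω => H) 2) (ω : Ω) :
    (dsumC ev a ξ : Ω → H) ω = ev ω a (ξ ω) := rfl

private theorem dsum_ext {S T : lp (fun _ : Ω => H) 2 →L[ℂ] lp (fun _ : Ω => H) 2}
    (h : ∀ (ξ : lp (fun _ : Ω => H) 2) ω, (S ξ : Ω → H) ω = (T ξ : Ω → H) ω) : S = T := by
  ext1 ξ
  apply lp.ext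
  funext ω
  exact h ξ ω

theorem exists_dsum {A Ω H : Type} [CStarAlgebra A] [NormedAddCommGroup H] [InnerProductSpace ℂ H]
    [CompleteSpace H] (ev : Ω → A →⋆ₐ[ℂ] (H →L[ℂ] H)) :
    ∃ D : A →⋆ₐ[ℂ] (lp (fun _ : Ω => H) 2 →L[ℂ] lp (fun _ : Ω => H) 2),
      ∀ a (ξ : lp (fun _ : Ω => H) 2) ω, (D a ξ : Ω → H) ω = ev ω a (ξ ω) := by
  refine ⟨{ toFun := dsumC ev, map_one' := ?_, map_mul' := ?_, map_zero' := ?_, map_add' := ?_,
            commutes' := ?_, map_star' := ?_ }, fun a ξ ω => rfl⟩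
  · refine dsum_ext fun ξ ω => ?_
    rw [dsumC_apply, map_one]
    rfl
  · intro a b
    refine dsum_ext fun ξ ω => ?_
    rw [dsumC_apply, map_mul]
    rfl
  · refine dsum_ext fun ξ ω => ?_
    show ev ω 0 (ξ ω) = _
    rw [map_zero]
    rfl
  · intro a b
    refine dsum_ext fun ξ ω => ?_
    show ev ω (a + b) (ξ ω) = _
    rw [map_add]
    rfl
  · intro r
    refine dsum_ext fun ξ ω => ?_
    show ev ω (algebraMap ℂ A r) (ξ ω) = _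
    rw [AlgHomClass.commutes]
    rfl
  · intro a
    show dsumC ev (star a) = star (dsumC ev a)
    rw [ContinuousLinearMap.star_eq_adjoint, ContinuousLinearMap.eq_adjoint_iff]
    intro ξ η
    rw [lp.inner_eq_tsum, lp.inner_eq_tsum]
    refine tsum_congr fun ω => ?_
    rw [dsumC_apply, dsumC_apply, map_star, ContinuousLinearMap.star_eq_adjoint,
      ContinuousLinearMap.adjoint_inner_left]

end Pool.Agent.B9x.A
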