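import Mathlib
import Pool.Agent.Lib.MP_b9c6dd_an.Basic

/-!
# From a tower of C*-algebras to a crossed product without stable rank one: definitions

Balanced ternary tilings of the integers, the structure `Tower` (the input of the construction), its limit
representations `Rep`, the algebra `A0` of coherent sequences and its closure.
-/

set_option autoImplicit false

open scoped BoundedContinuousFunction InnerProductSpace

namespace Pool.Agent.B9x.A

/-- Nearest integer to `x / 3`. -/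
def tdiv (x : ℤ) : ℤ := (x + 1) / 3

/-- Balanced ternary digit: `0, 1, 2` stand for `-1, 0, 1`. -/
def dig (x : ℤ) : Fin 3 := ⟨((x + 1) % 3).toNat, by omega⟩

/-- `t i j` : the number of the level `i` tile which contains `j`. -/
def t : ℕ → ℤ → ℤ
  | 0, j => j
  | i + 1, j => tdiv (t i j)

/-- Digit number `i` of the coordinate `j`. -/
def dgt (i : ℕ) (j : ℤ) : Fin 3 := dig (t i j)

/-- Position of `j` relative to the centre of its level `i` tile. -/
def rho (i : ℕ) (j : ℤ) : ℤ := j - 3 ^ i * t i j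

/-- The coordinates `j` such that `[j - w, j + w]` is in one tile of level `i`. -/
def UU (i : ℕ) (w : ℤ) : Set ℤ := {j | t i (j - w) = t i (j + w)}

/-- Words of digits of length `m`. -/
def Tl : ℕ → Type
  | 0 => Unit
  | m + 1 => Fin 3 × Tl m

instance instFintypeTl : ∀ m, Fintype (Tl m)
  | 0 => inferInstanceAs (Fintype Unit)
  | m + 1 => by
    letI := instFintypeTl m
    exact inferInstanceAs (Fintype (Fin 3 × Tl m))

instance instDecidableEqTl : ∀ m, DecidableEq (Tl m)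
  | 0 => inferInstanceAs (DecidableEq Unit)
  | m + 1 => by
    letI := instDecidableEqTl m
    exact inferInstanceAs (DecidableEq (Fin 3 × Tl m))

/-- The word of the first `m` digits of `j`. -/
def wd : ∀ (m : ℕ), ℤ → Tl m
  | 0, _ => ()
  | m + 1, j => (dgt m j, wd m j)

/-- The images of `y` along the words. -/
def yyf {D : ℕ → Type} [∀ i, CStarAlgebra (D i)] (io : ∀ i, Fin 3 → D i →⋆ₐ[ℂ] D (i + 1)) (y : D 0) :
    ∀ (m : ℕ), Tl m → D m
  | 0, _ => y
  | m + 1, τ => io m τ.1 (yyf io y m τ.2)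

/-- The input of the construction. -/
structure Tower where
  D : ℕ → Type
  [cs : ∀ i, CStarAlgebra (D i)]
  [nt : ∀ i, Nontrivial (D i)]
  io : ∀ i, Fin 3 → D i →⋆ₐ[ℂ] D (i + 1)
  io_inj : ∀ i b, Function.Injective (io i b)
  V : ∀ i, Submodule ℂ (D i)
  one_mem : ∀ i, (1 : D i) ∈ V i
  star_mem : ∀ i, ∀ F ∈ V i, star F ∈ V i
  io_mem : ∀ i b, ∀ F ∈ V i, io i b F ∈ V (i + 1)
  mul_mem : ∀ i b, ∀ F ∈ V i, ∀ G ∈ V i, io i b (F * G) ∈ V (i + 1)
  T2 : ∀ i, ∀ F ∈ V i, ‖F‖ ≤ 1 → ∀ b, ∀ η : ℝ, 0 < η → ∃ g ∈ V (i + 1), ∃ h : D (i + 1),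
    g * h = 1 ∧ h * g = 1 ∧ ‖h‖ ≤ 1 / η ∧ ‖io i b F - g‖ ≤ 1 / ((i : ℝ) + 1) + η
  T3 : ∀ i, ∀ F ∈ V i, ‖F‖ = 1 → ∃ (n : ℕ) (R : Fin n → D (i + 1)) (κ : ℝ), (∀ q, R q ∈ V (i + 1)) ∧
    1 / 4 ≤ κ ∧ ∑ q, star (R q) * R q = 1 ∧
    ∑ q, star (R q) * io i 1 (star F * F) * R q = (κ : ℂ) • (1 : D (i + 1))
  y : D 0
  y_mem : y ∈ V 0
  y_sa : star y = y
  y_idem : y * y = y
  y_ne : y ≠ 0
  T4 : ∀ (m : ℕ) (A B : Tl m → D m), 1 ≤ ‖∑ τ, A τ * yyf io y m τ * B τ - 1‖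
  H : ℕ → Type
  [nH : ∀ i, NormedAddCommGroup (H i)]
  [iH : ∀ i, InnerProductSpace ℂ (H i)]
  [cH : ∀ i, CompleteSpace (H i)]
  rep : ∀ i, D i →⋆ₐ[ℂ] (H i →L[ℂ] H i)
  rep_inj : ∀ i, Function.Injective (rep i)

attribute [instance] Tower.cs Tower.nt Tower.nH Tower.iH Tower.cH

/-- A limit representation of a tower. -/
structure Rep (T : Tower) where
  HH : Type
  [n : NormedAddCommGroup HH]
  [i : InnerProductSpace ℂ HH]
  [c : CompleteSpace HH]
  J : ∀ i, ℤ → T.D i →⋆ₐ[ℂ] (HH →L[ℂ] HH)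
  J_inj : ∀ i j, Function.Injective (J i j)
  J1 : ∀ i j d, J i j d = J (i + 1) j (T.io i (dgt i j) d)
  J2 : ∀ i j j', t i j = t i j' → J i j = J i j'

attribute [instance] Rep.n Rep.i Rep.c

variable {T : Tower} (R : Rep T)

/-- Bounded sequences. -/
abbrev Rep.S : Type := ℤ →ᵇ (R.HH →L[ℂ] R.HH)

/-- `F` codes `c` at `j` on level `m`. -/
def Code (m : ℕ) (c : R.S) (j : ℤ) (F : T.D m) : Prop :=
  ∀ j', rho m j' = rho m j → c j' = R.J m j' F

/-- Coherent sequences. -/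
def Coh (i0 w d : ℕ) : Set R.S :=
  {c | ∀ i ≥ i0, ∀ j ∈ UU i w, ∃ F ∈ T.V (i + d), Code R (i + d) c j F}

end Pool.Agent.B9x.A
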