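import Pool.Agent.Lib.MP_b9c6dd_an.X.A.ApproxInv

/-!
# Job A4 (DenseInv): the invertible elements of `AT R` are dense

`isUnit_AT`: an element of `AT R` which is a unit in `R.S` is a unit in `AT R` (closed star subalgebras are inverse closed: Mathlib
`StarSubalgebra.isUnit_coe_inv_mem` or similar, in `Mathlib/Analysis/CStarAlgebra/Spectrum.lean` or
`Mathlib/Analysis/CStarAlgebra/ContinuousFunctionalCalculus`).
`dense_inv`: `A0 R` is dense in `AT R`; for `c ∈ A0 R`, `c ≠ 0`, apply `approx_inv_one` to `(‖c‖⁻¹ : ℂ) • c` (which is in the same `Coh`, a subset closed under scalars: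
`coh_mul` with `coh_algebraMap`, or `A0 R` is a subalgebra) and multiply by `‖c‖`; for `c = 0` use small multiples of `1`.
-/

set_option autoImplicit false

open scoped BoundedContinuousFunction InnerProductSpace

namespace Pool.Agent.B9x.A

variable {T : Tower} (R : Rep T)

theorem isUnit_AT (c : AT R) (h : IsUnit (c : R.S)) : IsUnit c := by
  have hcl : IsClosed (((A0 R).topologicalClosure : StarSubalgebra ℂ R.S) : Set R.S) :=
    (A0 R).isClosed_topologicalClosure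
  exact (StarSubalgebra.coe_isUnit (S := (A0 R).topologicalClosure) (hS := hcl)).1 h

theorem dense_inv : Dense {x : AT R | IsUnit x} := by
  rw [Metric.dense_iff]
  intro x r hr
  -- an element of the dense subalgebra
  have hx : (x : R.S) ∈ closure {c | c ∈ A0 R} := mem_AT_iff R |>.1 x.2
  obtain ⟨c, hc, hcx⟩ := Metric.mem_closure_iff.1 hx (r / 2) (by positivity)
  obtain ⟨i0, w, d, hcoh⟩ := hc
  obtain ⟨K, hK⟩ : ∃ K : ℝ, K = ‖c‖ + 1 := ⟨_, rfl⟩
  have hK0 : 0 < K := by rw [hK]; positivity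
  have hc' : (algebraMap ℂ R.S (((K⁻¹ : ℝ) : ℂ))) * c ∈ Coh R i0 w (d + 1) :=
    coh_mul (coh_mono (Nat.zero_le _) (Nat.zero_le _) (Nat.zero_le _) (coh_algebraMap _)) hcoh
  have hsm : (algebraMap ℂ R.S (((K⁻¹ : ℝ) : ℂ))) * c = (((K⁻¹ : ℝ) : ℂ)) • c := by
    exact (Algebra.smul_def (((K⁻¹ : ℝ) : ℂ)) c).symm
  rw [hsm] at hc'
  have hn : ‖(((K⁻¹ : ℝ) : ℂ)) • c‖ ≤ 1 := by
    rw [norm_smul, Complex.norm_real, Real.norm_of_nonneg (by positivity), inv_mul_le_iff₀ hK0, hK]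
    linarith
  obtain ⟨G, G', hG, h1, h2, h3⟩ := approx_inv_one _ hc' hn (r / (8 * K)) (by positivity)
  have hK1 : ((K : ℝ) : ℂ) ≠ 0 := by exact_mod_cast hK0.ne'
  have hmem : ((K : ℝ) : ℂ) • G ∈ (A0 R).topologicalClosure :=
    (A0 R).le_topologicalClosure ((A0 R).smul_mem hG _)
  refine ⟨⟨((K : ℝ) : ℂ) • G, hmem⟩, ?_, ?_⟩
  · rw [Metric.mem_ball, dist_comm, Subtype.dist_eq]
    have h4 : dist c (((K : ℝ) : ℂ) • G) ≤ r / 4 := by
      have h5 : c - ((K : ℝ) : ℂ) • G = ((K : ℝ) : ℂ) • ((((K⁻¹ : ℝ) : ℂ)) • c - G) := by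
        rw [smul_sub, smul_smul]
        congr 1
        rw [Complex.ofReal_inv, mul_inv_cancel₀ hK1, one_smul]
      rw [dist_eq_norm, h5, norm_smul, Complex.norm_real, Real.norm_of_nonneg hK0.le]
      calc K * ‖(((K⁻¹ : ℝ) : ℂ)) • c - G‖ ≤ K * (2 * (r / (8 * K))) := by gcongr
        _ = r / 4 := by field_simp; ring
    calc dist (x : R.S) (((K : ℝ) : ℂ) • G) ≤ dist (x : R.S) c + dist c (((K : ℝ) : ℂ) • G) := dist_triangle _ _ _
      _ < r := by linarith
  · apply isUnit_AT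
    refine ⟨⟨((K : ℝ) : ℂ) • G, (((K : ℝ) : ℂ))⁻¹ • G', ?_, ?_⟩, rfl⟩
    · rw [smul_mul_smul_comm, mul_inv_cancel₀ hK1, one_smul, h1]
    · rw [smul_mul_smul_comm, inv_mul_cancel₀ hK1, one_smul, h2]

end Pool.Agent.B9x.A
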