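import Pool.Agent.Lib.MP_b9c6dd_an.X.A.TilesA

/-!
# Job Tiles: balanced ternary tilings, interiors of tiles

From `TilesA`. `UU_rho`: with `rho_iff`, `j' = j + 3^m k`, so `j' ± w = (j ± w) + 3^m k` and `t i (j' ± w) = t i (j ± w) + 3^(m-i) k` (`t_add`). `t (i+1)` is a function of `t i`. Monotonicity of `t i`:
if `t i (j - w) = t i (j + w)` then `t i` is constant on `[j - w, j + w]`. `exists_UU`: `t_zero` for `3^i > 2 (|j| + w)`.
`rho_add_of_t`: definition of `rho`. `center`: `x' = 3^(m+1) t (m+1) x + rho m j0`; `t m (rho m j0) = 0` (`t_zero`, `rho_abs`), `t_add`.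
-/

set_option autoImplicit false

namespace Pool.Agent.B9x.A

private theorem tiles_lift {i m : ℕ} {a b : ℤ} (h : t i a = t i b) (hm : i ≤ m) : t m a = t m b := by
  induction m, hm using Nat.le_induction with
  | base => exact h
  | succ m _ ih => exact congrArg tdiv ih

private theorem tiles_const {i m : ℕ} {w j x : ℤ} (hj : j ∈ UU i w) (hm : i ≤ m) (hx : |x| ≤ w) :
    t m (j + x) = t m (j - w) := by
  refine tiles_lift ?_ hm
  have h1 : t i (j - w) = t i (j + w) := hj
  have h2 := t_mono i (show j - w ≤ j + x by linarith [(abs_le.1 hx).1])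
  have h3 := t_mono i (show j + x ≤ j + w by linarith [(abs_le.1 hx).2])
  omega

/-- membership in `UU` depends on the position only -/
theorem UU_rho (m i : ℕ) (w j j' : ℤ) (hi : i ≤ m) (h : rho m j' = rho m j) :
    j' ∈ UU i w ↔ j ∈ UU i w := by
  obtain ⟨k, hk⟩ := (rho_iff i j j').1 (rho_desc m i j j' hi h)
  show t i (j' - w) = t i (j' + w) ↔ t i (j - w) = t i (j + w)
  rw [hk, show j + 3 ^ i * k - w = (j - w) + 3 ^ i * k by ring,
    show j + 3 ^ i * k + w = (j + w) + 3 ^ i * k by ring, t_add, t_add]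
  exact add_left_inj k

theorem UU_succ (i : ℕ) (w : ℤ) : UU i w ⊆ UU (i + 1) w := by
  intro j hj
  exact congrArg tdiv hj

theorem UU_le (i i' : ℕ) (w w' : ℤ) (hi : i ≤ i') (h0 : 0 ≤ w') (hw : w' ≤ w) :
    UU i w ⊆ UU i' w' := by
  intro j hj
  have h1 := tiles_const (x := -w') hj hi (by rw [abs_neg, abs_of_nonneg h0]; exact hw)
  have h2 := tiles_const (x := w') hj hi (by rw [abs_of_nonneg h0]; exact hw)
  show t i' (j - w') = t i' (j + w')
  rw [h2, ← h1, sub_eq_add_neg]

theorem exists_UU (j w : ℤ) (hw : 0 ≤ w) : ∃ i0 : ℕ, ∀ i, i0 ≤ i → j ∈ UU i w := by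
  refine ⟨(2 * (|j| + w)).toNat, fun i hi => ?_⟩
  have h1 : (i : ℤ) < 3 ^ i := by exact_mod_cast Nat.lt_pow_self (by norm_num : 1 < 3)
  have h2 : 2 * (|j| + w) ≤ i := by
    have : (2 * (|j| + w)) ≤ ((2 * (|j| + w)).toNat : ℤ) := Int.self_le_toNat _
    exact this.trans (by exact_mod_cast hi)
  have h3 : |j - w| ≤ |j| + w := by
    have := abs_sub j w
    rwa [abs_of_nonneg hw] at this
  have h4 : |j + w| ≤ |j| + w := by
    have := abs_add_le j w
    rwa [abs_of_nonneg hw] at this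
  show t i (j - w) = t i (j + w)
  rw [t_zero i _ (by linarith), t_zero i _ (by linarith)]

/-- in `UU i w` all `t m` with `m ≥ i` are constant on `[j - w, j + w]` -/
theorem UU_t (i m : ℕ) (w j x : ℤ) (hj : j ∈ UU i w) (hm : i ≤ m) (hx : |x| ≤ w) :
    t m (j + x) = t m j := by
  have h0 : (0 : ℤ) ≤ w := (abs_nonneg x).trans hx
  rw [tiles_const hj hm hx]
  have := tiles_const (x := 0) hj hm (by rw [abs_zero]; exact h0)
  rw [add_zero] at this
  exact this.symm

theorem UU_sub (i : ℕ) (w j x : ℤ) (hj : j ∈ UU i (w + 1)) (hw : 0 ≤ w) (hx : |x| ≤ 1) :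
    j + x ∈ UU i w := by
  have hx' := abs_le.1 hx
  have h1 := tiles_const (x := x - w) hj le_rfl (by rw [abs_le]; constructor <;> linarith [hx'.1, hx'.2])
  have h2 := tiles_const (x := x + w) hj le_rfl (by rw [abs_le]; constructor <;> linarith [hx'.1, hx'.2])
  show t i (j + x - w) = t i (j + x + w)
  rw [show j + x - w = j + (x - w) by ring, show j + x + w = j + (x + w) by ring, h1, h2]

theorem rho_add_of_t (m : ℕ) (j x : ℤ) (h : t m (j + x) = t m j) : rho m (j + x) = rho m j + x := by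
  unfold rho
  rw [h]
  ring

/-- moving to the centre subtile -/
theorem center (m : ℕ) (x j0 : ℤ) : ∀ x', x' = x - (rho (m + 1) x - rho m j0) →
    t m x' = 3 * t (m + 1) x ∧ dgt m x' = 1 ∧ rho m x' = rho m j0 ∧ t (m + 1) x' = t (m + 1) x := by
  intro x' hx'
  have h0 : x' = rho m j0 + 3 ^ m * (3 * t (m + 1) x) := by
    rw [hx']
    have : rho (m + 1) x = x - 3 ^ (m + 1) * t (m + 1) x := rfl
    rw [this, pow_succ]
    ring
  have h1 : t m (rho m j0) = 0 := t_zero m _ (by linarith [rho_abs m j0])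
  have h2 : t m x' = 3 * t (m + 1) x := by
    rw [h0, t_add, h1, zero_add]
  refine ⟨h2, ?_, ?_, ?_⟩
  · unfold dgt dig
    rw [h2]
    apply Fin.ext
    show ((3 * t (m + 1) x + 1) % 3).toNat = 1
    omega
  · have : rho m x' = x' - 3 ^ m * t m x' := rfl
    rw [this, h2, h0]
    ring
  · show tdiv (t m x') = _
    rw [h2]
    unfold tdiv
    omega

end Pool.Agent.B9x.A
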