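import Mathlib

/-!
# Job A14 (UltraH): ultraproducts of Hilbert spaces

Bounded sequences `lp H ∞` (`H : ℕ → Type` complex Hilbert spaces) with the semi inner product `⟪x, y⟫ = lim ⟪x k, y k⟫` along `Filter.hyperfilter ℕ`
(the limits exist: bounded sequences of complex numbers have a limit along an ultrafilter, `IsCompact.ultrafilter_le_nhds`). Use a type synonym,
`PreInnerProductSpace.Core`, `InnerProductSpace.Core.toSeminormedAddCommGroup`, `InnerProductSpace.ofCore` exactly as in
`Mathlib/Analysis/CStarAlgebra/GelfandNaimarkSegal.lean` (and, for the ultrafilter limits, as in `Pool/Agent/Lib/MP_b9c6dd_an/Ultra.lean`), and take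
`UniformSpace.Completion`.
-/

set_option autoImplicit false

open scoped InnerProductSpace ENNReal Topology
open Filter

namespace Pool.Agent.B9x.A

section UltraH

variable (H : ℕ → Type) [∀ k, NormedAddCommGroup (H k)] [∀ k, InnerProductSpace ℂ (H k)]

/-- bounded sequences, to be given the limit inner product -/
def UltraH_Pre : Type := lp H ∞

noncomputable instance : AddCommGroup (UltraH_Pre H) := inferInstanceAs (AddCommGroup (lp H ∞))
noncomputable instance : Module ℂ (UltraH_Pre H) := inferInstanceAs (Module ℂ (lp H ∞))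

/-- bounded sequences as elements of `UltraH_Pre` -/
noncomputable def UltraH_to : lp H ∞ ≃ₗ[ℂ] UltraH_Pre H := LinearEquiv.refl ℂ _

variable {H}

/-- the limit inner product -/
noncomputable def UltraH_val (x y : lp H ∞) : ℂ :=
  limUnder (hyperfilter ℕ : Filter ℕ) (fun k => ⟪x k, y k⟫_ℂ)

theorem UltraH_tendsto (x y : lp H ∞) :
    Tendsto (fun k => ⟪x k, y k⟫_ℂ) (hyperfilter ℕ : Filter ℕ) (𝓝 (UltraH_val x y)) := by
  apply tendsto_nhds_limUnder
  have h : Metric.closedBall (0 : ℂ) (‖x‖ * ‖y‖) ∈ ((hyperfilter ℕ).map (fun k => ⟪x k, y k⟫_ℂ)) := by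
    rw [Ultrafilter.mem_map]
    refine Filter.univ_mem' (f := (hyperfilter ℕ : Filter ℕ)) ?_
    intro k
    simp only [Set.mem_preimage, mem_closedBall_zero_iff]
    refine (norm_inner_le_norm (x k) (y k)).trans ?_
    exact mul_le_mul (lp.norm_apply_le_norm (by simp) x k) (lp.norm_apply_le_norm (by simp) y k)
      (norm_nonneg _) (norm_nonneg _)
  obtain ⟨z, -, hz⟩ := (isCompact_closedBall (0 : ℂ) (‖x‖ * ‖y‖)).ultrafilter_le_nhds' _ h
  exact ⟨z, hz⟩

variable (H)

/-- the core of the semi inner product -/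
noncomputable abbrev UltraH_core : PreInnerProductSpace.Core ℂ (UltraH_Pre H) where
  inner a b := UltraH_val ((UltraH_to H).symm a) ((UltraH_to H).symm b)
  conj_inner_symm a b := by
    refine tendsto_nhds_unique ((Complex.continuous_conj.tendsto _).comp (UltraH_tendsto _ _)) ?_
    refine (UltraH_tendsto ((UltraH_to H).symm a) ((UltraH_to H).symm b)).congr fun k => ?_
    simp only [Function.comp_apply]
    exact (inner_conj_symm _ _).symm
  re_inner_nonneg a := by
    refine ge_of_tendsto' ((Complex.continuous_re.tendsto _).comp (UltraH_tendsto _ _)) fun k => ?_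
    simp only [Function.comp_apply]
    exact inner_self_nonneg (𝕜 := ℂ) (x := ((UltraH_to H).symm a) k)
  add_left a b c := by
    refine tendsto_nhds_unique (UltraH_tendsto _ _) ?_
    refine ((UltraH_tendsto ((UltraH_to H).symm a) ((UltraH_to H).symm c)).add
      (UltraH_tendsto ((UltraH_to H).symm b) ((UltraH_to H).symm c))).congr fun k => ?_
    rw [map_add, lp.coeFn_add, Pi.add_apply, inner_add_left]
  smul_left a b r := by
    refine tendsto_nhds_unique (UltraH_tendsto _ _) ?_
    refine ((UltraH_tendsto ((UltraH_to H).symm a) ((UltraH_to H).symm b)).const_mul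
      ((starRingEnd ℂ) r)).congr fun k => ?_
    rw [map_smul, lp.coeFn_smul, Pi.smul_apply, inner_smul_left]

noncomputable instance : SeminormedAddCommGroup (UltraH_Pre H) :=
  InnerProductSpace.Core.toSeminormedAddCommGroup (c := UltraH_core H)
noncomputable instance : InnerProductSpace ℂ (UltraH_Pre H) :=
  InnerProductSpace.ofCore (UltraH_core H)

theorem UltraH_inner (x y : lp H ∞) :
    ⟪UltraH_to H x, UltraH_to H y⟫_ℂ = UltraH_val x y := rfl

end UltraH

theorem exists_ultraH (H : ℕ → Type) [∀ k, NormedAddCommGroup (H k)]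
    [∀ k, InnerProductSpace ℂ (H k)] :
    ∃ (HH : Type) (_ : NormedAddCommGroup HH) (_ : InnerProductSpace ℂ HH) (_ : CompleteSpace HH)
      (mk : lp H ∞ →ₗ[ℂ] HH), DenseRange mk ∧
      ∀ x y : lp H ∞, Tendsto (fun k => ⟪x k, y k⟫_ℂ) (hyperfilter ℕ : Filter ℕ) (𝓝 ⟪mk x, mk y⟫_ℂ) := by
  refine ⟨UniformSpace.Completion (UltraH_Pre H), inferInstance, inferInstance, inferInstance,
    (UniformSpace.Completion.toComplₗᵢ (𝕜 := ℂ) (E := UltraH_Pre H)).toLinearMap ∘ₗ
      (UltraH_to H).toLinearMap, ?_, ?_⟩
  · exact UniformSpace.Completion.denseRange_coe.comp (UltraH_to H).surjective.denseRange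
      (UniformSpace.Completion.continuous_coe _)
  · intro x y
    have h : ⟪((UniformSpace.Completion.toComplₗᵢ (𝕜 := ℂ) (E := UltraH_Pre H)).toLinearMap ∘ₗ
        (UltraH_to H).toLinearMap) x, ((UniformSpace.Completion.toComplₗᵢ (𝕜 := ℂ)
        (E := UltraH_Pre H)).toLinearMap ∘ₗ (UltraH_to H).toLinearMap) y⟫_ℂ = UltraH_val x y := by
      have h1 := UniformSpace.Completion.inner_coe (𝕜 := ℂ) (UltraH_to H x) (UltraH_to H y)
      rw [UltraH_inner] at h1
      exact h1
    rw [h]
    exact UltraH_tendsto x y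

end Pool.Agent.B9x.A
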