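import Mathlib

/-!
# Job A15 (UltraRep): ultraproducts of representations

`HH`, `mk` as in `exists_ultraH`. `rho k : D →⋆ₙₐ[ℂ] (H k →L[ℂ] H k)` for each `k`, eventually unital. For `d : D` and `x : lp H ∞` let `T_d x = (rho k d (x k))_k` (bounded since
`‖rho k d‖ ≤ ‖d‖`). `‖mk (T_d x)‖ ≤ ‖d‖ ‖mk x‖` (the norm of `mk x` is the limit of `‖x k‖`). So there is a unique continuous linear map `ρ d` on `HH` with
`ρ d (mk x) = mk (T_d x)` (extension by density: `LinearMap.extend`-like: e.g. `ContinuousLinearMap.extend`, or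
`LinearMap.extendOfNorm`; `mk` factors through its range; an alternative is `DenseInducing` after quotienting by the kernel). Algebraic identities on the dense range. Adjoint:
`⟪ρ d (mk x), mk y⟫ = lim ⟪rho k d (x k), y k⟫ = lim ⟪x k, rho k (star d) (y k)⟫`.
-/

set_option autoImplicit false

open scoped InnerProductSpace ENNReal Topology
open Filter

namespace Pool.Agent.B9x.A

section UltraRep

variable {H : ℕ → Type} [∀ k, NormedAddCommGroup (H k)] [∀ k, InnerProductSpace ℂ (H k)]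
  [∀ k, CompleteSpace (H k)] {D : Type} [CStarAlgebra D] (ρ : ∀ k, D →⋆ₙₐ[ℂ] (H k →L[ℂ] H k))

theorem UltraRep_le (k : ℕ) (d : D) (v : H k) : ‖ρ k d v‖ ≤ ‖d‖ * ‖v‖ :=
  ((ρ k d).le_opNorm v).trans
    (mul_le_mul_of_nonneg_right (NonUnitalStarAlgHom.norm_apply_le (ρ k) d) (norm_nonneg _))

/-- the coordinatewise operator -/
noncomputable def UltraRep_T (d : D) : lp H ∞ →ₗ[ℂ] lp H ∞ where
  toFun x := ⟨fun k => ρ k d (x k), by
    refine memℓp_infty ⟨‖d‖ * ‖x‖, ?_⟩
    rintro _ ⟨k, rfl⟩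
    exact (UltraRep_le ρ k d (x k)).trans
      (mul_le_mul_of_nonneg_left (lp.norm_apply_le_norm (by simp) x k) (norm_nonneg _))⟩
  map_add' x y := by
    ext k
    simp [lp.coeFn_add]
  map_smul' c x := by
    ext k
    simp [lp.coeFn_smul]

theorem UltraRep_T_apply (d : D) (x : lp H ∞) (k : ℕ) : (UltraRep_T ρ d x) k = ρ k d (x k) := rfl

variable {HH : Type} [NormedAddCommGroup HH] [InnerProductSpace ℂ HH] [CompleteSpace HH]
    {mk : lp H ∞ →ₗ[ℂ] HH}

theorem UltraRep_norm (hi : ∀ x y : lp H ∞, Tendsto (fun k => ⟪x k, y k⟫_ℂ) (hyperfilter ℕ : Filter ℕ)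
      (𝓝 ⟪mk x, mk y⟫_ℂ)) (x : lp H ∞) :
    Tendsto (fun k => ‖x k‖ ^ 2) (hyperfilter ℕ : Filter ℕ) (𝓝 (‖mk x‖ ^ 2)) := by
  have h := (Complex.continuous_re.tendsto _).comp (hi x x)
  have h1 : (Complex.re ⟪mk x, mk x⟫_ℂ) = ‖mk x‖ ^ 2 := by
    rw [inner_self_eq_norm_sq_to_K]
    norm_cast
  rw [h1] at h
  refine h.congr fun k => ?_
  simp only [Function.comp_apply]
  rw [inner_self_eq_norm_sq_to_K]
  norm_cast

theorem UltraRep_bound (hi : ∀ x y : lp H ∞, Tendsto (fun k => ⟪x k, y k⟫_ℂ) (hyperfilter ℕ : Filter ℕ)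
      (𝓝 ⟪mk x, mk y⟫_ℂ)) (d : D) (x : lp H ∞) : ‖mk (UltraRep_T ρ d x)‖ ≤ ‖d‖ * ‖mk x‖ := by
  refine le_of_sq_le_sq ?_ (by positivity)
  rw [mul_pow]
  refine le_of_tendsto_of_tendsto (UltraRep_norm hi _) ((UltraRep_norm hi x).const_mul (‖d‖ ^ 2)) ?_
  refine Eventually.of_forall fun k => ?_
  simp only
  rw [UltraRep_T_apply, ← mul_pow]
  exact pow_le_pow_left₀ (norm_nonneg _) (UltraRep_le ρ k d (x k)) 2

end UltraRep

theorem exists_ultraRep {H : ℕ → Type} [∀ k, NormedAddCommGroup (H k)]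
    [∀ k, InnerProductSpace ℂ (H k)] [∀ k, CompleteSpace (H k)]
    {HH : Type} [NormedAddCommGroup HH] [InnerProductSpace ℂ HH] [CompleteSpace HH]
    (mk : lp H ∞ →ₗ[ℂ] HH) (hd : DenseRange mk)
    (hi : ∀ x y : lp H ∞, Tendsto (fun k => ⟪x k, y k⟫_ℂ) (hyperfilter ℕ : Filter ℕ)
      (𝓝 ⟪mk x, mk y⟫_ℂ))
    {D : Type} [CStarAlgebra D] (ρ : ∀ k, D →⋆ₙₐ[ℂ] (H k →L[ℂ] H k))
    (h1 : ∀ᶠ k in (hyperfilter ℕ : Filter ℕ), ρ k 1 = 1) :
    ∃ π : D →⋆ₐ[ℂ] (HH →L[ℂ] HH), ∀ (d : D) (x y : lp H ∞),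
      Tendsto (fun k => ⟪ρ k d (x k), y k⟫_ℂ) (hyperfilter ℕ : Filter ℕ) (𝓝 ⟪π d (mk x), mk y⟫_ℂ) := by
  -- the operators
  let P : D → (HH →L[ℂ] HH) := fun d => (mk ∘ₗ UltraRep_T ρ d).extendOfNorm mk
  have hP : ∀ d x, P d (mk x) = mk (UltraRep_T ρ d x) := fun d x =>
    LinearMap.extendOfNorm_eq hd ⟨‖d‖, fun y => UltraRep_bound ρ hi d y⟩ x
  have hext : ∀ A B : HH →L[ℂ] HH, (∀ x, A (mk x) = B (mk x)) → A = B := by
    intro A B h
    refine ContinuousLinearMap.ext fun v => ?_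
    have := hd.equalizer A.continuous B.continuous (funext h)
    exact congrFun this v
  -- an operator of norm zero on the range
  have hlim : ∀ (d : D) (x y : lp H ∞),
      Tendsto (fun k => ⟪ρ k d (x k), y k⟫_ℂ) (hyperfilter ℕ : Filter ℕ) (𝓝 ⟪P d (mk x), mk y⟫_ℂ) := by
    intro d x y
    rw [hP]
    exact hi (UltraRep_T ρ d x) y
  have hadd : ∀ a b, P (a + b) = P a + P b := by
    intro a b
    refine hext _ _ fun x => ?_
    rw [add_apply, hP, hP, hP, ← map_add]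
    congr 1
    ext k
    simp [UltraRep_T_apply, lp.coeFn_add]
  have hsmul : ∀ (c : ℂ) a, P (c • a) = c • P a := by
    intro c a
    refine hext _ _ fun x => ?_
    rw [smul_apply, hP, hP, ← map_smul]
    congr 1
    ext k
    simp [UltraRep_T_apply, lp.coeFn_smul]
  have hmul : ∀ a b, P (a * b) = P a * P b := by
    intro a b
    refine hext _ _ fun x => ?_
    rw [mul_apply_eq_comp, hP, hP, hP]
    congr 1
    ext k
    simp [UltraRep_T_apply]
  have hone : P 1 = 1 := by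
    refine hext _ _ fun x => ?_
    rw [one_apply_eq_self, hP, ← sub_eq_zero, ← map_sub]
    have h2 := UltraRep_norm hi (UltraRep_T ρ 1 x - x)
    have h3 : Tendsto (fun k => ‖(UltraRep_T ρ 1 x - x) k‖ ^ 2) (hyperfilter ℕ : Filter ℕ) (𝓝 0) := by
      refine tendsto_const_nhds.congr' ?_
      filter_upwards [h1] with k hk
      have h4 : (UltraRep_T ρ 1 x - x) k = ρ k 1 (x k) - x k := rfl
      rw [h4, hk]
      simp
    have h5 := tendsto_nhds_unique h2 h3
    exact norm_eq_zero.1 (pow_eq_zero_iff (two_ne_zero)|>.1 h5)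
  have hstar : ∀ a, P (star a) = star (P a) := by
    intro a
    refine hext _ _ fun x => ?_
    refine hd.eq_of_inner_left (𝕜 := ℂ) ?_
    intro y
    rw [ContinuousLinearMap.star_eq_adjoint, ContinuousLinearMap.adjoint_inner_left]
    refine tendsto_nhds_unique (hlim (star a) x y) ?_
    rw [hP]
    refine (hi x (UltraRep_T ρ a y)).congr fun k => ?_
    rw [UltraRep_T_apply, map_star, ContinuousLinearMap.star_eq_adjoint,
      ContinuousLinearMap.adjoint_inner_left]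
  have hzero : P 0 = 0 := by
    have := hsmul 0 0
    rwa [zero_smul, zero_smul] at this
  exact ⟨{ toFun := P
           map_one' := hone
           map_mul' := hmul
           map_zero' := hzero
           map_add' := hadd
           commutes' := fun c => by
             rw [Algebra.algebraMap_eq_smul_one, hsmul, hone, Algebra.algebraMap_eq_smul_one]
           map_star' := hstar }, hlim⟩

end Pool.Agent.B9x.A
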