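import Mathlib

/-!
# Job UltraUniq: uniqueness and vanishing for ultraproduct representations

`ultraRep_unique`: `⟪A (mk x), mk y⟫ = ⟪A' (mk x), mk y⟫` by uniqueness of limits (the two sequences agree eventually along the hyperfilter), and `mk` has dense range, `A`, `A'` continuous.
`ultraRep_zero`: for each `k` choose `x k : H k` with `‖x k‖ ≤ 1` and `‖S k (x k)‖ ≥ ‖S k‖ / 2` (possible: definition of the operator norm; if `S k = 0` take `0`), `y k = S k (x k)`, `‖y k‖ ≤ C`. Both are in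
`lp H ∞`. `⟪S k (x k), y k⟫ = ‖S k (x k)‖² → 0`, so `‖S k‖ ≤ 2 ‖S k (x k)‖ → 0`.
-/

set_option autoImplicit false

open scoped InnerProductSpace ENNReal Topology
open Filter

namespace Pool.Agent.B9x.A

/-- The representation is determined by the sequence (up to finitely many terms). -/
theorem ultraRep_unique {H : ℕ → Type} [∀ k, NormedAddCommGroup (H k)]
    [∀ k, InnerProductSpace ℂ (H k)] [∀ k, CompleteSpace (H k)]
    {HH : Type} [NormedAddCommGroup HH] [InnerProductSpace ℂ HH] [CompleteSpace HH]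
    (mk : lp H ∞ →ₗ[ℂ] HH) (hd : DenseRange mk)
    (A A' : HH →L[ℂ] HH) (S S' : ∀ k, H k →L[ℂ] H k)
    (hA : ∀ x y : lp H ∞,
      Tendsto (fun k => ⟪S k (x k), y k⟫_ℂ) (hyperfilter ℕ : Filter ℕ) (𝓝 ⟪A (mk x), mk y⟫_ℂ))
    (hA' : ∀ x y : lp H ∞,
      Tendsto (fun k => ⟪S' k (x k), y k⟫_ℂ) (hyperfilter ℕ : Filter ℕ) (𝓝 ⟪A' (mk x), mk y⟫_ℂ))
    (hS : ∀ᶠ k in (hyperfilter ℕ : Filter ℕ), S k = S' k) : A = A' := by
  have h1 : ∀ x y : lp H ∞, ⟪A (mk x), mk y⟫_ℂ = ⟪A' (mk x), mk y⟫_ℂ := by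
    intro x y
    refine tendsto_nhds_unique (hA x y) ((hA' x y).congr' ?_)
    filter_upwards [hS] with k hk
    rw [hk]
  have h2 : ∀ x : lp H ∞, A (mk x) = A' (mk x) := by
    intro x
    have h3 : (fun v : HH => ⟪A (mk x), v⟫_ℂ) = fun v : HH => ⟪A' (mk x), v⟫_ℂ := by
      refine hd.equalizer (by fun_prop) (by fun_prop) ?_
      funext y
      exact h1 x y
    exact ext_inner_right ℂ fun v => congrFun h3 v
  have h4 : (A : HH → HH) = A' := by
    refine hd.equalizer A.continuous A'.continuous ?_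
    funext x
    exact h2 x
  exact DFunLike.coe_injective h4

/-- If the limit is zero then the norms tend to zero. -/
theorem ultraRep_zero {H : ℕ → Type} [∀ k, NormedAddCommGroup (H k)]
    [∀ k, InnerProductSpace ℂ (H k)] [∀ k, CompleteSpace (H k)]
    (S : ∀ k, H k →L[ℂ] H k) (C : ℝ) (hC : ∀ k, ‖S k‖ ≤ C)
    (h0 : ∀ x y : lp H ∞,
      Tendsto (fun k => ⟪S k (x k), y k⟫_ℂ) (hyperfilter ℕ : Filter ℕ) (𝓝 0)) :
    Tendsto (fun k => ‖S k‖) (hyperfilter ℕ : Filter ℕ) (𝓝 0) := by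
  have hex : ∀ k, ∃ x : H k, ‖x‖ ≤ 1 ∧ ‖S k‖ ≤ 2 * ‖S k x‖ := by
    intro k
    by_contra hcon
    push Not at hcon
    have h5 : ‖S k‖ ≤ ‖S k‖ / 2 := by
      refine ContinuousLinearMap.opNorm_le_of_unit_norm (by positivity) fun v hv => ?_
      have h15 := hcon v hv.le
      linarith
    have h6 : 0 < ‖S k‖ := by
      have h7 := hcon 0 (by simp)
      simpa using h7
    linarith
  choose x hx1 hx2 using hex
  have hxm : Memℓp x ∞ := memℓp_infty ⟨1, by rintro _ ⟨k, rfl⟩; exact hx1 k⟩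
  have hC0 : 0 ≤ C := le_trans (norm_nonneg _) (hC 0)
  have hyb : ∀ k, ‖S k (x k)‖ ≤ C := fun k =>
    calc ‖S k (x k)‖ ≤ ‖S k‖ * ‖x k‖ := (S k).le_opNorm _
      _ ≤ C * 1 := mul_le_mul (hC k) (hx1 k) (norm_nonneg _) hC0
      _ = C := mul_one C
  have hym : Memℓp (fun k => S k (x k)) ∞ := memℓp_infty ⟨C, by rintro _ ⟨k, rfl⟩; exact hyb k⟩
  have h8 := h0 ⟨x, hxm⟩ ⟨fun k => S k (x k), hym⟩
  have h9 : Tendsto (fun k => ‖S k (x k)‖ ^ 2) (hyperfilter ℕ : Filter ℕ) (𝓝 0) := by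
    have h10 := h8.norm
    rw [norm_zero] at h10
    refine h10.congr fun k => ?_
    change ‖⟪S k (x k), S k (x k)⟫_ℂ‖ = _
    rw [inner_self_eq_norm_sq_to_K]
    simp
  have h11 : Tendsto (fun k => ‖S k (x k)‖) (hyperfilter ℕ : Filter ℕ) (𝓝 0) := by
    have h12 := h9.sqrt
    rw [Real.sqrt_zero] at h12
    refine h12.congr fun k => ?_
    exact Real.sqrt_sq (norm_nonneg _)
  have h13 : Tendsto (fun k => 2 * ‖S k (x k)‖) (hyperfilter ℕ : Filter ℕ) (𝓝 0) := by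
    have h14 := h11.const_mul 2
    rwa [mul_zero] at h14
  exact squeeze_zero (fun k => norm_nonneg _) hx2 h13

end Pool.Agent.B9x.A
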