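import Pool.Agent.Lib.MP_b9c6dd_an.X.A.Path
import Pool.Agent.Lib.MP_b9c6dd_an.X.A.Tiles
import Pool.Agent.Lib.MP_b9c6dd_an.X.A.UltraH
import Pool.Agent.Lib.MP_b9c6dd_an.X.A.UltraRep
import Pool.Agent.Lib.MP_b9c6dd_an.X.A.UltraUniq

/-!
# Job A17 (ExRep): existence of a limit representation

`HH`, `mk` from `exists_ultraH T.H`. For `j : ℤ` let `β n = dgt n j` and `up` from `exists_up`; for each `i` the family
`k ↦ (T.rep k) ∘ (up i k)` (as non-unital star homomorphisms `T.D i →⋆ₙₐ[ℂ] (T.H k →L[ℂ] T.H k)`) is unital for `k ≥ i`; `J i j` = `exists_ultraRep`. `J1`, `J2` by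
`ultraRep_unique` (the sequences agree for `k ≥ i + 1`, resp. `k ≥ i`: by `exists_up` (third property), resp. `up_congr` and: if `t i j = t i j'` then
`dgt n j = dgt n j'` for all `n ≥ i`, as `t n j = t n j'` by induction). Injectivity: if `J i j d = 0` then by `ultraRep_zero` the norms
`‖T.rep k (up i k d)‖ = ‖d‖` (`k ≥ i`; injective `*`-homomorphisms are isometric, `NonUnitalStarAlgHom.norm_map`) tend to `0`.
Eventually statements: `Filter.Eventually` at infinity implies along the hyperfilter (`Filter.hyperfilter_le_atTop` or `Nat.hyperfilter_le_atTop`).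
-/

set_option autoImplicit false

open scoped InnerProductSpace ENNReal Topology
open Filter

namespace Pool.Agent.B9x.A

private theorem exRep_ev (i : ℕ) : ∀ᶠ k in (hyperfilter ℕ : Filter ℕ), i ≤ k :=
  (eventually_ge_atTop i).filter_mono Nat.hyperfilter_le_atTop

private theorem exRep_t (i : ℕ) (j j' : ℤ) (h : t i j = t i j') : ∀ n, i ≤ n → t n j = t n j' := by
  intro n hn
  induction n, hn using Nat.le_induction with
  | base => exact h
  | succ n hn ih =>
    change tdiv (t n j) = tdiv (t n j')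
    rw [ih]

theorem exists_rep (T : Tower) : Nonempty (Rep T) := by
  classical
  obtain ⟨HH, n1, n2, n3, mk, hd, hi⟩ := exists_ultraH T.H
  have hup := fun j : ℤ => exists_up T (fun n => dgt n j)
  choose up hup0 hup1 hup2 hup3 hup4 using hup
  let ρ : ∀ (i : ℕ) (j : ℤ) (k : ℕ), T.D i →⋆ₙₐ[ℂ] (T.H k →L[ℂ] T.H k) := fun i j k =>
    ((T.rep k).toNonUnitalStarAlgHom).comp (up j i k)
  have hρ : ∀ i j k d, ρ i j k d = T.rep k (up j i k d) := fun i j k d => rfl
  have hρ1 : ∀ i j, ∀ᶠ k in (hyperfilter ℕ : Filter ℕ), ρ i j k 1 = 1 := by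
    intro i j
    filter_upwards [exRep_ev i] with k hk
    rw [hρ, hup3 j i k hk, map_one]
  have hJ := fun i j => exists_ultraRep mk hd hi (ρ i j) (hρ1 i j)
  choose J hJ using hJ
  have hJ2 : ∀ i j j', t i j = t i j' → J i j = J i j' := by
    intro i j j' h
    ext d : 1
    refine ultraRep_unique mk hd (J i j d) (J i j' d) (fun k => ρ i j k d) (fun k => ρ i j' k d)
      (hJ i j d) (hJ i j' d) ?_
    filter_upwards [exRep_ev i] with k hk
    rw [hρ, hρ]
    congr 1
    refine up_congr T (fun n => dgt n j) (fun n => dgt n j') i (fun n hn => ?_) (fun n => up j i n)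
      (fun n => up j' i n) (hup0 j i) (hup0 j' i) (fun n d hn => hup1 j i n d hn)
      (fun n d hn => hup1 j' i n d hn) k hk d
    change dig (t n j) = dig (t n j')
    rw [exRep_t i j j' h n hn]
  have hJ1 : ∀ i j d, J i j d = J (i + 1) j (T.io i (dgt i j) d) := by
    intro i j d
    refine ultraRep_unique mk hd _ _ (fun k => ρ i j k d)
      (fun k => ρ (i + 1) j k (T.io i (dgt i j) d)) (hJ i j d) (hJ (i + 1) j _) ?_
    filter_upwards [exRep_ev (i + 1)] with k hk
    rw [hρ, hρ, hup2 j i k d hk]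
  have hinj : ∀ i j, Function.Injective (J i j) := by
    intro i j
    rw [injective_iff_map_eq_zero]
    intro d hd0
    have h1 : Tendsto (fun k => ‖ρ i j k d‖) (hyperfilter ℕ : Filter ℕ) (𝓝 0) := by
      refine ultraRep_zero (fun k => ρ i j k d) ‖d‖
        (fun k => NonUnitalStarAlgHom.norm_apply_le (ρ i j k) d) ?_
      intro x y
      have h2 := hJ i j d x y
      rw [hd0] at h2
      simpa using h2
    have h3 : Tendsto (fun k => ‖ρ i j k d‖) (hyperfilter ℕ : Filter ℕ) (𝓝 ‖d‖) := by
      refine (tendsto_congr' ?_).2 tendsto_const_nhds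
      filter_upwards [exRep_ev i] with k hk
      refine NonUnitalStarAlgHom.norm_map (ρ i j k) ?_ d
      intro a b hab
      rw [hρ, hρ] at hab
      exact hup4 j i k hk (T.rep_inj k hab)
    have h4 : ‖d‖ = 0 := tendsto_nhds_unique h3 h1
    exact norm_eq_zero.1 h4
  exact ⟨{ HH := HH, n := n1, i := n2, c := n3, J := J, J_inj := hinj, J1 := hJ1, J2 := hJ2 }⟩

end Pool.Agent.B9x.A
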