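import Pool.Agent.Lib.MP_b9c6dd_an.X.A.Alg
import Pool.Agent.Lib.MP_b9c6dd_an.X.A.CPB

/-!
# Job A8 (Full): every nonzero element is full for the action

Let `a : AT R`, `a ≠ 0`; by scaling `‖a‖ = 1`. Take `c ∈ A0 R` with `‖a - c‖ ≤ 1/100`, `c ∈ Coh R i0 w d`; `‖c‖ ≥ 99/100`; `j0` with `‖c j0‖ ≥ 98/100`; `i ≥ i0` with
`j0 ∈ UU i w` (`exists_UU`); `m = i + d`; `F ∈ T.V m` codes `c` at `j0`; `f = ‖F‖ = ‖c j0‖ ∈ [98/100, 2]`. `T.T3` for `(f⁻¹) • F` gives `n`, `Rq`, `κ'`. Index set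
`Fin n × (positions k with 2 |k| ≤ 3^(m+1) - 1)` (a finset of integers `Finset.Icc`), transported to some `Fin n'` (`Fintype.equivFin`):
`r (q, k) x = R.J (m+1) x (Rq q)` if `rho (m+1) x = k`, else `0`; it is in `Coh R (m+1) 0 0`; shift `s (q, k) = k - rho m j0`.
For `x` with `rho (m+1) x = k`, `x' = x - s`: by `center`, `c x' = R.J m x' F` (`Code`), `= R.J (m+1) x' (T.io m 1 F)` (`J1`, digit `1`) `= R.J (m+1) x (T.io m 1 F)`
(`J2`). Hence `∑ star r * alp^s (star c * c) * r = f^2 κ' • 1` pointwise, with `f^2 κ' ≥ (98/100)^2 / 4 ≥ 0.24`, and `∑ star r * r = 1`.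
Replace `star c * c` by `star a * a`: `alp^s` depends on the index; apply `cp_bound` pointwise at each `x` (in `R.HH →L[ℂ] R.HH`, with the selfadjoint element
`(star a * a - star c * c) (x - s)` for the single `k = rho (m+1) x`): the difference is at most `‖star a * a - star c * c‖ ≤ 1/100 * (1 + 101/100) ≤ 1/40`.
So `κ = f^2 κ'` works. For general `a` scale by `‖a‖²`.
-/

set_option autoImplicit false

open scoped BoundedContinuousFunction InnerProductSpace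

namespace Pool.Agent.B9x.A

variable {T : Tower} (R : Rep T)

/-- Evaluation at a coordinate. -/
noncomputable def Full_ev (x : ℤ) : AT R →+ (R.HH →L[ℂ] R.HH) where
  toFun y := y.1 x
  map_zero' := rfl
  map_add' _ _ := rfl

theorem Full_ev_mul (x : ℤ) (y z : AT R) : Full_ev R x (y * z) = Full_ev R x y * Full_ev R x z := rfl

theorem Full_ev_star (x : ℤ) (y : AT R) : Full_ev R x (star y) = star (Full_ev R x y) := rfl

theorem Full_ev_smul_one (x : ℤ) (z : ℂ) :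
    Full_ev R x (z • (1 : AT R)) = z • (1 : R.HH →L[ℂ] R.HH) := rfl

theorem Full_ev_alp (x s : ℤ) (y : AT R) : Full_ev R x ((alp R ^ s) y) = Full_ev R (x - s) y :=
  alp_zpow_apply R s y x

theorem Full_norm_le (y : AT R) {C : ℝ} (hC : 0 ≤ C) (h : ∀ x, ‖Full_ev R x y‖ ≤ C) : ‖y‖ ≤ C := by
  have h1 : ‖y.1‖ ≤ C := (BoundedContinuousFunction.norm_le hC).2 h
  exact h1

/-- A sequence which is `R.J (m+1) x D` on one position and zero elsewhere. -/
noncomputable def Full_rs (m : ℕ) (k : ℤ) (D : T.D (m + 1)) : R.S :=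
  BoundedContinuousFunction.ofNormedAddCommGroupDiscrete
    (fun x => if rho (m + 1) x = k then R.J (m + 1) x D else 0) ‖D‖ (by
      intro x
      split_ifs
      · rw [J_norm]
      · rw [norm_zero]
        exact norm_nonneg D)

theorem Full_rs_apply (m : ℕ) (k : ℤ) (D : T.D (m + 1)) (x : ℤ) :
    Full_rs R m k D x = if rho (m + 1) x = k then R.J (m + 1) x D else 0 := rfl

theorem Full_rs_mem (m : ℕ) (k : ℤ) (D : T.D (m + 1)) (hD : D ∈ T.V (m + 1)) :
    Full_rs R m k D ∈ (A0 R).topologicalClosure := by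
  apply StarSubalgebra.le_topologicalClosure
  refine (mem_A0 R).2 ⟨m + 1, 0, 0, ?_⟩
  intro i hi j _
  by_cases hj : rho (m + 1) j = k
  · have h1 : Code R (m + 1) (Full_rs R m k D) j D := by
      intro j' hj'
      rw [Full_rs_apply, if_pos (hj'.trans hj)]
    exact code_lift_le hi hD h1
  · have h1 : Code R (m + 1) (Full_rs R m k D) j 0 := by
      intro j' hj'
      rw [Full_rs_apply, if_neg (fun h => hj (hj'.symm.trans h)), map_zero]
    exact code_lift_le hi (Submodule.zero_mem _) h1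

/-- The positions on level `m + 1`. -/
noncomputable abbrev Full_K (m : ℕ) : Finset ℤ := Finset.Icc (-(3 ^ (m + 1))) (3 ^ (m + 1))

theorem Full_rho_mem (m : ℕ) (x : ℤ) : rho (m + 1) x ∈ Full_K m := by
  have h1 := rho_abs (m + 1) x
  have h2 : |rho (m + 1) x| ≤ 3 ^ (m + 1) := by
    have h3 := abs_nonneg (rho (m + 1) x)
    linarith
  rw [Finset.mem_Icc]
  exact abs_le.1 h2

/-- The value of the sum at `x`. -/
theorem Full_sum (m : ℕ) {n : ℕ} (Rq : Fin n → T.D (m + 1)) (hRq : ∀ q, Rq q ∈ T.V (m + 1))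
    (ρ x : ℤ) (y : AT R) :
    Full_ev R x (∑ p : Fin n × Full_K m,
      star (⟨Full_rs R m p.2 (Rq p.1), Full_rs_mem R m p.2 _ (hRq p.1)⟩ : AT R) *
        (alp R ^ ((p.2 : ℤ) - ρ)) y * (⟨Full_rs R m p.2 (Rq p.1), Full_rs_mem R m p.2 _ (hRq p.1)⟩ : AT R)) =
      ∑ q, star (R.J (m + 1) x (Rq q)) * Full_ev R (x - (rho (m + 1) x - ρ)) y * R.J (m + 1) x (Rq q) := by
  classical
  rw [map_sum, Fintype.sum_prod_type]
  refine Finset.sum_congr rfl fun q _ => ?_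
  rw [Finset.sum_eq_single ⟨rho (m + 1) x, Full_rho_mem m x⟩]
  · rw [Full_ev_mul, Full_ev_mul, Full_ev_star, Full_ev_alp]
    have h1 : Full_ev R x (⟨Full_rs R m (rho (m + 1) x) (Rq q), Full_rs_mem R m _ _ (hRq q)⟩ : AT R)
        = R.J (m + 1) x (Rq q) := by
      show Full_rs R m (rho (m + 1) x) (Rq q) x = _
      rw [Full_rs_apply, if_pos rfl]
    simp only at h1 ⊢
    rw [h1]
  · rintro ⟨k, hk⟩ _ hne
    have h1 : Full_ev R x (⟨Full_rs R m k (Rq q), Full_rs_mem R m _ _ (hRq q)⟩ : AT R) = 0 := by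
      show Full_rs R m k (Rq q) x = _
      rw [Full_rs_apply, if_neg]
      intro h2
      exact hne (Subtype.ext h2.symm)
    rw [Full_ev_mul]
    simp only at h1 ⊢
    rw [h1, mul_zero]
  · intro h
    exact absurd (Finset.mem_univ _) h

theorem Full_core (m : ℕ) (j0 : ℤ) (c : R.S) (F : T.D m) (hF : F ∈ T.V m) (hcode : Code R m c j0 F)
    (hf : 98 / 100 ≤ ‖F‖) (a : AT R) (ha : ‖a‖ = 1) (hca : ‖a.1 - c‖ ≤ 1 / 100)
    (hc2 : ‖c‖ ≤ 101 / 100) : ∃ (n : ℕ) (r : Fin n → AT R) (s : Fin n → ℤ) (κ : ℝ),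
    0 < κ ∧ ‖∑ q, star (r q) * (alp R ^ (s q)) (star a * a) * r q - (κ : ℂ) • (1 : AT R)‖ ≤ κ / 2 := by
  classical
  have hf0 : 0 < ‖F‖ := by linarith
  have hn1 : ‖((‖F‖⁻¹ : ℝ) : ℂ) • F‖ = 1 := by
    rw [norm_smul, Complex.norm_real, norm_inv, norm_norm, inv_mul_cancel₀ hf0.ne']
  obtain ⟨n, Rq, κ', hRq, hκ, hs1, hs2⟩ := T.T3 m (((‖F‖⁻¹ : ℝ) : ℂ) • F)
    (Submodule.smul_mem _ _ hF) hn1
  have hs3 : ∑ q, star (Rq q) * T.io m 1 (star F * F) * Rq q
      = ((‖F‖ ^ 2 * κ' : ℝ) : ℂ) • (1 : T.D (m + 1)) := by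
    have e1 : star (((‖F‖⁻¹ : ℝ) : ℂ) • F) * (((‖F‖⁻¹ : ℝ) : ℂ) • F)
        = ((‖F‖⁻¹ ^ 2 : ℝ) : ℂ) • (star F * F) := by
      rw [star_smul, smul_mul_smul_comm]
      congr 1
      rw [Complex.star_def, Complex.conj_ofReal]
      push_cast
      ring
    have e2 : ((‖F‖⁻¹ ^ 2 : ℝ) : ℂ) • ∑ q, star (Rq q) * T.io m 1 (star F * F) * Rq q
        = (κ' : ℂ) • (1 : T.D (m + 1)) := by
      rw [← hs2, Finset.smul_sum]
      refine Finset.sum_congr rfl fun q _ => ?_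
      rw [e1, map_smul, mul_smul_comm, smul_mul_assoc]
    have e3 : ((‖F‖ ^ 2 : ℝ) : ℂ) • (((‖F‖⁻¹ ^ 2 : ℝ) : ℂ) •
        ∑ q, star (Rq q) * T.io m 1 (star F * F) * Rq q) =
        ∑ q, star (Rq q) * T.io m 1 (star F * F) * Rq q := by
      rw [smul_smul, ← Complex.ofReal_mul, inv_pow, mul_inv_cancel₀ (pow_ne_zero 2 hf0.ne'),
        Complex.ofReal_one, one_smul]
    rw [← e3, e2, smul_smul, ← Complex.ofReal_mul]
  set κ : ℝ := ‖F‖ ^ 2 * κ' with hκdef
  have hκ1 : 24 / 100 ≤ κ := by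
    have h1 : (98 / 100 : ℝ) ^ 2 ≤ ‖F‖ ^ 2 := pow_le_pow_left₀ (by norm_num) hf 2
    nlinarith
  set y : AT R := star a * a with hy
  -- the pointwise estimate
  have key : ∀ x, ‖∑ q, star (R.J (m + 1) x (Rq q)) *
      Full_ev R (x - (rho (m + 1) x - rho m j0)) y * R.J (m + 1) x (Rq q) -
      (κ : ℂ) • (1 : R.HH →L[ℂ] R.HH)‖ ≤ κ / 2 := by
    intro x
    obtain ⟨h1, h2, h3, h4⟩ := center m x j0 _ rfl
    set x' : ℤ := x - (rho (m + 1) x - rho m j0) with hx'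
    have h5 : c x' = R.J (m + 1) x (T.io m 1 F) := by
      rw [hcode x' h3, R.J1 m x' F, h2, R.J2 (m + 1) x' x h4]
    have h6 : ∑ q, star (R.J (m + 1) x (Rq q)) * (star (c x') * c x') * R.J (m + 1) x (Rq q) =
        (κ : ℂ) • (1 : R.HH →L[ℂ] R.HH) := by
      have h7 := congrArg (R.J (m + 1) x) hs3
      rw [map_sum, map_smul, map_one] at h7
      rw [← h7]
      refine Finset.sum_congr rfl fun q _ => ?_
      rw [h5]
      simp only [map_mul, map_star]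
    have h8 : ∑ q, star (R.J (m + 1) x (Rq q)) * R.J (m + 1) x (Rq q) = 1 := by
      have h9 := congrArg (R.J (m + 1) x) hs1
      rw [map_sum, map_one] at h9
      rw [← h9]
      refine Finset.sum_congr rfl fun q _ => ?_
      simp only [map_mul, map_star]
    have h10 : ∑ q, star (R.J (m + 1) x (Rq q)) * Full_ev R x' y * R.J (m + 1) x (Rq q) -
        (κ : ℂ) • (1 : R.HH →L[ℂ] R.HH) =
        ∑ q, star (R.J (m + 1) x (Rq q)) * (Full_ev R x' y - star (c x') * c x') *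
          R.J (m + 1) x (Rq q) := by
      rw [← h6, ← Finset.sum_sub_distrib]
      refine Finset.sum_congr rfl fun q _ => ?_
      rw [mul_sub, sub_mul]
    have h11 : Full_ev R x' y = star (a.1 x') * a.1 x' := rfl
    have h12 : star (Full_ev R x' y - star (c x') * c x') = Full_ev R x' y - star (c x') * c x' := by
      rw [h11, star_sub, star_mul, star_mul, star_star, star_star]
    have h13 := cp_bound (fun q => R.J (m + 1) x (Rq q)) _ h12 h8
    rw [h10]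
    refine h13.trans ?_
    have h14 : ‖a.1 x'‖ ≤ 1 := by
      have := BoundedContinuousFunction.norm_coe_le_norm a.1 x'
      have h15 : ‖a.1‖ = 1 := ha
      rwa [h15] at this
    have h16 : ‖c x'‖ ≤ 101 / 100 := (BoundedContinuousFunction.norm_coe_le_norm c x').trans hc2
    have h17 : ‖a.1 x' - c x'‖ ≤ 1 / 100 := by
      have := BoundedContinuousFunction.norm_coe_le_norm (a.1 - c) x'
      exact this.trans hca
    have h18 : Full_ev R x' y - star (c x') * c x' =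
        star (a.1 x') * (a.1 x' - c x') + star (a.1 x' - c x') * c x' := by
      rw [h11, star_sub]
      noncomm_ring
    rw [h18]
    refine (norm_add_le _ _).trans ?_
    have h19 : ‖star (a.1 x') * (a.1 x' - c x')‖ ≤ 1 * (1 / 100) := by
      refine (norm_mul_le _ _).trans ?_
      rw [norm_star]
      exact mul_le_mul h14 h17 (norm_nonneg _) (by norm_num)
    have h20 : ‖star (a.1 x' - c x') * c x'‖ ≤ 1 / 100 * (101 / 100) := by
      refine (norm_mul_le _ _).trans ?_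
      rw [norm_star]
      exact mul_le_mul h17 h16 (norm_nonneg _) (by norm_num)
    linarith
  -- the index set
  set e := Fintype.equivFin (Fin n × Full_K m) with he
  refine ⟨Fintype.card (Fin n × Full_K m),
    fun i => ⟨Full_rs R m (e.symm i).2 (Rq (e.symm i).1), Full_rs_mem R m _ _ (hRq _)⟩,
    fun i => ((e.symm i).2 : ℤ) - rho m j0, κ, by linarith, ?_⟩
  refine Full_norm_le R _ (by linarith) fun x => ?_
  have h1 := key x
  rw [← Full_sum R m Rq hRq (rho m j0) x y] at h1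
  rw [map_sub, Full_ev_smul_one]
  have h2 := Equiv.sum_comp e.symm (fun p : Fin n × Full_K m =>
      star (⟨Full_rs R m p.2 (Rq p.1), Full_rs_mem R m p.2 _ (hRq p.1)⟩ : AT R) *
        (alp R ^ ((p.2 : ℤ) - rho m j0)) y *
        (⟨Full_rs R m p.2 (Rq p.1), Full_rs_mem R m p.2 _ (hRq p.1)⟩ : AT R))
  rw [← h2] at h1
  exact h1

theorem Full_one (a : AT R) (ha : ‖a‖ = 1) : ∃ (n : ℕ) (r : Fin n → AT R) (s : Fin n → ℤ) (κ : ℝ),
    0 < κ ∧ ‖∑ q, star (r q) * (alp R ^ (s q)) (star a * a) * r q - (κ : ℂ) • (1 : AT R)‖ ≤ κ / 2 := by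
  classical
  obtain ⟨c, hc, hca⟩ : ∃ c ∈ A0 R, ‖a.1 - c‖ ≤ 1 / 100 := by
    have h1 : a.1 ∈ closure {c | c ∈ A0 R} := (mem_AT_iff R).1 a.2
    obtain ⟨c, hc, h2⟩ := Metric.mem_closure_iff.1 h1 (1 / 100) (by norm_num)
    exact ⟨c, hc, by rw [← dist_eq_norm]; exact h2.le⟩
  obtain ⟨i0, w, d, hcoh⟩ := (mem_A0 R).1 hc
  have ha' : ‖a.1‖ = 1 := ha
  have hc1 : 99 / 100 ≤ ‖c‖ := by
    have h1 := norm_sub_norm_le a.1 c
    linarith
  have hc2 : ‖c‖ ≤ 101 / 100 := by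
    have h1 := norm_sub_norm_le c a.1
    rw [norm_sub_rev] at h1
    linarith
  obtain ⟨j0, hj0⟩ : ∃ j0, 98 / 100 ≤ ‖c j0‖ := by
    by_contra hcon
    push Not at hcon
    have h1 : ‖c‖ ≤ 98 / 100 :=
      (BoundedContinuousFunction.norm_le (by norm_num)).2 fun j => (hcon j).le
    linarith
  obtain ⟨i1, hi1⟩ := exists_UU j0 w (by positivity)
  obtain ⟨F, hF, hcode⟩ := hcoh (max i0 i1) (le_max_left _ _) j0 (hi1 _ (le_max_right _ _))
  have hcj0 : c j0 = R.J (max i0 i1 + d) j0 F := hcode j0 rfl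
  have hf : 98 / 100 ≤ ‖F‖ := by
    rw [hcj0, J_norm] at hj0
    exact hj0
  exact Full_core R _ j0 c F hF hcode hf a ha hca hc2

theorem full (a : AT R) (ha : a ≠ 0) : ∃ (n : ℕ) (r : Fin n → AT R) (s : Fin n → ℤ) (κ : ℝ),
    0 < κ ∧ ‖∑ q, star (r q) * (alp R ^ (s q)) (star a * a) * r q - (κ : ℂ) • (1 : AT R)‖ ≤ κ / 2 := by
  have hN : 0 < ‖a‖ := norm_pos_iff.2 ha
  have hb : ‖((‖a‖⁻¹ : ℝ) : ℂ) • a‖ = 1 := by
    rw [norm_smul, Complex.norm_real, norm_inv, norm_norm, inv_mul_cancel₀ hN.ne']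
  obtain ⟨n, r, s, κ, hκ, h⟩ := Full_one R (((‖a‖⁻¹ : ℝ) : ℂ) • a) hb
  refine ⟨n, r, s, ‖a‖ ^ 2 * κ, by positivity, ?_⟩
  have e1 : star (((‖a‖⁻¹ : ℝ) : ℂ) • a) * (((‖a‖⁻¹ : ℝ) : ℂ) • a)
      = ((‖a‖⁻¹ ^ 2 : ℝ) : ℂ) • (star a * a) := by
    rw [star_smul, smul_mul_smul_comm]
    congr 1
    rw [Complex.star_def, Complex.conj_ofReal]
    push_cast
    ring
  have e2 : ∑ q, star (r q) * (alp R ^ (s q)) (star a * a) * r q - ((‖a‖ ^ 2 * κ : ℝ) : ℂ) • (1 : AT R)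
      = ((‖a‖ ^ 2 : ℝ) : ℂ) • (∑ q, star (r q) * (alp R ^ (s q)) (star (((‖a‖⁻¹ : ℝ) : ℂ) • a) *
          (((‖a‖⁻¹ : ℝ) : ℂ) • a)) * r q - (κ : ℂ) • (1 : AT R)) := by
    rw [smul_sub, Finset.smul_sum, smul_smul, ← Complex.ofReal_mul]
    congr 1
    refine Finset.sum_congr rfl fun q _ => ?_
    rw [e1, map_smul, mul_smul_comm, smul_mul_assoc, smul_smul, ← Complex.ofReal_mul, inv_pow,
      mul_inv_cancel₀ (pow_ne_zero 2 hN.ne'), Complex.ofReal_one, one_smul]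
  rw [e2, norm_smul, Complex.norm_real, Real.norm_of_nonneg (by positivity)]
  have h3 := mul_le_mul_of_nonneg_left h (sq_nonneg ‖a‖)
  linarith

end Pool.Agent.B9x.A
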