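import Mathlib

/-!
# Job A5 (Hat): scalar Rokhlin towers

Given `q` (towers of length `p = q + 1`) and `ε > 0` choose `m` with `N = 3^m > 8 / ε` (and `N ≥ 4`). Let `r x = x % N` (`0 ≤ r x < N`), `h = N / 2`.
`g : ℤ → ℝ`, `g x = min (r x) (N - r x) * 2 / N`, clipped: `g` is `N`-periodic, `0 ≤ g ≤ 1`, `|g (x - 1) - g x| ≤ 2 / N`, `g x ≤ 2 / N` if `r x ∈ {0, N - 1}`,
`1 - g x ≤ 4 / N` if `r (x + h) ∈ {0, N - 1}`, i.e. `r x` is near `N / 2`.
`φ 0 j x = g x` if `(r x) % p = j`, else `0`. `φ 1 j x = 1 - g x` if `(r (x + h)) % p = j`, else `0`.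
Sum over `l, j` is `g x + (1 - g x) = 1`. For `j ≠ k`: `φ l j x * φ l k x = 0`. Shift: if `r x ≠ 0` then `r (x - 1) = r x - 1` and
`(r x - 1) % p = j` iff `(r x) % p = j + 1` (in `Fin (q + 1)`), so `|φ 0 j (x - 1) - φ 0 (j+1) x| ≤ |g (x-1) - g x|`; if `r x = 0`, both values are at most `2/N`.
The same for `φ 1`.
-/

set_option autoImplicit false

namespace Pool.Agent.B9x.A

noncomputable def hat_g (N : ℤ) (x : ℤ) : ℝ := ((min (x % N) (N - x % N) : ℤ) : ℝ) * 2 / N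

noncomputable def hat_psi (q : ℕ) (N a : ℤ) (G : ℤ → ℝ) (j : Fin (q + 1)) (x : ℤ) : ℝ :=
  if (x + a) % N % (q + 1 : ℤ) = (j : ℕ) then G x else 0

theorem hat_g_nonneg {N : ℤ} (hN : 0 < N) (x : ℤ) : 0 ≤ hat_g N x := by
  have h1 := Int.emod_nonneg x hN.ne'
  have h2 := Int.emod_lt_of_pos x hN
  have h3 : (0 : ℤ) ≤ min (x % N) (N - x % N) := le_min h1 (by linarith)
  have h4 : (0 : ℝ) ≤ ((min (x % N) (N - x % N) : ℤ) : ℝ) := by exact_mod_cast h3
  have h5 : (0 : ℝ) < N := by exact_mod_cast hN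
  unfold hat_g
  positivity

theorem hat_g_le {N : ℤ} (hN : 0 < N) (x : ℤ) : hat_g N x ≤ 1 := by
  have h3 : min (x % N) (N - x % N) * 2 ≤ N := by
    rcases le_total (x % N) (N - x % N) with h | h
    · rw [min_eq_left h]
      linarith
    · rw [min_eq_right h]
      linarith
  have h4 : ((min (x % N) (N - x % N) : ℤ) : ℝ) * 2 ≤ N := by exact_mod_cast h3
  have h5 : (0 : ℝ) < N := by exact_mod_cast hN
  unfold hat_g
  rw [div_le_one h5]
  exact h4

theorem hat_emod {N : ℤ} (hN : 0 < N) (x : ℤ) :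
    (x % N ≠ 0 ∧ (x - 1) % N = x % N - 1) ∨ (x % N = 0 ∧ (x - 1) % N = N - 1) := by
  have h1 := Int.emod_nonneg x hN.ne'
  have h2 := Int.emod_lt_of_pos x hN
  by_cases h : x % N = 0
  · right
    refine ⟨h, ?_⟩
    obtain ⟨k, hk⟩ := Int.dvd_of_emod_eq_zero h
    have h3 : x - 1 = (N - 1) + N * (k - 1) := by rw [hk]; ring
    rw [h3, Int.add_mul_emod_self_left]
    exact Int.emod_eq_of_lt (by omega) (by omega)
  · left
    refine ⟨h, ?_⟩
    have h3 : x - 1 = (x % N - 1) + N * (x / N) := by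
      have := Int.emod_add_mul_ediv x N
      linarith
    rw [h3, Int.add_mul_emod_self_left]
    exact Int.emod_eq_of_lt (by omega) (by omega)

theorem hat_g_sub {N : ℤ} (hN : 4 ≤ N) (x : ℤ) : |hat_g N (x - 1) - hat_g N x| ≤ 2 / N := by
  have h5 : (0 : ℝ) < N := by
    have : (4 : ℝ) ≤ N := by exact_mod_cast hN
    linarith
  have h1 := Int.emod_nonneg x (by omega : N ≠ 0)
  have h2 := Int.emod_lt_of_pos x (by omega : 0 < N)
  have h6 : |min ((x - 1) % N) (N - (x - 1) % N) - min (x % N) (N - x % N)| ≤ 1 := by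
    rcases hat_emod (by omega : 0 < N) x with ⟨h3, h4⟩ | ⟨h3, h4⟩
    · rw [h4, abs_le]
      constructor <;> omega
    · rw [h4, h3, abs_le]
      constructor <;> omega
  have h7 : |((min ((x - 1) % N) (N - (x - 1) % N) : ℤ) : ℝ) - ((min (x % N) (N - x % N) : ℤ) : ℝ)| ≤ 1 := by
    exact_mod_cast h6
  unfold hat_g
  rw [← sub_div, ← sub_mul, abs_div, abs_mul, abs_of_pos h5, abs_of_pos (by norm_num : (0 : ℝ) < 2)]
  gcongr
  linarith

theorem hat_g_zero {N : ℤ} (hN : 4 ≤ N) (x : ℤ) (h : x % N = 0) :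
    hat_g N x ≤ 2 / N ∧ hat_g N (x - 1) ≤ 2 / N := by
  have h5 : (0 : ℝ) < N := by
    have : (4 : ℝ) ≤ N := by exact_mod_cast hN
    linarith
  have hx : hat_g N x = 0 := by
    unfold hat_g
    rw [h, min_eq_left (by omega)]
    simp
  refine ⟨by rw [hx]; positivity, ?_⟩
  have h1 := hat_g_sub hN x
  rw [hx, sub_zero] at h1
  exact (le_abs_self _).trans h1

theorem hat_g_half {N : ℤ} (hN : 4 ≤ N) (hodd : N = 2 * (N / 2) + 1) (x : ℤ) (h : (x + N / 2) % N = 0) :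
    1 - hat_g N x ≤ 2 / N ∧ 1 - hat_g N (x - 1) ≤ 2 / N := by
  have h5 : (0 : ℝ) < N := by
    have : (4 : ℝ) ≤ N := by exact_mod_cast hN
    linarith
  obtain ⟨k, hk⟩ := Int.dvd_of_emod_eq_zero h
  have hx : x % N = N - N / 2 := by
    have h3 : x = (N - N / 2) + N * (k - 1) := by linarith
    rw [h3, Int.add_mul_emod_self_left]
    exact Int.emod_eq_of_lt (by omega) (by omega)
  have hx' : (x - 1) % N = N - N / 2 - 1 := by
    have h3 : x - 1 = (N - N / 2 - 1) + N * (k - 1) := by linarith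
    rw [h3, Int.add_mul_emod_self_left]
    exact Int.emod_eq_of_lt (by omega) (by omega)
  have key : ∀ y : ℤ, min (y % N) (N - y % N) = N / 2 → 1 - hat_g N y ≤ 2 / N := by
    intro y hy
    have h6 : (N : ℝ) = 2 * ((N / 2 : ℤ) : ℝ) + 1 := by exact_mod_cast hodd
    unfold hat_g
    rw [hy, sub_le_iff_le_add, ← add_div, le_div_iff₀ h5]
    linarith
  refine ⟨key x ?_, key (x - 1) ?_⟩
  · rw [hx]
    omega
  · rw [hx']
    omega

theorem hat_psi_sum (q : ℕ) (N a : ℤ) (G : ℤ → ℝ) (x : ℤ) : ∑ j, hat_psi q N a G j x = G x := by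
  have h1 := Int.emod_nonneg ((x + a) % N) (by omega : (q + 1 : ℤ) ≠ 0)
  have h2 := Int.emod_lt_of_pos ((x + a) % N) (by omega : (0 : ℤ) < q + 1)
  obtain ⟨c, hc⟩ : ∃ c : ℤ, c = (x + a) % N % (q + 1 : ℤ) := ⟨_, rfl⟩
  rw [← hc] at h1 h2
  rw [Finset.sum_eq_single (⟨c.toNat, by omega⟩ : Fin (q + 1))]
  · unfold hat_psi
    rw [← hc, if_pos]
    show c = ((c.toNat : ℕ) : ℤ)
    omega
  · intro j _ hj
    unfold hat_psi
    rw [← hc, if_neg]
    intro h3
    apply hj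
    apply Fin.ext
    show (j : ℕ) = c.toNat
    omega
  · intro h
    exact absurd (Finset.mem_univ _) h

theorem hat_succ_iff (q : ℕ) (c : ℤ) (j : Fin (q + 1)) :
    (c - 1) % (q + 1 : ℤ) = (j : ℕ) ↔ c % (q + 1 : ℤ) = ((j + 1 : Fin (q + 1)) : ℕ) := by
  have hj := j.isLt
  have h1 := Int.emod_nonneg c (by omega : (q + 1 : ℤ) ≠ 0)
  have h2 := Int.emod_lt_of_pos c (by omega : (0 : ℤ) < q + 1)
  have h3 : ((j + 1 : Fin (q + 1)) : ℕ) = if (j : ℕ) = q then 0 else (j : ℕ) + 1 := by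
    rw [Fin.val_add_one]
    by_cases h : j = Fin.last q
    · rw [if_pos h, if_pos (by rw [h]; rfl)]
    · rw [if_neg h, if_neg]
      intro h'
      exact h (Fin.ext h')
  rw [h3]
  rcases hat_emod (by omega : (0 : ℤ) < q + 1) c with ⟨h4, h5⟩ | ⟨h4, h5⟩
  · rw [h5]
    split_ifs with h6
    · constructor <;> (intro h7; omega)
    · constructor <;> (intro h7; omega)
  · rw [h5, h4]
    split_ifs with h6
    · constructor <;> (intro h7; omega)
    · constructor <;> (intro h7; omega)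

theorem hat_psi_sub (q : ℕ) (N a : ℤ) (hN : 0 < N) (G : ℤ → ℝ) (hG : ∀ x, 0 ≤ G x) (δ : ℝ) (j : Fin (q + 1)) (x : ℤ)
    (hd : |G (x - 1) - G x| ≤ δ) (h0 : (x + a) % N = 0 → G x ≤ δ ∧ G (x - 1) ≤ δ) :
    |hat_psi q N a G j (x - 1) - hat_psi q N a G (j + 1) x| ≤ δ := by
  have hδ : 0 ≤ δ := (abs_nonneg _).trans hd
  have hx : x - 1 + a = x + a - 1 := by ring
  rcases hat_emod hN (x + a) with ⟨h1, h2⟩ | ⟨h1, h2⟩
  · unfold hat_psi
    rw [hx, h2]
    by_cases hc : ((x + a) % N - 1) % (q + 1 : ℤ) = (j : ℕ)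
    · rw [if_pos hc, if_pos ((hat_succ_iff q _ j).1 hc)]
      exact hd
    · rw [if_neg hc, if_neg (fun h => hc ((hat_succ_iff q _ j).2 h)), sub_zero, abs_zero]
      exact hδ
  · obtain ⟨h3, h4⟩ := h0 h1
    have h5 : 0 ≤ hat_psi q N a G j (x - 1) ∧ hat_psi q N a G j (x - 1) ≤ δ := by
      unfold hat_psi
      split_ifs
      · exact ⟨hG _, h4⟩
      · exact ⟨le_refl _, hδ⟩
    have h6 : 0 ≤ hat_psi q N a G (j + 1) x ∧ hat_psi q N a G (j + 1) x ≤ δ := by
      unfold hat_psi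
      split_ifs
      · exact ⟨hG _, h3⟩
      · exact ⟨le_refl _, hδ⟩
    rw [abs_le]
    constructor <;> linarith [h5.1, h5.2, h6.1, h6.2]

theorem hat (q : ℕ) (ε : ℝ) (hε : 0 < ε) : ∃ (m : ℕ) (φ : Fin 2 → Fin (q + 1) → ℤ → ℝ),
    (∀ l j x, φ l j (x + 3 ^ m) = φ l j x) ∧
    (∀ l j x, 0 ≤ φ l j x ∧ φ l j x ≤ 1) ∧
    (∀ l j k x, j ≠ k → φ l j x * φ l k x = 0) ∧
    (∀ l j x, |φ l j (x - 1) - φ l (j + 1) x| ≤ ε) ∧
    (∀ x, ∑ l, ∑ j, φ l j x = 1) := by
  obtain ⟨m₀, hm₀⟩ := pow_unbounded_of_one_lt (8 / ε) (by norm_num : (1 : ℝ) < 3)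
  obtain ⟨m, hm⟩ : ∃ m : ℕ, m = m₀ + 2 := ⟨_, rfl⟩
  have hN3 : (3 : ℤ) ^ m = 2 * ((3 : ℤ) ^ m / 2) + 1 := by
    have h1 : Odd ((3 : ℤ) ^ m) := Odd.pow (by decide)
    have h2 := Int.odd_iff.1 h1
    omega
  have hN4 : (4 : ℤ) ≤ 3 ^ m := by
    have h1 : (3 : ℤ) ^ 2 ≤ 3 ^ m := pow_le_pow_right₀ (by norm_num) (by omega)
    linarith
  obtain ⟨N, hN⟩ : ∃ N : ℤ, N = 3 ^ m := ⟨_, rfl⟩
  rw [← hN] at hN3 hN4
  have hNε : 2 / (N : ℝ) ≤ ε := by
    have h1 : (3 : ℝ) ^ m₀ ≤ 3 ^ m := pow_le_pow_right₀ (by norm_num) (by omega)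
    have h2 : (N : ℝ) = 3 ^ m := by rw [hN]; push_cast; rfl
    have h3 : 8 / ε < (N : ℝ) := by rw [h2]; linarith
    have h4 : (0 : ℝ) < N := by
      have : (4 : ℝ) ≤ N := by exact_mod_cast hN4
      linarith
    rw [div_lt_iff₀ hε] at h3
    rw [div_le_iff₀ h4]
    linarith
  have hNR : (4 : ℝ) ≤ N := by exact_mod_cast hN4
  have hN0 : (0 : ℝ) < N := by linarith
  refine ⟨m, fun l j x => if l = 0 then hat_psi q N 0 (hat_g N) j x
    else hat_psi q N (N / 2) (fun x => 1 - hat_g N x) j x, ?_, ?_, ?_, ?_, ?_⟩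
  · intro l j x
    rw [← hN]
    have h1 : hat_g N (x + N) = hat_g N x := by
      unfold hat_g
      rw [Int.add_emod_right]
    have h2 : ∀ a : ℤ, (x + N + a) % N = (x + a) % N := by
      intro a
      rw [show x + N + a = x + a + N by ring, Int.add_emod_right]
    have h3 : hat_psi q N 0 (hat_g N) j (x + N) = hat_psi q N 0 (hat_g N) j x := by
      unfold hat_psi
      rw [h2, h1]
    have h4 : hat_psi q N (N / 2) (fun x => 1 - hat_g N x) j (x + N)
        = hat_psi q N (N / 2) (fun x => 1 - hat_g N x) j x := by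
      unfold hat_psi
      rw [h2]
      dsimp only
      rw [h1]
    show (if l = 0 then _ else _) = (if l = 0 then _ else _)
    rw [h3, h4]
  · intro l j x
    have h0 := hat_g_nonneg (N := N) (by linarith) x
    have h1 := hat_g_le (N := N) (by linarith) x
    unfold hat_psi
    dsimp only
    split_ifs
    · exact ⟨h0, h1⟩
    · exact ⟨le_refl _, zero_le_one⟩
    · exact ⟨by linarith, by linarith⟩
    · exact ⟨le_refl _, zero_le_one⟩
  · intro l j k x hjk
    have key : ∀ (a : ℤ) (G : ℤ → ℝ), hat_psi q N a G j x * hat_psi q N a G k x = 0 := by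
      intro a G
      unfold hat_psi
      by_cases h1 : (x + a) % N % (q + 1 : ℤ) = (j : ℕ)
      · have h2 : ¬ (x + a) % N % (q + 1 : ℤ) = (k : ℕ) := by
          intro h2
          apply hjk
          apply Fin.ext
          have : ((j : ℕ) : ℤ) = (k : ℕ) := by rw [← h1, ← h2]
          exact_mod_cast this
        rw [if_neg h2, mul_zero]
      · rw [if_neg h1, zero_mul]
    by_cases hl : l = 0
    · simp only [if_pos hl]
      exact key _ _
    · simp only [if_neg hl]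
      exact key _ _
  · intro l j x
    have hg := hat_g_sub hN4 x
    by_cases hl : l = 0
    · simp only [if_pos hl]
      refine (hat_psi_sub q N 0 (by linarith) (hat_g N) (hat_g_nonneg (by linarith)) (2 / N) j x hg ?_).trans hNε
      intro h0
      rw [add_zero] at h0
      exact hat_g_zero hN4 x h0
    · simp only [if_neg hl]
      refine (hat_psi_sub q N (N / 2) (by linarith) (fun x => 1 - hat_g N x)
        (fun y => by have := hat_g_le (N := N) (by linarith) y; linarith) (2 / N) j x ?_ ?_).trans hNε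
      · rw [show (1 - hat_g N (x - 1)) - (1 - hat_g N x) = -(hat_g N (x - 1) - hat_g N x) by ring, abs_neg]
        exact hg
      · intro h0
        exact hat_g_half hN4 hN3 x h0
  · intro x
    rw [Fin.sum_univ_two]
    simp only [if_true, Fin.isValue, one_ne_zero, if_false]
    rw [hat_psi_sum, hat_psi_sum]
    ring

end Pool.Agent.B9x.A
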