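import Pool.Agent.Lib.MP_b9c6dd_an.X.A.ModelDefs

/-!
# Job ModelF: the expectation of the concrete crossed product is faithful

Claim: `⟪lp.single 2 x ξ, b (lp.single 2 x η)⟫ = ⟪ξ, ev x (E b) η⟫` for all `b : BS ev`, `ξ η : H`, `x : ℤ`: both sides are
continuous in `b` and agree on polynomials `∑ ι (c k) U^k`, which are dense (`CP.pol_dense`): `E (ι c * upw U k) = c * E (upw U k) = if k = 0 then c else 0` (`IsEx.ι_mul`, `IsEx.pw`), and `upw U k` maps
`lp.single 2 x η` to `lp.single 2 (x + k) η`. If `E (star b * b) = 0` then `‖b (lp.single 2 x ξ)‖² = 0` for all `x`, `ξ`; the span of these vectors is dense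
(`lp` : finitely supported sequences are dense, e.g. `lp.hasSum_single`), so `b = 0`.
-/

set_option autoImplicit false

open scoped InnerProductSpace ENNReal

namespace Pool.Agent.B9x.A

open Pool.Agent.MPb9c6dd

section

variable {A H : Type} [CStarAlgebra A] [NormedAddCommGroup H] [InnerProductSpace ℂ H] [CompleteSpace H]

private theorem ModelF_sh_single (x : ℤ) (η : H) :
    sh H (lp.single 2 x η : lp (fun _ : ℤ => H) 2) = lp.single 2 (x + 1) η := by
  refine lp.ext (funext fun y => ?_)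
  rw [sh_apply, lp.single_apply, lp.single_apply, Pi.single_apply, Pi.single_apply]
  by_cases h : y = x + 1
  · rw [if_pos h, if_pos (by omega)]
  · rw [if_neg h, if_neg (by omega)]

private theorem ModelF_star_sh_single (x : ℤ) (η : H) :
    star (sh H) (lp.single 2 x η : lp (fun _ : ℤ => H) 2) = lp.single 2 (x - 1) η := by
  refine lp.ext (funext fun y => ?_)
  rw [star_sh_apply, lp.single_apply, lp.single_apply, Pi.single_apply, Pi.single_apply]
  by_cases h : y = x - 1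
  · rw [if_pos h, if_pos (by omega)]
  · rw [if_neg h, if_neg (by omega)]

private theorem ModelF_upw_one {B : Type} [CStarAlgebra B] (U : unitary B) : upw U 1 = (U : B) := by
  unfold upw
  rw [zpow_one]

private theorem ModelF_upw_neg_one {B : Type} [CStarAlgebra B] (U : unitary B) :
    upw U (-1) = star (U : B) := by
  rw [← upw_star, ModelF_upw_one]

private theorem ModelF_upw (ev : ℤ → A →⋆ₐ[ℂ] (H →L[ℂ] H)) (k : ℤ) (x : ℤ) (η : H) :
    ((upw (uB ev) k : BS ev) : lp (fun _ : ℤ => H) 2 →L[ℂ] lp (fun _ : ℤ => H) 2)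
      (lp.single 2 x η : lp (fun _ : ℤ => H) 2) = lp.single 2 (x + k) η := by
  induction k using Int.induction_on generalizing x with
  | zero =>
    rw [upw_zero, add_zero]
    rfl
  | succ k ih =>
    rw [upw_add, ModelF_upw_one]
    have e : (((upw (uB ev) (k : ℤ)) * (uB ev : BS ev) : BS ev) :
        lp (fun _ : ℤ => H) 2 →L[ℂ] lp (fun _ : ℤ => H) 2) (lp.single 2 x η : lp (fun _ : ℤ => H) 2) =
        ((upw (uB ev) (k : ℤ) : BS ev) : lp (fun _ : ℤ => H) 2 →L[ℂ] lp (fun _ : ℤ => H) 2)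
          (sh H (lp.single 2 x η : lp (fun _ : ℤ => H) 2)) := rfl
    rw [e, ModelF_sh_single, ih]
    congr 1
    ring
  | pred k ih =>
    rw [sub_eq_add_neg, upw_add, ModelF_upw_neg_one]
    have e : (((upw (uB ev) (-(k : ℤ))) * star (uB ev : BS ev) : BS ev) :
        lp (fun _ : ℤ => H) 2 →L[ℂ] lp (fun _ : ℤ => H) 2) (lp.single 2 x η : lp (fun _ : ℤ => H) 2) =
        ((upw (uB ev) (-(k : ℤ)) : BS ev) : lp (fun _ : ℤ => H) 2 →L[ℂ] lp (fun _ : ℤ => H) 2)
          (star (sh H) (lp.single 2 x η : lp (fun _ : ℤ => H) 2)) := rfl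
    rw [e, ModelF_star_sh_single, ih]
    congr 1
    ring

private theorem ModelF_mono (α : A ≃⋆ₐ[ℂ] A) (ev : ℤ → A →⋆ₐ[ℂ] (H →L[ℂ] H))
    (E : BS ev →L[ℂ] A) (hE : IsEx α (iB ev) (uB ev) E) (c : A) (k x : ℤ) (ξ η : H) :
    ⟪(lp.single 2 x ξ : lp (fun _ : ℤ => H) 2),
      ((iB ev c * upw (uB ev) k : BS ev) : lp (fun _ : ℤ => H) 2 →L[ℂ] lp (fun _ : ℤ => H) 2)
        (lp.single 2 x η : lp (fun _ : ℤ => H) 2)⟫_ℂ = ⟪ξ, ev x (E (iB ev c * upw (uB ev) k)) η⟫_ℂ := by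
  have e : ((iB ev c * upw (uB ev) k : BS ev) : lp (fun _ : ℤ => H) 2 →L[ℂ] lp (fun _ : ℤ => H) 2)
        (lp.single 2 x η : lp (fun _ : ℤ => H) 2) = DD ev c (((upw (uB ev) k : BS ev) :
          lp (fun _ : ℤ => H) 2 →L[ℂ] lp (fun _ : ℤ => H) 2) (lp.single 2 x η : lp (fun _ : ℤ => H) 2)) := rfl
  rw [e, ModelF_upw, lp.inner_single_left, DD_apply, hE.ι_mul, hE.pw, lp.single_apply, Pi.single_apply]
  by_cases hk : k = 0
  · rw [if_pos hk, if_pos (by omega), mul_one]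
  · rw [if_neg hk, if_neg (by omega), mul_zero, map_zero, map_zero]
    rfl

private theorem ModelF_claim (α : A ≃⋆ₐ[ℂ] A) (ev : ℤ → A →⋆ₐ[ℂ] (H →L[ℂ] H))
    (h : CP α (iB ev) (uB ev)) (E : BS ev →L[ℂ] A) (hE : IsEx α (iB ev) (uB ev) E) (b : BS ev)
    (x : ℤ) (ξ η : H) :
    ⟪(lp.single 2 x ξ : lp (fun _ : ℤ => H) 2),
      (b : lp (fun _ : ℤ => H) 2 →L[ℂ] lp (fun _ : ℤ => H) 2)
        (lp.single 2 x η : lp (fun _ : ℤ => H) 2)⟫_ℂ = ⟪ξ, ev x (E b) η⟫_ℂ := by
  have hev : Continuous (ev x) := by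
    refine (AddMonoidHomClass.continuous_of_bound (ev x) 1 fun a => ?_)
    rw [one_mul]
    exact NonUnitalStarAlgHom.norm_apply_le (ev x) a
  have hc1 : Continuous fun b : BS ev => ⟪(lp.single 2 x ξ : lp (fun _ : ℤ => H) 2),
      (b : lp (fun _ : ℤ => H) 2 →L[ℂ] lp (fun _ : ℤ => H) 2)
        (lp.single 2 x η : lp (fun _ : ℤ => H) 2)⟫_ℂ := by
    refine continuous_const.inner ?_
    exact (ContinuousLinearMap.apply ℂ (lp (fun _ : ℤ => H) 2)
      (lp.single 2 x η : lp (fun _ : ℤ => H) 2)).continuous.comp continuous_subtype_val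
  have hc2 : Continuous fun b : BS ev => ⟪ξ, ev x (E b) η⟫_ℂ := by
    refine continuous_const.inner ?_
    exact (ContinuousLinearMap.apply ℂ H η).continuous.comp (hev.comp E.continuous)
  have hcl : IsClosed {b : BS ev | ⟪(lp.single 2 x ξ : lp (fun _ : ℤ => H) 2),
      (b : lp (fun _ : ℤ => H) 2 →L[ℂ] lp (fun _ : ℤ => H) 2)
        (lp.single 2 x η : lp (fun _ : ℤ => H) 2)⟫_ℂ = ⟪ξ, ev x (E b) η⟫_ℂ} := isClosed_eq hc1 hc2
  have hmem : b ∈ closure {b : BS ev | ⟪(lp.single 2 x ξ : lp (fun _ : ℤ => H) 2),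
      (b : lp (fun _ : ℤ => H) 2 →L[ℂ] lp (fun _ : ℤ => H) 2)
        (lp.single 2 x η : lp (fun _ : ℤ => H) 2)⟫_ℂ = ⟪ξ, ev x (E b) η⟫_ℂ} := by
    rw [Metric.mem_closure_iff]
    intro ε hε
    obtain ⟨K, c, hK⟩ := h.pol_dense b ε hε
    refine ⟨pol (iB ev) (uB ev) (Finset.Icc (-(K : ℤ)) K) c, ?_, ?_⟩
    · rw [Set.mem_ofPred_eq]
      unfold pol
      generalize Finset.Icc (-(K : ℤ)) (K : ℤ) = s
      induction s using Finset.induction_on with
      | empty =>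
        rw [Finset.sum_empty, map_zero, map_zero]
        change ⟪(lp.single 2 x ξ : lp (fun _ : ℤ => H) 2), (0 : lp (fun _ : ℤ => H) 2)⟫_ℂ = ⟪ξ, (0 : H)⟫_ℂ
        rw [inner_zero_right, inner_zero_right]
      | insert k s hk ih =>
        rw [Finset.sum_insert hk, map_add, map_add, add_apply, inner_add_right, ← ih,
          ← ModelF_mono α ev E hE (c k) k x ξ η, ← inner_add_right]
        rfl
    · rw [dist_eq_norm]
      exact hK
  exact hcl.closure_subset hmem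

end

theorem model_faithful {A H : Type} [CStarAlgebra A] [NormedAddCommGroup H]
    [InnerProductSpace ℂ H] [CompleteSpace H] (α : A ≃⋆ₐ[ℂ] A) (ev : ℤ → A →⋆ₐ[ℂ] (H →L[ℂ] H))
    (h : CP α (iB ev) (uB ev)) (E : BS ev →L[ℂ] A) (hE : IsEx α (iB ev) (uB ev) E) (b : BS ev)
    (hb : E (star b * b) = 0) : b = 0 := by
  have h1 : ∀ (x : ℤ) (ξ : H), (b : lp (fun _ : ℤ => H) 2 →L[ℂ] lp (fun _ : ℤ => H) 2)
      (lp.single 2 x ξ : lp (fun _ : ℤ => H) 2) = 0 := by
    intro x ξ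
    have h2 := ModelF_claim α ev h E hE (star b * b) x ξ ξ
    rw [hb, map_zero] at h2
    have h3 : ((star b * b : BS ev) : lp (fun _ : ℤ => H) 2 →L[ℂ] lp (fun _ : ℤ => H) 2)
        (lp.single 2 x ξ : lp (fun _ : ℤ => H) 2) =
        ContinuousLinearMap.adjoint (b : lp (fun _ : ℤ => H) 2 →L[ℂ] lp (fun _ : ℤ => H) 2)
          ((b : lp (fun _ : ℤ => H) 2 →L[ℂ] lp (fun _ : ℤ => H) 2)
            (lp.single 2 x ξ : lp (fun _ : ℤ => H) 2)) := rfl
    rw [h3, ContinuousLinearMap.adjoint_inner_right, zero_apply, inner_zero_right] at h2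
    exact inner_self_eq_zero.1 h2
  refine Subtype.ext (ContinuousLinearMap.ext fun f => ?_)
  have hs := lp.hasSum_single (E := fun _ : ℤ => H) (p := 2) (by norm_num) f
  have hs2 := hs.mapL (b : lp (fun _ : ℤ => H) 2 →L[ℂ] lp (fun _ : ℤ => H) 2)
  simp_rw [h1] at hs2
  exact (hs2.unique hasSum_zero)

end Pool.Agent.B9x.A
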