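import Pool.Agent.Lib.MP_b9c6dd_an.X.A.ModelCP
import Pool.Agent.Lib.MP_b9c6dd_an.X.A.ModelF

/-!
# A model of the crossed product with faithful expectation
-/

set_option autoImplicit false

open scoped InnerProductSpace ENNReal

namespace Pool.Agent.B9x.A

open Pool.Agent.MPb9c6dd

theorem exists_model {A H : Type} [CStarAlgebra A] [Nontrivial A] [NormedAddCommGroup H]
    [InnerProductSpace ℂ H] [CompleteSpace H] (α : A ≃⋆ₐ[ℂ] A) (ev : ℤ → A →⋆ₐ[ℂ] (H →L[ℂ] H))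
    (hcov : ∀ j a, ev j (α a) = ev (j - 1) a) (hf : ∀ a, (∀ j, ev j a = 0) → a = 0) :
    ∃ (B : Type) (_ : CStarAlgebra B) (ι : A →⋆ₐ[ℂ] B) (U : unitary B), CP α ι U ∧ Nontrivial B ∧
      ∀ E : B →L[ℂ] A, IsEx α ι U E → ∀ b : B, E (star b * b) = 0 → b = 0 := by
  have h := model_CP α ev hcov hf
  exact ⟨BS ev, instBS ev, iB ev, uB ev, h, h.inj.nontrivial,
    fun E hE b hb => model_faithful α ev h E hE b hb⟩

end Pool.Agent.B9x.A
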