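import Pool.Agent.Lib.MP_b9c6dd_an.X.A.Alg

/-!
# Job A13 (NotDP): the domination property fails

`yS : R.S`, `yS x = R.J 0 x T.y`. It is in `Coh R 0 0 0`: `J_yy` : `R.J 0 j T.y = R.J m j (yyf T.io T.y m (wd m j))` (induction on `m`, `R.J1`, definition of `wd`, `yyf`), and
`yyf ... m τ ∈ T.V m` (induction, `T.io_mem`); it codes `yS` at `j` because `wd m j' = wd m j` when `rho m j' = rho m j` (`wd_desc`).
`not_dp`: suppose `DP (alp R)`. The element `⟨yS, _⟩` is positive (`T.y = star T.y * T.y`), nonzero (`J_inj`, `T.y_ne`). So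
`∑_{j < L} a j * alp^j y * b j = 1`. Evaluate at `0`: `∑ (a j) 0 * yS (-j) * (b j) 0 = 1` in `R.HH →L R.HH`. Approximate `a j`, `b j` by elements of `A0 R` (uniformly
within `ε`); for a coherent sequence `c` and all large `m`, `c 0 = R.J m 0 F` with `F ∈ T.V m` (`exists_UU 0 w`). So for some `m` with `2 L < 3^m` there are
`A' j, B' j : T.D m` with `‖∑ J m 0 (A' j) * yS (-j) * J m 0 (B' j) - 1‖ < 1`. For `j < L`, `t m (-j) = 0 = t m 0` (`t_zero`), so `yS (-j) = J m (-j) (yyf m (wd m (-j))) =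
J m 0 (yyf m (wd m (-j)))`. So `‖∑_j A' j * yyf m (wd m (-j)) * B' j - 1‖ < 1` in `T.D m` (`J_norm`). The words `wd m (-j)`, `j < L`, are distinct
(`wd_desc`: equal words means equal `rho m`, and `rho m (-j) = -j` as `t m (-j) = 0`). Define `A τ = A' j` if `τ = wd m (-j)`, `0` if there is no such `j`: contradiction
to `T.T4 m`.
-/

set_option autoImplicit false

open scoped BoundedContinuousFunction InnerProductSpace

namespace Pool.Agent.B9x.A

variable {T : Tower} (R : Rep T)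

theorem J_yy (m : ℕ) (j : ℤ) : R.J 0 j T.y = R.J m j (yyf T.io T.y m (wd m j)) := by
  induction m with
  | zero => rfl
  | succ m ih =>
    rw [ih, R.J1]
    rfl

theorem notDP_yyf_mem (T : Tower) : ∀ (m : ℕ) (τ : Tl m), yyf T.io T.y m τ ∈ T.V m
  | 0, _ => T.y_mem
  | m + 1, τ => T.io_mem m τ.1 _ (notDP_yyf_mem T m τ.2)

/-- The sequence of the images of the projection. -/
noncomputable def notDP_yS : R.S :=
  BoundedContinuousFunction.ofNormedAddCommGroup (fun x => R.J 0 x T.y)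
    continuous_of_discreteTopology ‖T.y‖ (fun x => (J_norm 0 x T.y).le)

theorem notDP_yS_apply (x : ℤ) : notDP_yS R x = R.J 0 x T.y := rfl

theorem notDP_yS_mem : notDP_yS R ∈ A0 R := by
  refine (mem_A0 R).mpr ⟨0, 0, 0, ?_⟩
  intro i _ j _
  refine ⟨yyf T.io T.y (i + 0) (wd (i + 0) j), notDP_yyf_mem T _ _, ?_⟩
  intro j' hj'
  rw [notDP_yS_apply, J_yy R (i + 0) j', (wd_desc _ _ _).mpr hj']

theorem notDP_coded {c : R.S} (hc : c ∈ A0 R) :
    ∃ N : ℕ, ∀ m, N ≤ m → ∃ F : T.D m, c 0 = R.J m 0 F := by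
  obtain ⟨i0, w, d, h⟩ := (mem_A0 R).mp hc
  obtain ⟨i1, h1⟩ := exists_UU 0 (w : ℤ) (by positivity)
  refine ⟨max i0 i1 + d, fun m hm => ?_⟩
  obtain ⟨i, rfl⟩ : ∃ i, m = i + d := ⟨m - d, by omega⟩
  have hi0 : i0 ≤ i := by omega
  have hi1 : i1 ≤ i := by omega
  obtain ⟨F, _, hF⟩ := h i hi0 0 (h1 i hi1)
  exact ⟨F, hF 0 rfl⟩

theorem not_dp : ¬ Pool.Agent.MPb9c6dd.DP (alp R) := by
  intro hDP
  have hymem : notDP_yS R ∈ (A0 R).topologicalClosure := (A0 R).le_topologicalClosure (notDP_yS_mem R)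
  have hpos : Pool.Agent.MPb9c6dd.IsPos (⟨notDP_yS R, hymem⟩ : AT R) := by
    refine ⟨⟨notDP_yS R, hymem⟩, ?_⟩
    apply Subtype.ext
    ext x : 1
    change R.J 0 x T.y = star (R.J 0 x T.y) * R.J 0 x T.y
    rw [← map_star, ← map_mul, T.y_sa, T.y_idem]
  have hne : (⟨notDP_yS R, hymem⟩ : AT R) ≠ 0 := by
    intro h0
    have h1 : notDP_yS R = 0 := congrArg Subtype.val h0
    have h2 : notDP_yS R 0 = 0 := by rw [h1]; rfl
    rw [notDP_yS_apply] at h2
    exact T.y_ne ((map_eq_zero_iff (R.J 0 0) (R.J_inj 0 0)).mp h2)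
  obtain ⟨L, a, b, hab⟩ := hDP _ hpos hne
  -- the shifted copies
  let Y : Fin L → R.S := fun j => (((alp R) ^ (j : ℕ)) (⟨notDP_yS R, hymem⟩ : AT R)).1
  have hY : ∀ j : Fin L, Y j 0 = R.J 0 (-(j : ℤ)) T.y := by
    intro j
    have h1 := alp_zpow_apply R ((j : ℕ) : ℤ) (⟨notDP_yS R, hymem⟩ : AT R) 0
    rw [zpow_natCast, zero_sub] at h1
    exact h1
  have hsum : ∑ j : Fin L, (a j).1 * Y j * (b j).1 = 1 := by
    have h1 := congrArg (Subtype.val : AT R → R.S) hab
    have h2 : ((∑ j : Fin L, a j * ((alp R) ^ (j : ℕ)) (⟨notDP_yS R, hymem⟩ : AT R) * b j : AT R)).1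
        = ∑ j : Fin L, (a j).1 * Y j * (b j).1 := by
      exact map_sum ((A0 R).topologicalClosure.subtype) _ _
    rw [← h2]
    exact h1
  -- approximation by coherent sequences
  obtain ⟨a', b', ha', hb', hlt⟩ : ∃ a' b' : Fin L → R.S, (∀ j, a' j ∈ A0 R) ∧ (∀ j, b' j ∈ A0 R) ∧
      ‖∑ j : Fin L, a' j * Y j * b' j - 1‖ < 1 := by
    let U : Set ((Fin L → R.S) × (Fin L → R.S)) :=
      {p | ‖∑ j : Fin L, p.1 j * Y j * p.2 j - 1‖ < 1}
    have hU : IsOpen U := by
      refine isOpen_lt ?_ continuous_const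
      fun_prop
    have hin : ((fun j => (a j).1, fun j => (b j).1) : (Fin L → R.S) × (Fin L → R.S)) ∈ U := by
      change ‖∑ j : Fin L, (a j).1 * Y j * (b j).1 - 1‖ < 1
      rw [hsum, sub_self, norm_zero]
      exact one_pos
    have hcl : ((fun j => (a j).1, fun j => (b j).1) : (Fin L → R.S) × (Fin L → R.S)) ∈
        closure ((Set.pi Set.univ fun _ : Fin L => {c : R.S | c ∈ A0 R}) ×ˢ
          (Set.pi Set.univ fun _ : Fin L => {c : R.S | c ∈ A0 R})) := by
      rw [closure_prod_eq, closure_pi_set]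
      exact ⟨fun j _ => (a j).2, fun j _ => (b j).2⟩
    obtain ⟨p, hpU, hp⟩ := mem_closure_iff.mp hcl U hU hin
    exact ⟨p.1, p.2, fun j => hp.1 j (Set.mem_univ j), fun j => hp.2 j (Set.mem_univ j), hpU⟩
  -- a common level
  choose N hN using fun j => notDP_coded R (ha' j)
  choose N' hN' using fun j => notDP_coded R (hb' j)
  let m : ℕ := 2 * L + ∑ j, N j + ∑ j, N' j
  have hNm : ∀ j, N j ≤ m := fun j => by
    have := Finset.single_le_sum (f := N) (fun i _ => Nat.zero_le _) (Finset.mem_univ j)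
    omega
  have hNm' : ∀ j, N' j ≤ m := fun j => by
    have := Finset.single_le_sum (f := N') (fun i _ => Nat.zero_le _) (Finset.mem_univ j)
    omega
  choose FA hFA using fun j => hN j m (hNm j)
  choose FB hFB using fun j => hN' j m (hNm' j)
  have hm3 : 2 * L < 3 ^ m := by
    have h1 : m < 3 ^ m := Nat.lt_pow_self (by norm_num)
    omega
  have ht : ∀ j : Fin L, t m (-(j : ℤ)) = 0 := by
    intro j
    apply t_zero
    have h1 : ((2 * L : ℕ) : ℤ) < ((3 ^ m : ℕ) : ℤ) := by exact_mod_cast hm3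
    have h2 := j.2
    rw [abs_neg, Nat.abs_cast]
    push_cast at h1
    have h3 : ((j : ℕ) : ℤ) < (L : ℤ) := by exact_mod_cast h2
    linarith
  have ht0 : t m 0 = 0 := by
    apply t_zero
    simp
  have hphi : Function.Injective (fun j : Fin L => wd m (-(j : ℤ))) := by
    intro j j' h
    have h1 := (wd_desc m (-(j' : ℤ)) (-(j : ℤ))).mp h
    have h2 : -(j : ℤ) = -(j' : ℤ) := by
      unfold rho at h1
      rw [ht, ht] at h1
      linarith
    apply Fin.ext
    have h3 : ((j : ℕ) : ℤ) = ((j' : ℕ) : ℤ) := neg_injective h2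
    exact_mod_cast h3
  have hYj : ∀ j : Fin L, Y j 0 = R.J m 0 (yyf T.io T.y m (wd m (-(j : ℤ)))) := by
    intro j
    rw [hY, J_yy R m, R.J2 m (-(j : ℤ)) 0 (by rw [ht, ht0])]
  have hlt2 : ‖∑ j : Fin L, FA j * yyf T.io T.y m (wd m (-(j : ℤ))) * FB j - 1‖ < 1 := by
    rw [← J_norm (R := R) m 0]
    have h1 : R.J m 0 (∑ j : Fin L, FA j * yyf T.io T.y m (wd m (-(j : ℤ))) * FB j - 1)
        = (∑ j : Fin L, a' j * Y j * b' j - 1) 0 := by
      rw [map_sub, map_sum, map_one, BoundedContinuousFunction.sub_apply,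
        BoundedContinuousFunction.sum_apply]
      congr 1
      refine Finset.sum_congr rfl fun j _ => ?_
      rw [map_mul, map_mul]
      change _ = a' j 0 * Y j 0 * b' j 0
      rw [hFA, hFB, hYj]
    rw [h1]
    exact lt_of_le_of_lt (BoundedContinuousFunction.norm_coe_le_norm _ 0) hlt
  have hT4 := T.T4 m (Function.extend (fun j : Fin L => wd m (-(j : ℤ))) FA 0)
    (Function.extend (fun j : Fin L => wd m (-(j : ℤ))) FB 0)
  have hsum2 : ∑ j : Fin L, FA j * yyf T.io T.y m (wd m (-(j : ℤ))) * FB j =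
      ∑ τ, Function.extend (fun j : Fin L => wd m (-(j : ℤ))) FA 0 τ * yyf T.io T.y m τ *
        Function.extend (fun j : Fin L => wd m (-(j : ℤ))) FB 0 τ := by
    refine Fintype.sum_of_injective (fun j : Fin L => wd m (-(j : ℤ))) hphi _ _ ?_ ?_
    · intro τ hτ
      rw [Function.extend_apply' _ _ _ (fun ⟨j, hj⟩ => hτ ⟨j, hj⟩)]
      simp
    · intro j
      rw [hphi.extend_apply, hphi.extend_apply]
  rw [← hsum2] at hT4
  exact absurd hlt2 (not_lt.mpr hT4)

end Pool.Agent.B9x.A
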