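import Pool.Agent.Lib.MP_b9c6dd_an.X.A.Alg
import Pool.Agent.Lib.MP_b9c6dd_an.X.A.Hat

/-!
# Job A6 (Rokh): periodic scalar sequences, Rokhlin dimension, eigen-unitaries

`scal_mem`: for `i ≥ m`, `j`: `φ j • 1` codes at `j` on level `i`: `rho i j' = rho i j` means `j' = j + 3^i k`, so `φ j' = φ j` by periodicity (`m ≤ i`). So it is in
`Coh R m 0 0`.
`rokh`: use `hat q (ε / 2)` and `f l j = scal (fun x => φ l j x)`, `= star g * g` with `g = scal (√(φ l j x))`.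
`eig`: `N = 3^m`, `ζ = exp (2 π i / N)`, `v = scal (fun x => ζ ^ (-x))` is a unitary, commutes with everything, `alp v = ζ • v` as
`ζ ^ (-(x - 1)) = ζ * ζ ^ (-x)`.
-/

set_option autoImplicit false

open scoped BoundedContinuousFunction InnerProductSpace

namespace Pool.Agent.B9x.A

variable {T : Tower} (R : Rep T)

/-- Scalar sequences. -/
noncomputable def scal (φ : ℤ → ℂ) (h : ∀ x, ‖φ x‖ ≤ 1) : R.S :=
  BoundedContinuousFunction.ofNormedAddCommGroup (fun x => φ x • (1 : R.HH →L[ℂ] R.HH))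
    continuous_of_discreteTopology 1 (by
      intro x
      rw [norm_smul]
      have h1 : ‖(1 : R.HH →L[ℂ] R.HH)‖ ≤ 1 := ContinuousLinearMap.norm_id_le
      calc ‖φ x‖ * ‖(1 : R.HH →L[ℂ] R.HH)‖ ≤ 1 * 1 :=
            mul_le_mul (h x) h1 (norm_nonneg _) zero_le_one
        _ = 1 := one_mul 1)

theorem scal_apply (φ : ℤ → ℂ) (h : ∀ x, ‖φ x‖ ≤ 1) (x : ℤ) : scal R φ h x = φ x • 1 := rfl

theorem scal_mem (φ : ℤ → ℂ) (h : ∀ x, ‖φ x‖ ≤ 1) (m : ℕ) (hp : ∀ x, φ (x + 3 ^ m) = φ x) :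
    scal R φ h ∈ A0 R := by
  have hper : Function.Periodic φ ((3 : ℤ) ^ m) := hp
  refine (mem_A0 R).2 ⟨m, 0, 0, fun i hi j _ => ⟨φ j • 1, Submodule.smul_mem _ _ (T.one_mem _), fun j' hj' => ?_⟩⟩
  have h1 : φ j' = φ j := by
    have h2 : rho i j' = rho i j := hj'
    unfold rho at h2
    obtain ⟨k, rfl⟩ := Nat.exists_eq_add_of_le hi
    have h3 : j' = j + ((3 : ℤ) ^ k * (t (m + k) j' - t (m + k) j)) * (3 : ℤ) ^ m := by
      rw [pow_add] at h2
      linarith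
    rw [h3]
    exact (hper.int_mul _) j
  rw [scal_apply, h1, map_smul, map_one]

private theorem rk_norm (a : AT R) : ‖a‖ = ‖a.1‖ := rfl

private theorem rk_norm_le {a : AT R} {C : ℝ} (hC : 0 ≤ C) (h : ∀ x, ‖a.1 x‖ ≤ C) : ‖a‖ ≤ C := by
  rw [rk_norm]
  exact (BoundedContinuousFunction.norm_le hC).2 h

private theorem rk_ext {a b : AT R} (h : ∀ x, a.1 x = b.1 x) : a = b := by
  apply Subtype.ext
  ext x : 1
  exact h x

/-- Scalar sequences as elements of the algebra. -/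
private noncomputable def rk (φ : ℤ → ℂ) (h : ∀ x, ‖φ x‖ ≤ 1) (m : ℕ) (hp : ∀ x, φ (x + 3 ^ m) = φ x) : AT R :=
  ⟨scal R φ h, (A0 R).le_topologicalClosure (scal_mem R φ h m hp)⟩

private theorem rk_apply (φ : ℤ → ℂ) (h : ∀ x, ‖φ x‖ ≤ 1) (m : ℕ) (hp : ∀ x, φ (x + 3 ^ m) = φ x) (x : ℤ) :
    (rk R φ h m hp).1 x = φ x • 1 := rfl

private theorem rk_mul_apply (a b : AT R) (x : ℤ) : (a * b).1 x = a.1 x * b.1 x := rfl

private theorem rk_star_apply (a : AT R) (x : ℤ) : (star a).1 x = star (a.1 x) := rfl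

private theorem rk_sub_apply (a b : AT R) (x : ℤ) : (a - b).1 x = a.1 x - b.1 x := rfl

private theorem rk_smul_apply (r : ℂ) (a : AT R) (x : ℤ) : (r • a).1 x = r • a.1 x := rfl

private theorem rk_one_apply (x : ℤ) : (1 : AT R).1 x = 1 := rfl

/-- Evaluation. -/
private noncomputable def rkEv (x : ℤ) : AT R →+ (R.HH →L[ℂ] R.HH) where
  toFun a := a.1 x
  map_zero' := rfl
  map_add' _ _ := rfl

private theorem rk_comm (φ : ℤ → ℂ) (h : ∀ x, ‖φ x‖ ≤ 1) (m : ℕ) (hp : ∀ x, φ (x + 3 ^ m) = φ x) (a : AT R) :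
    rk R φ h m hp * a = a * rk R φ h m hp := by
  apply rk_ext
  intro x
  rw [rk_mul_apply, rk_mul_apply, rk_apply, smul_one_mul, mul_smul_one]

private theorem rk_norm_smul_one (c : ℂ) : ‖c • (1 : R.HH →L[ℂ] R.HH)‖ ≤ ‖c‖ := by
  rw [norm_smul]
  have h1 : ‖(1 : R.HH →L[ℂ] R.HH)‖ ≤ 1 := ContinuousLinearMap.norm_id_le
  exact mul_le_of_le_one_right (norm_nonneg _) h1

theorem rokh : Pool.Agent.MPb9c6dd.Rok (alp R) 1 := by
  intro F ε hε q
  obtain ⟨m, φ, hper, hφ, horth, hsh, hsum⟩ := hat q (ε / 2) (by linarith)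
  have hn : ∀ l j x, ‖((φ l j x : ℝ) : ℂ)‖ ≤ 1 := by
    intro l j x
    rw [Complex.norm_real, Real.norm_of_nonneg (hφ l j x).1]
    exact (hφ l j x).2
  have hn' : ∀ l j x, ‖((Real.sqrt (φ l j x) : ℝ) : ℂ)‖ ≤ 1 := by
    intro l j x
    rw [Complex.norm_real, Real.norm_of_nonneg (Real.sqrt_nonneg _)]
    exact Real.sqrt_le_one.2 (hφ l j x).2
  have hp : ∀ l j x, ((φ l j (x + 3 ^ m) : ℝ) : ℂ) = ((φ l j x : ℝ) : ℂ) := fun l j x => by rw [hper]
  have hp' : ∀ l j x, ((Real.sqrt (φ l j (x + 3 ^ m)) : ℝ) : ℂ) = ((Real.sqrt (φ l j x) : ℝ) : ℂ) := fun l j x => by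
    rw [hper]
  refine ⟨fun l j => rk R (fun x => ((φ l j x : ℝ) : ℂ)) (hn l j) m (hp l j), ?_, ?_, ?_, ?_, ?_, ?_⟩
  · intro l j
    refine ⟨⟨rk R (fun x => ((Real.sqrt (φ l j x) : ℝ) : ℂ)) (hn' l j) m (hp' l j), ?_⟩, ?_⟩
    · apply rk_ext
      intro x
      rw [rk_mul_apply, rk_star_apply, rk_apply, rk_apply, star_smul, star_one, smul_one_mul, smul_smul]
      congr 1
      have h1 : star ((Real.sqrt (φ l j x) : ℝ) : ℂ) = ((Real.sqrt (φ l j x) : ℝ) : ℂ) := Complex.conj_ofReal _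
      rw [h1, ← Complex.ofReal_mul, Real.mul_self_sqrt (hφ l j x).1]
    · apply rk_norm_le R zero_le_one
      intro x
      rw [rk_apply]
      exact (rk_norm_smul_one R _).trans (hn l j x)
  · intro l j k hjk
    have h1 : rk R (fun x => ((φ l j x : ℝ) : ℂ)) (hn l j) m (hp l j) *
        rk R (fun x => ((φ l k x : ℝ) : ℂ)) (hn l k) m (hp l k) = 0 := by
      apply rk_ext
      intro x
      rw [rk_mul_apply, rk_apply, rk_apply, smul_one_mul, smul_smul, ← Complex.ofReal_mul, horth l j k x hjk,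
        Complex.ofReal_zero, zero_smul]
      rfl
    simp only []
    rw [h1, norm_zero]
    exact hε
  · intro l j
    refine lt_of_le_of_lt (rk_norm_le R (C := ε / 2) (by linarith) fun x => ?_) (by linarith)
    rw [rk_sub_apply, alp_apply, rk_apply, rk_apply, ← sub_smul, ← Complex.ofReal_sub]
    refine (rk_norm_smul_one R _).trans ?_
    rw [Complex.norm_real]
    exact hsh l j x
  · have h1 : ∑ l, ∑ j, rk R (fun x => ((φ l j x : ℝ) : ℂ)) (hn l j) m (hp l j) = 1 := by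
      apply rk_ext
      intro x
      have h2 : (∑ l, ∑ j, rk R (fun x => ((φ l j x : ℝ) : ℂ)) (hn l j) m (hp l j)).1 x =
          rkEv R x (∑ l, ∑ j, rk R (fun x => ((φ l j x : ℝ) : ℂ)) (hn l j) m (hp l j)) := rfl
      rw [h2]
      simp only [map_sum]
      have h3 : ∀ l j, rkEv R x (rk R (fun x => ((φ l j x : ℝ) : ℂ)) (hn l j) m (hp l j)) =
          ((φ l j x : ℝ) : ℂ) • (1 : R.HH →L[ℂ] R.HH) := fun l j => rfl
      simp only [h3, ← Finset.sum_smul, ← Complex.ofReal_sum]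
      rw [hsum, Complex.ofReal_one, one_smul, rk_one_apply]
    rw [h1, sub_self, norm_zero]
    exact hε
  · intro l j a _
    rw [rk_comm, sub_self, norm_zero]
    exact hε
  · intro l l' j k
    rw [rk_comm, sub_self, norm_zero]
    exact hε

theorem eig (K : ℕ) : ∃ N : ℕ, K < N ∧ ∃ ζ : ℂ, IsPrimitiveRoot ζ N ∧ ∃ v : AT R,
    v ∈ unitary (AT R) ∧ (∀ a : AT R, v * a = a * v) ∧ alp R v = ζ • v := by
  have hK : K < 3 ^ K := Nat.lt_pow_self (by norm_num)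
  have hN : (3 ^ K : ℕ) ≠ 0 := by positivity
  refine ⟨3 ^ K, hK, Complex.exp (2 * Real.pi * Complex.I / (3 ^ K : ℕ)), Complex.isPrimitiveRoot_exp _ hN, ?_⟩
  set ζ := Complex.exp (2 * Real.pi * Complex.I / (3 ^ K : ℕ)) with hζ
  have hprim : IsPrimitiveRoot ζ (3 ^ K) := Complex.isPrimitiveRoot_exp _ hN
  have h0 : ζ ≠ 0 := Complex.exp_ne_zero _
  have h1 : ‖ζ‖ = 1 := Complex.norm_eq_one_of_pow_eq_one hprim.pow_eq_one hN
  have hn : ∀ x : ℤ, ‖ζ ^ (-x)‖ = 1 := by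
    intro x
    rw [norm_zpow, h1, one_zpow]
  have hp : ∀ x : ℤ, ζ ^ (-(x + 3 ^ K)) = ζ ^ (-x) := by
    intro x
    have h2 : ζ ^ ((3 : ℤ) ^ K) = 1 := by
      have h3 : ((3 : ℤ) ^ K) = ((3 ^ K : ℕ) : ℤ) := by push_cast; rfl
      rw [h3, zpow_natCast]
      exact hprim.pow_eq_one
    rw [neg_add, zpow_add₀ h0, zpow_neg ζ ((3 : ℤ) ^ K), h2, inv_one, mul_one]
  have hconj : ∀ x : ℤ, star (ζ ^ (-x)) * ζ ^ (-x) = 1 := by
    intro x
    have h2 := Complex.conj_mul' (ζ ^ (-x))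
    rw [hn x] at h2
    simpa using h2
  refine ⟨rk R (fun x => ζ ^ (-x)) (fun x => (hn x).le) K hp, ?_, fun a => rk_comm R _ _ _ _ a, ?_⟩
  · rw [Unitary.mem_iff]
    have h3 : star (rk R (fun x => ζ ^ (-x)) (fun x => (hn x).le) K hp) *
        rk R (fun x => ζ ^ (-x)) (fun x => (hn x).le) K hp = 1 := by
      apply rk_ext
      intro x
      rw [rk_mul_apply, rk_star_apply, rk_apply, star_smul, star_one, smul_one_mul, smul_smul, hconj, one_smul,
        rk_one_apply]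
    refine ⟨h3, ?_⟩
    rw [rk_comm]
    exact h3
  · apply rk_ext
    intro x
    rw [alp_apply, rk_smul_apply, rk_apply, rk_apply, smul_smul]
    congr 1
    have h4 : -(x - 1) = 1 + -x := by ring
    rw [h4, zpow_add₀ h0, zpow_one]

end Pool.Agent.B9x.A
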