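import Pool.Agent.Lib.MP_b9c6dd_an.Expect

/-!
# Job A12 (Simple): simplicity of the crossed product

Let `I` be a nonzero two sided ideal, `b ∈ I`, `b ≠ 0`, `x = star b * b`, `a = E x`; `a ≠ 0` by faithfulness, `a = star g * g` (`hE.pos`), `g ≠ 0`. By `hfull` for `g` we have
`n, r, s, κ`. Let `C = ∑ ‖r q‖^2 + 1`, `ε = κ / (8 C)`. By `CP.pol_dense` there is a polynomial `f = pol ι U (Icc (-K) K) c` with `‖x - f‖ < ε`, so
`‖a - c 0‖ ≤ ε` (`E f = c 0`). `heig K` gives `N > K`, `ζ`, `v`. Put `Φ y = (1/N) ∑_{j < N} ι (v^j) * y * ι (star v ^ j)`: `Φ x ∈ I`, `‖Φ y‖ ≤ ‖y‖`. `Φ f = ι (c 0)`: since `v` is central in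
`A` and `U^k ι (star v ^ j) = ι (α^k (star v ^ j)) U^k`, `α^k v = ζ^k • v`, we get `Φ (ι (c k) U^k) = (1/N) ∑_j ζ^{-jk} ι (c k) U^k = 0` for
`0 < |k| < N` (geometric sum). So `‖Φ x - ι a‖ ≤ 2 ε`. Finally `Z = ∑_q ι (star (r q)) * U^{s q} * Φ x * U^{-s q} * ι (r q) ∈ I` and
`‖Z - κ‖ ≤ κ / 2 + 2 ε C < κ` so `Z` is a unit and `I = ⊤`.
-/

set_option autoImplicit false

namespace Pool.Agent.B9x.A

open Pool.Agent.MPb9c6dd

variable {A B : Type} [CStarAlgebra A] [CStarAlgebra B] {α : A ≃⋆ₐ[ℂ] A}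
  {ι : A →⋆ₐ[ℂ] B} {U : unitary B}

/-- sums of roots of unity -/
private theorem Simple_root {ω : ℂ} {N : ℕ} (hω : IsPrimitiveRoot ω N) (hN : 0 < N) {k : ℤ}
    (hk : |k| < N) : (N : ℂ)⁻¹ * ∑ j ∈ Finset.range N, (ω ^ k) ^ j = if k = 0 then 1 else 0 := by
  have hN' : (N : ℂ) ≠ 0 := by exact_mod_cast hN.ne'
  split_ifs with h0
  · subst h0
    simp [hN']
  · have h2 : ω ^ k ≠ 1 := by
      intro h
      rw [hω.zpow_eq_one_iff_dvd] at h
      exact h0 (Int.eq_zero_of_abs_lt_dvd h hk)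
    have h3 : (ω ^ k) ^ N = 1 := by
      rw [← zpow_natCast, ← zpow_mul, mul_comm, zpow_mul, zpow_natCast, hω.pow_eq_one, one_zpow]
    have h4 := mul_geom_sum (ω ^ k) N
    rw [h3, sub_self] at h4
    rcases mul_eq_zero.1 h4 with h5 | h5
    · exact absurd (sub_eq_zero.1 h5) h2
    · rw [h5, mul_zero]

/-- powers of the automorphism on an eigenvector -/
private theorem Simple_eig {ζ : ℂ} (hζ : ζ ≠ 0) {v : A} (hv : α v = ζ • v) (k : ℤ) :
    (α ^ k) v = ζ ^ k • v := by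
  induction k using Int.induction_on with
  | zero => rw [zpow_zero, zpow_zero, one_smul]; rfl
  | succ k ih =>
    rw [aut_add, zpow_one, hv, map_smul, ih, smul_smul, zpow_add₀ hζ, zpow_one, mul_comm]
  | pred k ih =>
    have h1 : (α ^ (-1 : ℤ)) v = ζ⁻¹ • v := by
      rw [zpow_neg_one]
      show α.symm v = ζ⁻¹ • v
      have h2 : α (ζ⁻¹ • v) = v := by
        rw [map_smul, hv, smul_smul, inv_mul_cancel₀ hζ, one_smul]
      nth_rewrite 1 [← h2]
      exact α.symm_apply_apply _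
    have e : (-(k : ℤ) - 1) = -(k : ℤ) + (-1) := by ring
    rw [e, aut_add, h1, map_smul, ih, smul_smul, zpow_add₀ hζ, zpow_neg_one, mul_comm]

private theorem Simple_conj (h : CP α ι U) (k : ℤ) (a : A) :
    upw U k * ι a * upw U (-k) = ι ((α ^ k) a) := by
  rw [h.upw_mul_ι, mul_assoc, ← upw_add, add_neg_cancel, upw_zero, mul_one]

private theorem Simple_upw_norm [Nontrivial B] (k : ℤ) : ‖upw U k‖ = 1 :=
  CStarRing.norm_of_mem_unitary (U ^ k).2

theorem simple_of (h : CP α ι U) [Nontrivial B] {E : B →L[ℂ] A} (hE : IsEx α ι U E)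
    (hf : ∀ b : B, E (star b * b) = 0 → b = 0)
    (heig : ∀ K : ℕ, ∃ N : ℕ, K < N ∧ ∃ ζ : ℂ, IsPrimitiveRoot ζ N ∧ ∃ v : A,
      v ∈ unitary A ∧ (∀ a : A, v * a = a * v) ∧ α v = ζ • v)
    (hfull : ∀ a : A, a ≠ 0 → ∃ (n : ℕ) (r : Fin n → A) (s : Fin n → ℤ) (κ : ℝ),
      0 < κ ∧ ‖∑ q, star (r q) * (α ^ (s q)) (star a * a) * r q - (κ : ℂ) • (1 : A)‖ ≤ κ / 2) :
    IsSimpleRing B := by
  classical
  have hιn : ∀ a, ‖ι a‖ = ‖a‖ := fun a => NonUnitalStarAlgHom.norm_map ι h.inj a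
  refine ⟨⟨fun I => ?_⟩⟩
  by_cases hI : I = ⊥
  · exact Or.inl hI
  right
  obtain ⟨b, hbI, hb0⟩ : ∃ b ∈ I, b ≠ 0 := by
    by_contra hcon
    push Not at hcon
    apply hI
    refine le_antisymm (fun y hy => ?_) bot_le
    rw [TwoSidedIdeal.mem_bot]
    exact hcon y hy
  set x : B := star b * b with hx
  have hxI : x ∈ I := I.mul_mem_left _ _ hbI
  obtain ⟨g, hg⟩ := hE.pos b
  have hg0 : g ≠ 0 := by
    intro h0
    apply hb0
    apply hf
    rw [hg, h0, mul_zero]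
  obtain ⟨n, r, s, κ, hκ, hr⟩ := hfull g hg0
  rw [← hg] at hr
  set C : ℝ := ∑ q, ‖r q‖ ^ 2 + 1 with hC
  have hCpos : 0 < C := by positivity
  set ε : ℝ := κ / (8 * C) with hε
  have hεpos : 0 < ε := by positivity
  obtain ⟨K, c, hc⟩ := h.pol_dense x ε hεpos
  set f : B := pol ι U (Finset.Icc (-(K : ℤ)) K) c with hfdef
  have hEf : E f = c 0 := by
    rw [hfdef]
    unfold pol
    rw [map_sum]
    have h1 : ∀ k ∈ Finset.Icc (-(K : ℤ)) K, E (ι (c k) * upw U k) = if k = 0 then c k else 0 := by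
      intro k _
      rw [hE.ι_mul, hE.pw]
      split_ifs <;> simp
    rw [Finset.sum_congr rfl h1, Finset.sum_ite_eq', if_pos]
    rw [Finset.mem_Icc]
    omega
  have hac : ‖E x - c 0‖ ≤ ε := by
    rw [← hEf, ← map_sub]
    exact (hE.norm_le _).trans hc.le
  obtain ⟨N, hKN, ζ, hζ, v, hvu, hvc, hαv⟩ := heig K
  have hN : 0 < N := by omega
  have hζ0 : ζ ≠ 0 := hζ.ne_zero hN.ne'
  have hζn : ‖ζ‖ = 1 := Complex.norm_eq_one_of_pow_eq_one hζ.pow_eq_one hN.ne'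
  have hvj : ∀ j : ℕ, v ^ j ∈ unitary A := fun j => pow_mem hvu j
  -- the averaging map
  set Φ : B → B := fun y => (N : ℂ)⁻¹ • ∑ j ∈ Finset.range N, ι (v ^ j) * y * ι (star (v ^ j)) with hΦ
  have hsmulI : ∀ (z : ℂ) (y : B), y ∈ I → z • y ∈ I := by
    intro z y hy
    rw [← one_mul y, ← smul_mul_assoc]
    exact I.mul_mem_left _ _ hy
  have hsumI : ∀ {J : Type} (t : Finset J) (F : J → B), (∀ j ∈ t, F j ∈ I) → ∑ j ∈ t, F j ∈ I :=
    fun t F hF => sum_mem hF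
  have hΦI : Φ x ∈ I := by
    refine hsmulI _ _ (hsumI _ _ fun j _ => ?_)
    exact I.mul_mem_right _ _ (I.mul_mem_left _ _ hxI)
  have hΦn : ∀ y, ‖Φ y‖ ≤ ‖y‖ := by
    intro y
    rw [hΦ]
    simp only
    rw [norm_smul, norm_inv, Complex.norm_natCast]
    have hA : Nontrivial A := ι.toRingHom.domain_nontrivial
    have h1 : ∀ j ∈ Finset.range N, ‖ι (v ^ j) * y * ι (star (v ^ j))‖ ≤ ‖y‖ := by
      intro j _
      have h2 : ‖ι (v ^ j)‖ = 1 := by rw [hιn]; exact CStarRing.norm_of_mem_unitary (hvj j)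
      have h3 : ‖ι (star (v ^ j))‖ = 1 := by rw [hιn, norm_star]; exact CStarRing.norm_of_mem_unitary (hvj j)
      calc ‖ι (v ^ j) * y * ι (star (v ^ j))‖ ≤ ‖ι (v ^ j) * y‖ * ‖ι (star (v ^ j))‖ := norm_mul_le _ _
        _ ≤ (‖ι (v ^ j)‖ * ‖y‖) * ‖ι (star (v ^ j))‖ :=
            mul_le_mul_of_nonneg_right (norm_mul_le _ _) (norm_nonneg _)
        _ = ‖y‖ := by rw [h2, h3, one_mul, mul_one]
    have h4 : ‖∑ j ∈ Finset.range N, ι (v ^ j) * y * ι (star (v ^ j))‖ ≤ N * ‖y‖ := by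
      refine (norm_sum_le _ _).trans ((Finset.sum_le_sum h1).trans ?_)
      simp
    have hN' : (0 : ℝ) < N := by exact_mod_cast hN
    calc (N : ℝ)⁻¹ * ‖∑ j ∈ Finset.range N, ι (v ^ j) * y * ι (star (v ^ j))‖ ≤ (N : ℝ)⁻¹ * (N * ‖y‖) :=
          mul_le_mul_of_nonneg_left h4 (by positivity)
      _ = ‖y‖ := by field_simp
  have hΦsub : ∀ y w, Φ (y - w) = Φ y - Φ w := by
    intro y w
    simp only [hΦ, mul_sub, sub_mul, Finset.sum_sub_distrib, smul_sub]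
  have hΦsum : ∀ (t : Finset ℤ) (F : ℤ → B), Φ (∑ k ∈ t, F k) = ∑ k ∈ t, Φ (F k) := by
    intro t F
    simp only [hΦ, Finset.mul_sum, Finset.sum_mul]
    rw [Finset.sum_comm, Finset.smul_sum]
  have hΦmon : ∀ (a : A) (k : ℤ), |k| < N → Φ (ι a * upw U k) = if k = 0 then ι a else 0 := by
    intro a k hk
    have h1 : ∀ j ∈ Finset.range N, ι (v ^ j) * (ι a * upw U k) * ι (star (v ^ j)) =
        ((ζ⁻¹ ^ k) ^ j) • (ι a * upw U k) := by
      intro j _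
      have h2 : (α ^ k) (star (v ^ j)) = ((ζ⁻¹ ^ k) ^ j) • star (v ^ j) := by
        rw [map_star, map_pow, Simple_eig hζ0 hαv, smul_pow, star_smul]
        congr 1
        rw [Complex.star_def, map_pow, map_zpow₀, ← Complex.inv_eq_conj hζn]
      have hcomm : v ^ j * a = a * v ^ j := (show Commute v a from hvc a).pow_left j
      calc ι (v ^ j) * (ι a * upw U k) * ι (star (v ^ j))
          = ι (v ^ j) * ι a * (upw U k * ι (star (v ^ j))) := by simp only [mul_assoc]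
        _ = ι (v ^ j) * ι a * (ι (((ζ⁻¹ ^ k) ^ j) • star (v ^ j)) * upw U k) := by rw [h.upw_mul_ι, h2]
        _ = ι (v ^ j * a * (((ζ⁻¹ ^ k) ^ j) • star (v ^ j))) * upw U k := by
            rw [map_mul, map_mul]; simp only [mul_assoc]
        _ = ι (((ζ⁻¹ ^ k) ^ j) • a) * upw U k := by
            rw [mul_smul_comm, hcomm, mul_assoc, Unitary.mul_star_self_of_mem (hvj j), mul_one]
        _ = ((ζ⁻¹ ^ k) ^ j) • (ι a * upw U k) := by rw [map_smul, smul_mul_assoc]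
    simp only [hΦ]
    rw [Finset.sum_congr rfl h1, ← Finset.sum_smul, smul_smul, Simple_root hζ.inv hN hk]
    split_ifs with h0
    · rw [h0, upw_zero, mul_one, one_smul]
    · rw [zero_smul]
  have hΦf : Φ f = ι (c 0) := by
    rw [hfdef]
    unfold pol
    rw [hΦsum]
    have h1 : ∀ k ∈ Finset.Icc (-(K : ℤ)) K, Φ (ι (c k) * upw U k) = if k = 0 then ι (c k) else 0 := by
      intro k hk
      rw [Finset.mem_Icc] at hk
      refine hΦmon _ _ ?_
      rw [abs_lt]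
      omega
    rw [Finset.sum_congr rfl h1, Finset.sum_ite_eq', if_pos]
    rw [Finset.mem_Icc]
    omega
  have hΦx : ‖Φ x - ι (E x)‖ ≤ 2 * ε := by
    have h1 : Φ x - ι (E x) = Φ (x - f) - ι (E x - c 0) := by
      rw [hΦsub, hΦf, map_sub]
      abel
    rw [h1]
    refine (norm_sub_le _ _).trans ?_
    rw [hιn]
    have h2 := (hΦn (x - f)).trans hc.le
    linarith
  -- the element of the ideal
  set Z : B := ∑ q, ι (star (r q)) * (upw U (s q) * Φ x * upw U (-(s q))) * ι (r q) with hZ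
  have hZI : Z ∈ I := by
    refine hsumI _ _ fun q _ => ?_
    exact I.mul_mem_right _ _ (I.mul_mem_left _ _ (I.mul_mem_right _ _ (I.mul_mem_left _ _ hΦI)))
  have hZsplit : Z - (κ : ℂ) • (1 : B) =
      ∑ q, ι (star (r q)) * (upw U (s q) * (Φ x - ι (E x)) * upw U (-(s q))) * ι (r q)
        + ι (∑ q, star (r q) * (α ^ (s q)) (E x) * r q - (κ : ℂ) • (1 : A)) := by
    have h1 : ∀ q, ι (star (r q)) * (upw U (s q) * Φ x * upw U (-(s q))) * ι (r q) =
        ι (star (r q)) * (upw U (s q) * (Φ x - ι (E x)) * upw U (-(s q))) * ι (r q) +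
        ι (star (r q) * (α ^ (s q)) (E x) * r q) := by
      intro q
      rw [map_mul ι, map_mul ι, ← Simple_conj h (s q) (E x), mul_sub, sub_mul, mul_sub, sub_mul]
      abel
    rw [hZ, Finset.sum_congr rfl (fun q _ => h1 q), Finset.sum_add_distrib, map_sub, map_sum, map_smul,
      map_one]
    abel
  have hZn : ‖Z - (κ : ℂ) • (1 : B)‖ < κ := by
    rw [hZsplit]
    refine (norm_add_le _ _).trans_lt ?_
    rw [hιn]
    have h1 : ‖∑ q, ι (star (r q)) * (upw U (s q) * (Φ x - ι (E x)) * upw U (-(s q))) * ι (r q)‖ ≤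
        ∑ q, ‖r q‖ ^ 2 * (2 * ε) := by
      refine (norm_sum_le _ _).trans (Finset.sum_le_sum fun q _ => ?_)
      have h2 : ‖upw U (s q) * (Φ x - ι (E x)) * upw U (-(s q))‖ ≤ 2 * ε := by
        calc ‖upw U (s q) * (Φ x - ι (E x)) * upw U (-(s q))‖
            ≤ ‖upw U (s q) * (Φ x - ι (E x))‖ * ‖upw U (-(s q))‖ := norm_mul_le _ _
          _ ≤ (‖upw U (s q)‖ * ‖Φ x - ι (E x)‖) * ‖upw U (-(s q))‖ :=
              mul_le_mul_of_nonneg_right (norm_mul_le _ _) (norm_nonneg _)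
          _ = ‖Φ x - ι (E x)‖ := by rw [Simple_upw_norm, Simple_upw_norm, one_mul, mul_one]
          _ ≤ 2 * ε := hΦx
      calc ‖ι (star (r q)) * (upw U (s q) * (Φ x - ι (E x)) * upw U (-(s q))) * ι (r q)‖
          ≤ ‖ι (star (r q)) * (upw U (s q) * (Φ x - ι (E x)) * upw U (-(s q)))‖ * ‖ι (r q)‖ := norm_mul_le _ _
        _ ≤ (‖ι (star (r q))‖ * ‖upw U (s q) * (Φ x - ι (E x)) * upw U (-(s q))‖) * ‖ι (r q)‖ :=
            mul_le_mul_of_nonneg_right (norm_mul_le _ _) (norm_nonneg _)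
        _ = ‖r q‖ ^ 2 * ‖upw U (s q) * (Φ x - ι (E x)) * upw U (-(s q))‖ := by
            rw [hιn, hιn, norm_star]; ring
        _ ≤ ‖r q‖ ^ 2 * (2 * ε) := mul_le_mul_of_nonneg_left h2 (by positivity)
    have h3 : ∑ q, ‖r q‖ ^ 2 * (2 * ε) ≤ κ / 4 := by
      rw [← Finset.sum_mul]
      have h4 : (∑ q, ‖r q‖ ^ 2) * (2 * ε) ≤ C * (2 * ε) :=
        mul_le_mul_of_nonneg_right (by rw [hC]; linarith) (by positivity)
      have h5 : C * (2 * ε) = κ / 4 := by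
        rw [hε]
        field_simp
        ring
      linarith
    linarith
  -- `Z` is a unit
  have hκ0 : (κ : ℂ) ≠ 0 := by exact_mod_cast hκ.ne'
  have hunit : IsUnit Z := by
    have h1 : Z = (κ : ℂ) • (1 - (1 - (κ : ℂ)⁻¹ • Z)) := by
      rw [sub_sub_cancel, smul_smul, mul_inv_cancel₀ hκ0, one_smul]
    have h2 : ‖1 - (κ : ℂ)⁻¹ • Z‖ < 1 := by
      have h3 : 1 - (κ : ℂ)⁻¹ • Z = -((κ : ℂ)⁻¹ • (Z - (κ : ℂ) • (1 : B))) := by
        rw [smul_sub, smul_smul, inv_mul_cancel₀ hκ0, one_smul]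
        abel
      rw [h3, norm_neg, norm_smul, norm_inv, Complex.norm_real, Real.norm_of_nonneg hκ.le]
      rw [inv_mul_lt_iff₀ hκ, mul_one]
      exact hZn
    rw [h1]
    have h4 : IsUnit (1 - (1 - (κ : ℂ)⁻¹ • Z)) := isUnit_one_sub_of_norm_lt_one h2
    have h5 : (κ : ℂ) • (1 - (1 - (κ : ℂ)⁻¹ • Z)) = algebraMap ℂ B κ * (1 - (1 - (κ : ℂ)⁻¹ • Z)) := by
      rw [Algebra.smul_def]
    rw [h5]
    exact ((isUnit_iff_ne_zero.2 hκ0).map (algebraMap ℂ B)).mul h4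
  obtain ⟨w, hw⟩ := hunit
  have h1I : (1 : B) ∈ I := by
    have h1 : (1 : B) = (↑w⁻¹ : B) * Z := by rw [← hw, Units.inv_mul]
    rw [h1]
    exact I.mul_mem_left _ _ hZI
  exact I.one_mem_iff.1 h1I

end Pool.Agent.B9x.A
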