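import Pool.Agent.Lib.MP_b9c6dd_an.X.A.ExRep
import Pool.Agent.Lib.MP_b9c6dd_an.X.A.DenseInv
import Pool.Agent.Lib.MP_b9c6dd_an.X.A.Rokh
import Pool.Agent.Lib.MP_b9c6dd_an.X.A.Full
import Pool.Agent.Lib.MP_b9c6dd_an.X.A.Model
import Pool.Agent.Lib.MP_b9c6dd_an.X.A.Simple
import Pool.Agent.Lib.MP_b9c6dd_an.X.A.NotDP
import Pool.Agent.Lib.MP_b9c6dd_an.CvFinal

/-!
# Job A18 (Main): a tower gives the counterexample

`R` from `exists_rep`; `A = AT R`, `α = alp R`; `dense_inv`, `rokh` (with `d = 1`; `Rok` unfolds to the statement); the representations `ev j c = c.1 j` (a star algebra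
homomorphism `AT R →⋆ₐ[ℂ] (R.HH →L[ℂ] R.HH)`), `ev j (alp c) = ev (j - 1) c`. `exists_model` gives `B, ι, U`. `E` from
`CP.exists_E`. `simple_of` with `eig` and `full`. If the invertible elements of `B` were dense, `CP.DP_of_dense` would give `DP (alp R)`, contradicting `not_dp`.
`Nontrivial (AT R)`: `1 ≠ 0` since `T.D 0` is nontrivial and embeds.
-/

set_option autoImplicit false

namespace Pool.Agent.B9x.A

open Pool.Agent.MPb9c6dd

theorem main_of_tower (T : Tower) :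
    ¬ (∀ (A : Type) [CStarAlgebra A] (α : A ≃⋆ₐ[ℂ] A),
    Dense {x : A | IsUnit x} →
    (∃ d : ℕ, ∀ (F : Finset A) (ε : ℝ), 0 < ε → ∀ q : ℕ,
      ∃ f : Fin (d + 1) → Fin (q + 1) → A,
        (∀ l j, (∃ g : A, f l j = star g * g) ∧ ‖f l j‖ ≤ 1) ∧
        (∀ l j k, j ≠ k → ‖f l j * f l k‖ < ε) ∧
        (∀ l j, ‖α (f l j) - f l (j + 1)‖ < ε) ∧
        ‖(∑ l, ∑ j, f l j) - 1‖ < ε ∧
        (∀ l j, ∀ a ∈ F, ‖f l j * a - a * f l j‖ < ε) ∧
        (∀ l m j k, ‖f l j * f m k - f m k * f l j‖ < ε)) →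
    ∀ (B : Type) [CStarAlgebra B] (ι : A →⋆ₐ[ℂ] B) (u : B),
      Function.Injective ι →
      u ∈ unitary B →
      (∀ a : A, u * ι a * star u = ι (α a)) →
      (StarAlgebra.adjoin ℂ (Set.range (ι : A → B) ∪ {u})).topologicalClosure = ⊤ →
      (∀ z : ℂ, ‖z‖ = 1 →
        ∃ γ : B →⋆ₐ[ℂ] B, (∀ a : A, γ (ι a) = ι a) ∧ γ u = z • u) →
      IsSimpleRing B →
      Dense {x : B | IsUnit x}) := by
  classical
  intro hall
  obtain ⟨R⟩ := exists_rep T
  have hnt : Nontrivial (AT R) := by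
    refine ⟨⟨1, 0, ?_⟩⟩
    intro h
    have h1 : ((1 : AT R) : R.S) 0 = ((0 : AT R) : R.S) 0 := by rw [h]
    have h2 : (1 : R.HH →L[ℂ] R.HH) = 0 := h1
    have h3 : R.J 0 0 1 = R.J 0 0 0 := by rw [map_one, map_zero, h2]
    exact one_ne_zero (R.J_inj 0 0 h3)
  let ev : ℤ → AT R →⋆ₐ[ℂ] (R.HH →L[ℂ] R.HH) := fun j =>
    { toFun := fun c => c.1 j
      map_one' := rfl
      map_mul' := fun _ _ => rfl
      map_zero' := rfl
      map_add' := fun _ _ => rfl
      commutes' := fun _ => rfl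
      map_star' := fun _ => rfl }
  have hcov : ∀ j a, ev j (alp R a) = ev (j - 1) a := fun j a => rfl
  have hf : ∀ a, (∀ j, ev j a = 0) → a = 0 := by
    intro a h
    apply Subtype.ext
    ext j : 1
    exact h j
  obtain ⟨B, instB, ι, U, hCP, hB, hfaith⟩ := exists_model (alp R) ev hcov hf
  obtain ⟨E, hE⟩ := hCP.exists_E
  have hsimple : IsSimpleRing B := simple_of hCP hE (hfaith E hE) (eig R) (full R)
  have hdense : Dense {x : B | IsUnit x} :=
    hall (AT R) (alp R) (dense_inv R) ⟨1, rokh R⟩ B ι U hCP.inj U.2 hCP.cov hCP.gen hCP.gauge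
      hsimple
  exact not_dp R (hCP.DP_of_dense (dense_inv R) hdense)

end Pool.Agent.B9x.A
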