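import Pool.Agent.Lib.MP_b9c6dd_an.X.A.ModelDefs

/-!
# Job ModelCP: the concrete crossed product is a model

`inj`: `DD ev a = 0` implies `ev x a = 0` for all `x` (apply to `lp.single 2 x ξ`). `cov`: `sh * DD a * star sh = DD (α a)`: at `x` both sides are `ev (x - 1) a (ξ x)`.
`gen`: the star algebra generated by `iB`, `uB` in `BS ev` is dense: the inclusion `BS ev → B(lp)` maps it onto the star algebra generated by `DD`, `sh` (`StarAlgebra.adjoin_induction`: every
element of the latter is in `BS` and its lift is in the former), and it is an isometric embedding; a point of `BS` is in the closure of the latter.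
`gauge`: `W` from `exists_gauge`; `γ b = W * b * star W` is a `*`-endomorphism of `B(lp)`; it fixes `DD ev a`, maps `sh` to `z • sh` (`(W sh star W ξ) x = z^x z^{-(x-1)} ξ (x-1)`), so it maps the generated
star algebra and its closure `BS` to itself: restrict (`StarAlgHom.codRestrict`, `StarSubalgebra.map`/`comap`).
-/

set_option autoImplicit false

open scoped InnerProductSpace ENNReal

namespace Pool.Agent.B9x.A

open Pool.Agent.MPb9c6dd

theorem model_CP {A H : Type} [CStarAlgebra A] [NormedAddCommGroup H]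
    [InnerProductSpace ℂ H] [CompleteSpace H] (α : A ≃⋆ₐ[ℂ] A) (ev : ℤ → A →⋆ₐ[ℂ] (H →L[ℂ] H))
    (hcov : ∀ j a, ev j (α a) = ev (j - 1) a) (hf : ∀ a, (∀ j, ev j a = 0) → a = 0) :
    CP α (iB ev) (uB ev) := by
  have hext : ∀ S T : lp (fun _ : ℤ => H) 2 →L[ℂ] lp (fun _ : ℤ => H) 2,
      (∀ ξ x, (S ξ : ℤ → H) x = (T ξ : ℤ → H) x) → S = T := by
    intro S T h
    refine ContinuousLinearMap.ext fun ξ => ?_
    refine lp.ext ?_
    funext x
    exact h ξ x
  refine ⟨?_, ?_, ?_, ?_⟩
  · -- injectivity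
    intro a b hab
    have h1 : DD ev a = DD ev b := by
      have := congrArg (fun t : BS ev => (t : lp (fun _ : ℤ => H) 2 →L[ℂ] lp (fun _ : ℤ => H) 2)) hab
      exact this
    refine sub_eq_zero.1 (hf _ fun j => ?_)
    rw [map_sub, sub_eq_zero]
    refine ContinuousLinearMap.ext fun v => ?_
    have h2 := DD_apply ev a (lp.single 2 j v) j
    have h3 := DD_apply ev b (lp.single 2 j v) j
    rw [h1, h3, lp.single_apply_self] at h2
    exact h2.symm
  · -- covariance
    intro a
    refine Subtype.ext ?_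
    refine hext _ _ fun ξ x => ?_
    have e1 : (((uB ev : unitary (BS ev)) : BS ev) * iB ev a * star ((uB ev : unitary (BS ev)) : BS ev) :
        BS ev).1 = sh H * DD ev a * star (sh H) := rfl
    have e2 : (iB ev (α a)).1 = DD ev (α a) := rfl
    rw [e1, e2, DD_apply, hcov]
    show (sh H (DD ev a (star (sh H) ξ)) : ℤ → H) x = _
    rw [sh_apply, DD_apply, star_sh_apply, sub_add_cancel]
  · -- generation
    rw [eq_top_iff]
    intro b _
    have hb : (b : lp (fun _ : ℤ => H) 2 →L[ℂ] lp (fun _ : ℤ => H) 2) ∈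
        closure ((StarAlgebra.adjoin ℂ (Set.range (DD ev) ∪ {sh H}) :
          StarSubalgebra ℂ (lp (fun _ : ℤ => H) 2 →L[ℂ] lp (fun _ : ℤ => H) 2)) :
            Set (lp (fun _ : ℤ => H) 2 →L[ℂ] lp (fun _ : ℤ => H) 2)) := b.2
    have himg : ((StarAlgebra.adjoin ℂ (Set.range (DD ev) ∪ {sh H}) :
          StarSubalgebra ℂ (lp (fun _ : ℤ => H) 2 →L[ℂ] lp (fun _ : ℤ => H) 2)) :
            Set (lp (fun _ : ℤ => H) 2 →L[ℂ] lp (fun _ : ℤ => H) 2))
        = (fun t : BS ev => (t : lp (fun _ : ℤ => H) 2 →L[ℂ] lp (fun _ : ℤ => H) 2)) ''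
          ((StarAlgebra.adjoin ℂ (Set.range (iB ev : A → BS ev) ∪ {((uB ev : unitary (BS ev)) : BS ev)}) :
            StarSubalgebra ℂ (BS ev)) : Set (BS ev)) := by
      have h1 := StarAlgHom.map_adjoin (BS ev).subtype
        (Set.range (iB ev : A → BS ev) ∪ {((uB ev : unitary (BS ev)) : BS ev)})
      have h2 : ((BS ev).subtype : BS ev → _) ''
          (Set.range (iB ev : A → BS ev) ∪ {((uB ev : unitary (BS ev)) : BS ev)})
          = Set.range (DD ev) ∪ {sh H} := by
        rw [Set.image_union, Set.image_singleton, ← Set.range_comp]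
        rfl
      rw [h2] at h1
      rw [← h1]
      rfl
    rw [himg] at hb
    have hb' := (closure_subtype (x := b)).2 hb
    exact hb'
  · -- the gauge action
    intro z hz
    obtain ⟨W, hW, hW1, hW2⟩ := exists_gauge H z hz
    have hz0 : z ≠ 0 := by
      intro h
      rw [h, norm_zero] at hz
      exact zero_ne_one hz
    let g : (lp (fun _ : ℤ => H) 2 →L[ℂ] lp (fun _ : ℤ => H) 2) →⋆ₐ[ℂ]
        (lp (fun _ : ℤ => H) 2 →L[ℂ] lp (fun _ : ℤ => H) 2) :=
      (Unitary.conjStarAlgAut ℂ (lp (fun _ : ℤ => H) 2 →L[ℂ] lp (fun _ : ℤ => H) 2) ⟨W, hW⟩ :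
        (lp (fun _ : ℤ => H) 2 →L[ℂ] lp (fun _ : ℤ => H) 2) ≃⋆ₐ[ℂ]
        (lp (fun _ : ℤ => H) 2 →L[ℂ] lp (fun _ : ℤ => H) 2))
    have hg : ∀ b, g b = W * b * star W := fun b => rfl
    have hg1 : ∀ a, g (DD ev a) = DD ev a := by
      intro a
      rw [hg]
      refine hext _ _ fun ξ x => ?_
      show (W (DD ev a (star W ξ)) : ℤ → H) x = _
      rw [hW1, DD_apply, hW2, DD_apply, map_smul, smul_smul, ← zpow_add₀ hz0, add_neg_cancel, zpow_zero,
        one_smul]
    have hg2 : g (sh H) = z • sh H := by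
      rw [hg]
      refine hext _ _ fun ξ x => ?_
      have e1 : ((z • sh H) ξ : ℤ → H) x = z • (sh H ξ : ℤ → H) x := rfl
      rw [e1]
      show (W (sh H (star W ξ)) : ℤ → H) x = _
      rw [hW1, sh_apply, hW2, sh_apply, smul_smul, ← zpow_add₀ hz0]
      congr 1
      have : x + -(x - 1) = 1 := by ring
      rw [this, zpow_one]
    have hgc : Continuous g := by
      have : (g : (lp (fun _ : ℤ => H) 2 →L[ℂ] lp (fun _ : ℤ => H) 2) → _) = fun b => W * b * star W := rfl
      rw [this]
      fun_prop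
    have hle : BS ev ≤ (BS ev).comap g := by
      refine StarSubalgebra.topologicalClosure_minimal ?_ ?_
      · refine StarAlgebra.adjoin_le ?_
        rintro _ (⟨a, rfl⟩ | h)
        · show g (DD ev a) ∈ BS ev
          rw [hg1]
          exact DD_mem ev a
        · rw [Set.mem_singleton_iff] at h
          rw [h]
          show g (sh H) ∈ BS ev
          rw [hg2]
          exact (BS ev).smul_mem (sh_mem_BS ev) z
      · exact (StarSubalgebra.isClosed_topologicalClosure _).preimage hgc
    refine ⟨(g.comp (BS ev).subtype).codRestrict (BS ev) fun b => hle b.2, fun a => ?_, ?_⟩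
    · exact Subtype.ext (hg1 a)
    · exact Subtype.ext hg2

end Pool.Agent.B9x.A
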