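import Mathlib

/-!
# Job A10 (ShiftU): the shift and the gauge unitaries on `lp (fun _ : ℤ => H) 2`

`u`: `(u ξ) x = ξ (x - 1)`, a linear isometric equivalence; its adjoint is the inverse. `W z`: `(W z ξ) x = z ^ x • ξ x` for `‖z‖ = 1`.
-/

set_option autoImplicit false

open scoped InnerProductSpace ENNReal ComplexConjugate

namespace Pool.Agent.B9x.A

private theorem shu_two : (0 : ℝ) < (2 : ℝ≥0∞).toReal := by norm_num

section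

variable {H : Type} [NormedAddCommGroup H] [InnerProductSpace ℂ H]

private theorem shu_sum (ξ : lp (fun _ : ℤ => H) 2) :
    Summable fun x => ‖ξ x‖ ^ (2 : ℝ≥0∞).toReal :=
  (lp.memℓp ξ).summable shu_two

private theorem shu_norm1 (e : ℤ ≃ ℤ) (c : ℤ → ℂ) (hc : ∀ x, ‖c x‖ = 1) (ξ : ℤ → H) (x : ℤ) :
    ‖c x • ξ (e x)‖ ^ (2 : ℝ≥0∞).toReal = ‖ξ (e x)‖ ^ (2 : ℝ≥0∞).toReal := by
  rw [norm_smul, hc, one_mul]

private theorem shu_mem (e : ℤ ≃ ℤ) (c : ℤ → ℂ) (hc : ∀ x, ‖c x‖ = 1) (ξ : lp (fun _ : ℤ => H) 2) :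
    Memℓp (fun x => c x • ξ (e x)) 2 := by
  refine memℓp_gen ?_
  have h := (e.summable_iff (f := fun x => ‖ξ x‖ ^ (2 : ℝ≥0∞).toReal)).2 (shu_sum ξ)
  refine h.congr fun x => ?_
  exact (shu_norm1 e c hc (fun y => ξ y) x).symm

private theorem shu_norm (e : ℤ ≃ ℤ) (c : ℤ → ℂ) (hc : ∀ x, ‖c x‖ = 1) (ξ η : lp (fun _ : ℤ => H) 2)
    (h : ∀ x, η x = c x • ξ (e x)) : ‖η‖ ≤ 1 * ‖ξ‖ := by
  rw [one_mul]
  refine lp.norm_le_of_tsum_le shu_two (norm_nonneg _) ?_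
  rw [lp.norm_rpow_eq_tsum shu_two ξ, ← e.tsum_eq (fun x => ‖ξ x‖ ^ (2 : ℝ≥0∞).toReal)]
  refine le_of_eq (tsum_congr fun x => ?_)
  rw [h x]
  exact shu_norm1 e c hc (fun y => ξ y) x

private noncomputable def shuL (e : ℤ ≃ ℤ) (c : ℤ → ℂ) (hc : ∀ x, ‖c x‖ = 1) :
    lp (fun _ : ℤ => H) 2 →ₗ[ℂ] lp (fun _ : ℤ => H) 2 where
  toFun ξ := ⟨fun x => c x • ξ (e x), shu_mem e c hc ξ⟩
  map_add' ξ η := by
    apply lp.ext
    funext x
    show c x • ((ξ + η : lp (fun _ : ℤ => H) 2) (e x)) = c x • ξ (e x) + c x • η (e x)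
    rw [lp.coeFn_add, Pi.add_apply, smul_add]
  map_smul' r ξ := by
    apply lp.ext
    funext x
    show c x • ((r • ξ : lp (fun _ : ℤ => H) 2) (e x)) = r • (c x • ξ (e x))
    rw [lp.coeFn_smul, Pi.smul_apply, smul_comm]

private noncomputable def shuC (e : ℤ ≃ ℤ) (c : ℤ → ℂ) (hc : ∀ x, ‖c x‖ = 1) :
    lp (fun _ : ℤ => H) 2 →L[ℂ] lp (fun _ : ℤ => H) 2 :=
  LinearMap.mkContinuous (shuL e c hc) 1 (fun ξ => shu_norm e c hc ξ _ (fun _ => rfl))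

private theorem shuC_apply (e : ℤ ≃ ℤ) (c : ℤ → ℂ) (hc : ∀ x, ‖c x‖ = 1) (ξ : lp (fun _ : ℤ => H) 2)
    (x : ℤ) : (shuC e c hc ξ : ℤ → H) x = c x • ξ (e x) := rfl

private theorem shu_ext {S T : lp (fun _ : ℤ => H) 2 →L[ℂ] lp (fun _ : ℤ => H) 2}
    (h : ∀ (ξ : lp (fun _ : ℤ => H) 2) x, (S ξ : ℤ → H) x = (T ξ : ℤ → H) x) : S = T := by
  ext1 ξ
  apply lp.ext
  funext x
  exact h ξ x

private theorem shu_cc {w : ℂ} (hw : ‖w‖ = 1) : conj w * w = 1 := by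
  rw [← Complex.inv_eq_conj hw]
  have h0 : w ≠ 0 := by
    rintro rfl
    simp at hw
  exact inv_mul_cancel₀ h0

private theorem shu_inv (e : ℤ ≃ ℤ) (c : ℤ → ℂ) (hc : ∀ x, ‖c x‖ = 1) (x : ℤ) :
    ‖conj (c (e.symm x))‖ = 1 := by
  rw [RCLike.norm_conj, hc]

private theorem shu_adj [CompleteSpace H] (e : ℤ ≃ ℤ) (c : ℤ → ℂ) (hc : ∀ x, ‖c x‖ = 1) :
    star (shuC (H := H) e c hc) = shuC e.symm (fun x => conj (c (e.symm x))) (shu_inv e c hc) := by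
  symm
  rw [ContinuousLinearMap.star_eq_adjoint, ContinuousLinearMap.eq_adjoint_iff]
  intro ξ η
  rw [lp.inner_eq_tsum, lp.inner_eq_tsum, ← e.tsum_eq]
  refine tsum_congr fun x => ?_
  rw [shuC_apply, shuC_apply, e.symm_apply_apply, inner_smul_left, inner_smul_right]
  simp

private theorem shu_mem_unitary [CompleteSpace H] (e : ℤ ≃ ℤ) (c : ℤ → ℂ) (hc : ∀ x, ‖c x‖ = 1) :
    shuC (H := H) e c hc ∈ unitary (lp (fun _ : ℤ => H) 2 →L[ℂ] lp (fun _ : ℤ => H) 2) := by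
  rw [Unitary.mem_iff, shu_adj]
  constructor
  · refine shu_ext fun ξ x => ?_
    show conj (c (e.symm x)) • (c (e.symm x) • ξ (e (e.symm x))) = ξ x
    rw [smul_smul, shu_cc (hc _), one_smul, e.apply_symm_apply]
  · refine shu_ext fun ξ x => ?_
    show c x • (conj (c (e.symm (e x))) • ξ (e.symm (e x))) = ξ x
    rw [e.symm_apply_apply, smul_smul, mul_comm, shu_cc (hc _), one_smul]

end

theorem exists_shift (H : Type) [NormedAddCommGroup H] [InnerProductSpace ℂ H] [CompleteSpace H] :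
    ∃ u : lp (fun _ : ℤ => H) 2 →L[ℂ] lp (fun _ : ℤ => H) 2,
      u ∈ unitary (lp (fun _ : ℤ => H) 2 →L[ℂ] lp (fun _ : ℤ => H) 2) ∧
      (∀ (ξ : lp (fun _ : ℤ => H) 2) (x : ℤ), (u ξ : ℤ → H) x = ξ (x - 1)) ∧
      (∀ (ξ : lp (fun _ : ℤ => H) 2) (x : ℤ), (star u ξ : ℤ → H) x = ξ (x + 1)) := by
  refine ⟨shuC (Equiv.subRight 1) (fun _ => 1) (fun _ => norm_one), shu_mem_unitary _ _ _, fun ξ x => ?_,
    fun ξ x => ?_⟩
  · rw [shuC_apply, one_smul]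
    rfl
  · rw [shu_adj, shuC_apply, map_one, one_smul]
    rfl

theorem exists_gauge (H : Type) [NormedAddCommGroup H] [InnerProductSpace ℂ H] [CompleteSpace H]
    (z : ℂ) (hz : ‖z‖ = 1) :
    ∃ W : lp (fun _ : ℤ => H) 2 →L[ℂ] lp (fun _ : ℤ => H) 2,
      W ∈ unitary (lp (fun _ : ℤ => H) 2 →L[ℂ] lp (fun _ : ℤ => H) 2) ∧
      (∀ (ξ : lp (fun _ : ℤ => H) 2) (x : ℤ), (W ξ : ℤ → H) x = z ^ x • ξ x) ∧
      (∀ (ξ : lp (fun _ : ℤ => H) 2) (x : ℤ), (star W ξ : ℤ → H) x = z ^ (-x) • ξ x) := by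
  have hc : ∀ x : ℤ, ‖z ^ x‖ = 1 := fun x => by rw [norm_zpow, hz, one_zpow]
  refine ⟨shuC (Equiv.refl ℤ) (fun x => z ^ x) hc, shu_mem_unitary _ _ _, fun ξ x => ?_, fun ξ x => ?_⟩
  · rw [shuC_apply]
    rfl
  · rw [shu_adj, shuC_apply]
    show conj (z ^ x) • ξ x = z ^ (-x) • ξ x
    rw [← Complex.inv_eq_conj (hc x), zpow_neg]

end Pool.Agent.B9x.A
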