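import Pool.Agent.Lib.MP_b9c6dd_an.X.A.DSum
import Pool.Agent.Lib.MP_b9c6dd_an.X.A.ShiftU
import Pool.Agent.Lib.MP_b9c6dd_an.Expect

/-!
# The concrete crossed product
-/

set_option autoImplicit false

open scoped InnerProductSpace ENNReal

namespace Pool.Agent.B9x.A

variable {A H : Type} [CStarAlgebra A] [NormedAddCommGroup H] [InnerProductSpace ℂ H]
  [CompleteSpace H]

/-- Diagonal operators. -/
noncomputable def DD (ev : ℤ → A →⋆ₐ[ℂ] (H →L[ℂ] H)) :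
    A →⋆ₐ[ℂ] (lp (fun _ : ℤ => H) 2 →L[ℂ] lp (fun _ : ℤ => H) 2) := (exists_dsum ev).choose

theorem DD_apply (ev : ℤ → A →⋆ₐ[ℂ] (H →L[ℂ] H)) (a : A) (ξ : lp (fun _ : ℤ => H) 2) (x : ℤ) :
    (DD ev a ξ : ℤ → H) x = ev x a (ξ x) := (exists_dsum ev).choose_spec a ξ x

/-- The shift. -/
noncomputable def sh (H : Type) [NormedAddCommGroup H] [InnerProductSpace ℂ H] [CompleteSpace H] :
    lp (fun _ : ℤ => H) 2 →L[ℂ] lp (fun _ : ℤ => H) 2 := (exists_shift H).choose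

theorem sh_mem : sh H ∈ unitary (lp (fun _ : ℤ => H) 2 →L[ℂ] lp (fun _ : ℤ => H) 2) :=
  (exists_shift H).choose_spec.1

theorem sh_apply (ξ : lp (fun _ : ℤ => H) 2) (x : ℤ) : (sh H ξ : ℤ → H) x = ξ (x - 1) :=
  (exists_shift H).choose_spec.2.1 ξ x

theorem star_sh_apply (ξ : lp (fun _ : ℤ => H) 2) (x : ℤ) : (star (sh H) ξ : ℤ → H) x = ξ (x + 1) :=
  (exists_shift H).choose_spec.2.2 ξ x

/-- The concrete crossed product. -/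
noncomputable def BS (ev : ℤ → A →⋆ₐ[ℂ] (H →L[ℂ] H)) :
    StarSubalgebra ℂ (lp (fun _ : ℤ => H) 2 →L[ℂ] lp (fun _ : ℤ => H) 2) :=
  (StarAlgebra.adjoin ℂ (Set.range (DD ev) ∪ {sh H})).topologicalClosure

noncomputable instance instBS (ev : ℤ → A →⋆ₐ[ℂ] (H →L[ℂ] H)) : CStarAlgebra (BS ev) :=
  StarSubalgebra.cstarAlgebra _ (h_closed := StarSubalgebra.isClosed_topologicalClosure _)

theorem DD_mem (ev : ℤ → A →⋆ₐ[ℂ] (H →L[ℂ] H)) (a : A) : DD ev a ∈ BS ev :=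
  StarSubalgebra.le_topologicalClosure _
    (StarAlgebra.subset_adjoin ℂ _ (Or.inl ⟨a, rfl⟩))

theorem sh_mem_BS (ev : ℤ → A →⋆ₐ[ℂ] (H →L[ℂ] H)) : sh H ∈ BS ev :=
  StarSubalgebra.le_topologicalClosure _
    (StarAlgebra.subset_adjoin ℂ _ (Or.inr rfl))

/-- The inclusion of the coefficients. -/
noncomputable def iB (ev : ℤ → A →⋆ₐ[ℂ] (H →L[ℂ] H)) : A →⋆ₐ[ℂ] BS ev :=
  (DD ev).codRestrict (BS ev) (DD_mem ev)

theorem iB_coe (ev : ℤ → A →⋆ₐ[ℂ] (H →L[ℂ] H)) (a : A) : ((iB ev a : BS ev) :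
    lp (fun _ : ℤ => H) 2 →L[ℂ] lp (fun _ : ℤ => H) 2) = DD ev a := rfl

/-- The canonical unitary. -/
noncomputable def uB (ev : ℤ → A →⋆ₐ[ℂ] (H →L[ℂ] H)) : unitary (BS ev) :=
  ⟨⟨sh H, sh_mem_BS ev⟩, by
    rw [Unitary.mem_iff]
    exact ⟨Subtype.ext (Unitary.star_mul_self_of_mem sh_mem),
      Subtype.ext (Unitary.mul_star_self_of_mem sh_mem)⟩⟩

theorem uB_coe (ev : ℤ → A →⋆ₐ[ℂ] (H →L[ℂ] H)) : (((uB ev : unitary (BS ev)) : BS ev) :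
    lp (fun _ : ℤ => H) 2 →L[ℂ] lp (fun _ : ℤ => H) 2) = sh H := rfl

end Pool.Agent.B9x.A
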