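import Pool.Agent.Lib.MP_b9c6dd_an.X.A.Defs

/-!
# Job A16 (Path): the composed maps of a tower

For `j : ℤ` (or any sequence of digits `β : ℕ → Fin 3`) and levels `i`, `n` a non-unital `*`-homomorphism `up β i n : T.D i → T.D n`, which is `0` if `n < i`, the identity if
`n = i`, and `up β i (n+1) = io n (β n) ∘ up β i n` for `n ≥ i`. Define it by recursion on `n` (for `n = i` use a cast, `h ▸ ...`), or state
existence by choice.
-/

set_option autoImplicit false

namespace Pool.Agent.B9x.A

variable (T : Tower)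

/-- The unital map as a non-unital one. -/
noncomputable def pathIo (n : ℕ) (b : Fin 3) : T.D n →⋆ₙₐ[ℂ] T.D (n + 1) :=
  (T.io n b : T.D n →⋆ₙₐ[ℂ] T.D (n + 1))

theorem pathIo_apply (n : ℕ) (b : Fin 3) (d : T.D n) : pathIo T n b d = T.io n b d := rfl

/-- The identity along an equality of levels. -/
noncomputable def pathCast (i n : ℕ) (h : i = n) : T.D i →⋆ₙₐ[ℂ] T.D n :=
  h ▸ NonUnitalStarAlgHom.id ℂ (T.D i)

theorem pathCast_self (i : ℕ) (d : T.D i) : pathCast T i i rfl d = d := rfl

/-- The composed maps. -/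
noncomputable def pathUp (β : ℕ → Fin 3) (i : ℕ) : ∀ n, T.D i →⋆ₙₐ[ℂ] T.D n
  | 0 => if h : i = 0 then pathCast T i 0 h else 0
  | n + 1 => if h : i = n + 1 then pathCast T i (n + 1) h
      else (pathIo T n (β n)).comp (pathUp β i n)

theorem pathUp_self (β : ℕ → Fin 3) (i : ℕ) (d : T.D i) : pathUp T β i i d = d := by
  cases i with
  | zero => simp only [pathUp, dif_pos]; rfl
  | succ n => simp only [pathUp, dif_pos]; rfl

theorem pathUp_succ (β : ℕ → Fin 3) (i n : ℕ) (h : i ≤ n) (d : T.D i) :
    pathUp T β i (n + 1) d = T.io n (β n) (pathUp T β i n d) := by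
  have h' : ¬ (i = n + 1) := by omega
  simp only [pathUp, dif_neg h', NonUnitalStarAlgHom.comp_apply, pathIo_apply]

theorem exists_up (β : ℕ → Fin 3) : ∃ up : ∀ i n, T.D i →⋆ₙₐ[ℂ] T.D n,
    (∀ i (d : T.D i), up i i d = d) ∧
    (∀ i n (d : T.D i), i ≤ n → up i (n + 1) d = T.io n (β n) (up i n d)) ∧
    (∀ i n (d : T.D i), i + 1 ≤ n → up i n d = up (i + 1) n (T.io i (β i) d)) ∧
    (∀ i n, i ≤ n → up i n 1 = 1) ∧
    (∀ i n, i ≤ n → Function.Injective (up i n)) := by
  refine ⟨pathUp T β, pathUp_self T β, fun i n d h => pathUp_succ T β i n h d, ?_, ?_, ?_⟩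
  · intro i n d h
    induction n, h using Nat.le_induction with
    | base =>
      rw [pathUp_succ T β i i le_rfl, pathUp_self, pathUp_self]
    | succ n h ih =>
      rw [pathUp_succ T β i n (by omega), pathUp_succ T β (i + 1) n h, ih]
  · intro i n h
    induction n, h using Nat.le_induction with
    | base => exact pathUp_self T β i 1
    | succ n h ih =>
      rw [pathUp_succ T β i n h, ih, map_one]
  · intro i n h
    induction n, h using Nat.le_induction with
    | base =>
      intro a b hab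
      rwa [pathUp_self, pathUp_self] at hab
    | succ n h ih =>
      intro a b hab
      rw [pathUp_succ T β i n h, pathUp_succ T β i n h] at hab
      exact ih (T.io_inj n (β n) hab)

/-- The map depends only on the digits `≥ i`. -/
theorem up_congr (β β' : ℕ → Fin 3) (i : ℕ) (hβ : ∀ n, i ≤ n → β n = β' n)
    (up up' : ∀ n, T.D i →⋆ₙₐ[ℂ] T.D n)
    (h0 : ∀ d, up i d = d) (h0' : ∀ d, up' i d = d)
    (h1 : ∀ n (d : T.D i), i ≤ n → up (n + 1) d = T.io n (β n) (up n d))
    (h1' : ∀ n (d : T.D i), i ≤ n → up' (n + 1) d = T.io n (β' n) (up' n d)) :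
    ∀ n, i ≤ n → ∀ d, up n d = up' n d := by
  intro n h
  induction n, h using Nat.le_induction with
  | base => intro d; rw [h0, h0']
  | succ n h ih => intro d; rw [h1 n d h, h1' n d h, ih d, hβ n h]

end Pool.Agent.B9x.A
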