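import Pool.Agent.Lib.MP_b9c6dd_an.X.A.Defs

/-!
# Job TilesA: balanced ternary tilings

All statements are elementary integer arithmetic (`omega` for one step, induction on the level).
`x = 3 * tdiv x + (dig x - 1)`, `tdiv (x + 3 k) = tdiv x + k`, `dig (x + 3 k) = dig x`. By induction `t i (j + 3^i k) = t i j + k`, `t i` is monotone,
`2 * |rho i j| ≤ 3^i - 1`, `rho (i+1) j = rho i j + 3^i * (dgt i j - 1)`.
`rho m j' = rho m j` iff `j' - j ∈ 3^m ℤ`.
-/

set_option autoImplicit false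

namespace Pool.Agent.B9x.A

private theorem tilesA_tdiv_add (x k : ℤ) : tdiv (x + 3 * k) = tdiv x + k := by
  unfold tdiv
  omega

private theorem tilesA_dig_add (x k : ℤ) : dig (x + 3 * k) = dig x := by
  unfold dig
  rw [Fin.mk.injEq]
  omega

theorem tdiv_dig (x : ℤ) : x = 3 * tdiv x + ((dig x : ℕ) : ℤ) - 1 := by
  unfold tdiv dig
  simp only
  omega

theorem t_add (i : ℕ) (j k : ℤ) : t i (j + 3 ^ i * k) = t i j + k := by
  induction i generalizing j k with
  | zero => simp [t]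
  | succ i ih =>
    have h1 : t (i + 1) (j + 3 ^ (i + 1) * k) = tdiv (t i (j + 3 ^ (i + 1) * k)) := rfl
    have h2 : t (i + 1) j = tdiv (t i j) := rfl
    rw [h1, h2, show j + 3 ^ (i + 1) * k = j + 3 ^ i * (3 * k) by ring, ih, tilesA_tdiv_add]

theorem t_mono (i : ℕ) : Monotone (t i) := by
  induction i with
  | zero => exact fun a b h => h
  | succ i ih =>
    intro a b h
    have h1 := ih h
    show tdiv (t i a) ≤ tdiv (t i b)
    unfold tdiv
    omega

private theorem tilesA_rho_succ (i : ℕ) (j : ℤ) :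
    rho (i + 1) j = rho i j + 3 ^ i * (((dgt i j : ℕ) : ℤ) - 1) := by
  have h := tdiv_dig (t i j)
  have h1 : t (i + 1) j = tdiv (t i j) := rfl
  unfold rho dgt
  rw [h1, pow_succ]
  linear_combination ((3 : ℤ) ^ i) * h

private theorem tilesA_rho_iff (m : ℕ) (j j' : ℤ) :
    rho m j' = rho m j ↔ ∃ k : ℤ, j' = j + 3 ^ m * k := by
  constructor
  · intro h
    refine ⟨t m j' - t m j, ?_⟩
    unfold rho at h
    linear_combination h
  · rintro ⟨k, rfl⟩
    unfold rho
    rw [t_add]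
    ring

theorem rho_abs (i : ℕ) (j : ℤ) : 2 * |rho i j| ≤ 3 ^ i - 1 := by
  induction i with
  | zero => simp [rho, t]
  | succ i ih =>
    have h1 := tilesA_rho_succ i j
    have h2 : |(((dgt i j : ℕ) : ℤ) - 1)| ≤ 1 := by
      have := (dgt i j).2
      rw [abs_le]
      constructor <;> omega
    have h3 : |rho (i + 1) j| ≤ |rho i j| + 3 ^ i * 1 := by
      rw [h1]
      refine (abs_add_le _ _).trans (add_le_add_right ?_ _)
      rw [abs_mul, abs_of_nonneg (by positivity : (0 : ℤ) ≤ 3 ^ i)]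
      exact mul_le_mul_of_nonneg_left h2 (by positivity)
    rw [pow_succ]
    linarith

theorem t_zero (i : ℕ) (j : ℤ) (h : 2 * |j| < 3 ^ i) : t i j = 0 := by
  have h1 := rho_abs i j
  have h2 : (3 : ℤ) ^ i * t i j = j - rho i j := by
    unfold rho
    ring
  have hp : (0 : ℤ) < 3 ^ i := by positivity
  have h3 : (3 : ℤ) ^ i * |t i j| ≤ |j| + |rho i j| := by
    have : |(3 : ℤ) ^ i * t i j| = 3 ^ i * |t i j| := by rw [abs_mul, abs_of_pos hp]
    rw [← this, h2]
    exact abs_sub _ _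
  have h4 : (3 : ℤ) ^ i * |t i j| < 3 ^ i * 1 := by linarith
  have h5 := lt_of_mul_lt_mul_left h4 hp.le
  exact Int.abs_lt_one_iff.1 h5

/-- equality of positions descends to lower levels -/
theorem rho_desc (m i : ℕ) (j j' : ℤ) (hi : i ≤ m) (h : rho m j' = rho m j) :
    rho i j' = rho i j := by
  obtain ⟨k, hk⟩ := (tilesA_rho_iff m j j').1 h
  refine (tilesA_rho_iff i j j').2 ⟨3 ^ (m - i) * k, ?_⟩
  rw [hk, ← mul_assoc, ← pow_add, Nat.add_sub_cancel' hi]

theorem dgt_desc (m i : ℕ) (j j' : ℤ) (hi : i < m) (h : rho m j' = rho m j) :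
    dgt i j' = dgt i j := by
  obtain ⟨k, hk⟩ := (tilesA_rho_iff m j j').1 h
  have h1 : j' = j + 3 ^ i * (3 * (3 ^ (m - (i + 1)) * k)) := by
    rw [hk, show (3 : ℤ) ^ i * (3 * (3 ^ (m - (i + 1)) * k)) = 3 ^ (i + 1) * 3 ^ (m - (i + 1)) * k by ring,
      ← pow_add, Nat.add_sub_cancel' (by omega : i + 1 ≤ m)]
  unfold dgt
  rw [h1, t_add, tilesA_dig_add]

theorem rho_iff (m : ℕ) (j j' : ℤ) : rho m j' = rho m j ↔ ∃ k : ℤ, j' = j + 3 ^ m * k := by
  exact tilesA_rho_iff m j j'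

theorem rho_rho (m : ℕ) (j : ℤ) : rho m (rho m j) = rho m j := by
  refine (tilesA_rho_iff m j (rho m j)).2 ⟨- t m j, ?_⟩
  unfold rho
  ring

theorem wd_desc (m : ℕ) (j j' : ℤ) : wd m j' = wd m j ↔ rho m j' = rho m j := by
  induction m with
  | zero => exact ⟨fun _ => by simp [rho, t], fun _ => rfl⟩
  | succ m ih =>
    have e : wd (m + 1) j' = wd (m + 1) j ↔ dgt m j' = dgt m j ∧ wd m j' = wd m j :=
      ⟨fun h => ⟨congrArg Prod.fst h, congrArg Prod.snd h⟩, fun h => Prod.ext h.1 h.2⟩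
    rw [e, ih]
    constructor
    · rintro ⟨h1, h2⟩
      rw [tilesA_rho_succ, tilesA_rho_succ, h1, h2]
    · intro h
      exact ⟨dgt_desc (m + 1) m j j' (by omega) h, rho_desc (m + 1) m j j' (by omega) h⟩

end Pool.Agent.B9x.A
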